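import Pool.Agent.Lib.MP_084b88_gt.CT.Spec

/-!
# MP_084b88_gt, project CT, module CEL: the sum over the sectors
-/

set_option autoImplicit false

open MeasureTheory Set Real

namespace Pool.Agent.Lib.MP_084b88_gt.CT.CELM

open Pool.Agent.Lib.MP_084b88_gt.CW
open Pool.Agent.Lib.MP_084b88_gt.SY
open Pool.Agent.Lib.MP_084b88_gt.LG
open Pool.Agent.Lib.MP_084b88_gt.CT

theorem fN_eq {α : Type} (a : ℕ) (k : ℕ → α) : fN a k = k a := by
  cases a <;> rfl

theorem fP_eq {α : Type} (w : Par) (k : Par → α) : fP w k = k w := by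
  simp only [fP, fN_eq]

theorem ifle_eq {α : Type} (a b : ℕ) (x y : α) : ifle a b x y = if a ≤ b then x else y := by
  unfold ifle
  by_cases h : a ≤ b
  · rw [if_pos h, Nat.ble_eq_true_of_le h]
  · rw [if_neg h]
    have : Nat.ble a b = false := by
      cases hb : Nat.ble a b with
      | false => rfl
      | true => exact absurd (Nat.le_of_ble_eq_true hb) h
    rw [this]

theorem ifle_true {a b : ℕ} {x y : Bool} (h : ifle a b x y = true) :
    (a ≤ b ∧ x = true) ∨ (b < a ∧ y = true) := by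
  rw [ifle_eq] at h
  split at h
  · left; exact ⟨‹_›, h⟩
  · right; exact ⟨by omega, h⟩

theorem getL_mem {β : Type} (d : β) (l : List β) : ∀ n : ℕ, n < l.length → getL d l n ∈ l := by
  induction l with
  | nil => intro n hn; simp at hn
  | cons x r ih =>
    intro n hn
    cases n with
    | zero => exact List.mem_cons_self
    | succ m =>
      have : getL d (x :: r) (m + 1) = getL d r m := rfl
      rw [this]
      exact List.mem_cons_of_mem _ (ih m (by simpa using hn))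

/-- Facts on the node table. -/
theorem node_k : ∀ k : ℕ, k ≤ 64 → (getL (⟨0, 0, 0, 0⟩ : Nod) nodT k).k = k := by
  intro k hk
  interval_cases k <;> rfl

theorem node_mem (k : ℕ) (hk : k ≤ 64) : getL (⟨0, 0, 0, 0⟩ : Nod) nodT k ∈ nodT :=
  getL_mem _ _ _ (lt_of_le_of_lt hk (by decide))

theorem node_yu : ∀ k : ℕ, k ≤ 64 → (getL (⟨0, 0, 0, 0⟩ : Nod) nodT k).yu ≤ 1048576 := by
  intro k hk
  interval_cases k <;> decide

/-- strict monotonicity of the bounds. -/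
theorem node_lt_succ : ∀ k : ℕ, k < 64 → (getL (⟨0, 0, 0, 0⟩ : Nod) nodT k).yl <
    (getL (⟨0, 0, 0, 0⟩ : Nod) nodT (k + 1)).yl := by
  intro k hk
  interval_cases k <;> decide

theorem node_yl_yu : ∀ k : ℕ, k ≤ 64 → (getL (⟨0, 0, 0, 0⟩ : Nod) nodT k).yl ≤
    (getL (⟨0, 0, 0, 0⟩ : Nod) nodT k).yu := by
  intro k hk
  interval_cases k <;> decide

theorem node_lt {j k : ℕ} (h : j < k) (hk : k ≤ 64) : (getL (⟨0, 0, 0, 0⟩ : Nod) nodT j).yl <
    (getL (⟨0, 0, 0, 0⟩ : Nod) nodT k).yu := by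
  have key : ∀ d : ℕ, j + d + 1 ≤ 64 → (getL (⟨0, 0, 0, 0⟩ : Nod) nodT j).yl <
      (getL (⟨0, 0, 0, 0⟩ : Nod) nodT (j + d + 1)).yl := by
    intro d
    induction d with
    | zero => intro hd; exact node_lt_succ j (by omega)
    | succ d ih => intro hd; exact lt_trans (ih (by omega)) (node_lt_succ (j + d + 1) (by omega))
  obtain ⟨d, rfl⟩ : ∃ d, k = j + d + 1 := ⟨k - j - 1, by omega⟩
  exact lt_of_lt_of_le (key d hk) (node_yl_yu _ hk)

/-- Angle of a node. -/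
noncomputable def th (k : ℕ) : ℝ := (k : ℝ) * π / 128

theorem th_le {j k : ℕ} (h : j ≤ k) : th j ≤ th k := by
  unfold th
  have : (j : ℝ) ≤ k := by exact_mod_cast h
  have hp := pi_pos
  gcongr

theorem th_range {k : ℕ} (hk : k ≤ 64) : 0 ≤ th k ∧ th k ≤ π / 2 := by
  unfold th
  have : (k : ℝ) ≤ 64 := by exact_mod_cast hk
  have hp := pi_pos
  constructor
  · positivity
  · nlinarith

theorem sin_sq_mono {a b : ℝ} (h0 : 0 ≤ a) (hab : a ≤ b) (hb : b ≤ π / 2) : sin a ^ 2 ≤ sin b ^ 2 := by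
  have h1 : 0 ≤ sin a := sin_nonneg_of_nonneg_of_le_pi h0 (by linarith [pi_pos])
  have h2 : sin a ≤ sin b := sin_le_sin_of_le_of_le_pi_div_two (by linarith [pi_pos]) hb hab
  exact pow_le_pow_left₀ h1 h2 2

/-- The integral of the minorant over a sector. -/
theorem sec_int (hTRG : SpecTRG) (f : ℝ → ℝ) (hf : Continuous f) {j k : ℕ} (hjk : j < k) (hk : k ≤ 64)
    (x x' : Nod) (hx : x = getL (⟨0, 0, 0, 0⟩ : Nod) nodT j) (hx' : x' = getL (⟨0, 0, 0, 0⟩ : Nod) nodT k) (a b : ℝ)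
    (hmin : ∀ s : ℝ, (x.yl : ℝ) ≤ 1048576 * sin s ^ 2 → 1048576 * sin s ^ 2 ≤ (x'.yu : ℝ) →
      a * ((x'.yu : ℝ) - 1048576 * sin s ^ 2) + b * (1048576 * sin s ^ 2 - (x.yl : ℝ)) ≤ SC * f s) :
    ∃ η : ℝ, ((x'.k : ℝ) - (x.k : ℝ)) * 524288 - ((x'.sg : ℝ) - (x.sg : ℝ)) - 1 ≤ η ∧
      η ≤ ((x'.k : ℝ) - (x.k : ℝ)) * 524288 - ((x'.sg : ℝ) - (x.sg : ℝ)) + 1 ∧
      (x.yl : ℝ) * ((x'.k : ℝ) - (x.k : ℝ)) ≤ η ∧ η ≤ (x'.yu : ℝ) * ((x'.k : ℝ) - (x.k : ℝ)) ∧
      a * ((x'.yu : ℝ) * ((x'.k : ℝ) - (x.k : ℝ)) - η) + b * (η - (x.yl : ℝ) * ((x'.k : ℝ) - (x.k : ℝ))) ≤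
        128 / π * (SC * ∫ s in (th j)..(th k), f s) := by
  have hp := pi_pos
  have hxk : x.k = j := by rw [hx]; exact node_k j (by omega)
  have hxk' : x'.k = k := by rw [hx']; exact node_k k hk
  have h1 := hTRG x (by rw [hx]; exact node_mem j (by omega))
  have h2 := hTRG x' (by rw [hx']; exact node_mem k hk)
  rw [hxk] at h1
  rw [hxk'] at h2
  have hjk' : th j ≤ th k := th_le hjk.le
  -- bounds of sin² on the sector
  have hlo : ∀ s, th j ≤ s → s ≤ th k → (x.yl : ℝ) ≤ 1048576 * sin s ^ 2 := by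
    intro s hs1 hs2
    have := sin_sq_mono (th_range (k := j) (by omega)).1 hs1 (le_trans hs2 (th_range hk).2)
    have h3 : sin ((j : ℝ) * π / 128) ^ 2 ≤ sin s ^ 2 := this
    linarith [h1.1]
  have hup : ∀ s, th j ≤ s → s ≤ th k → 1048576 * sin s ^ 2 ≤ (x'.yu : ℝ) := by
    intro s hs1 hs2
    have := sin_sq_mono (le_trans (th_range (k := j) (by omega)).1 hs1) hs2 (th_range hk).2
    have h3 : sin s ^ 2 ≤ sin ((k : ℝ) * π / 128) ^ 2 := this
    linarith [h2.2.1]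
  set I : ℝ := ∫ s in (th j)..(th k), 1048576 * sin s ^ 2 with hI
  have hlen : 128 / π * (th k - th j) = (k : ℝ) - j := by
    unfold th; field_simp
  have hlen0 : (0 : ℝ) ≤ th k - th j := by linarith
  have hci : ∀ g : ℝ → ℝ, Continuous g → IntervalIntegrable g volume (th j) (th k) :=
    fun g hg => hg.intervalIntegrable _ _
  have hIval : I = 1048576 * ((sin (th j) * cos (th j) - sin (th k) * cos (th k) + th k - th j) / 2) := by
    rw [hI, intervalIntegral.integral_const_mul, integral_sin_sq]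
  have hs2 : ∀ m : ℕ, sin (th m) * cos (th m) = sin ((m : ℝ) * π / 64) / 2 := by
    intro m
    have : (m : ℝ) * π / 64 = 2 * th m := by unfold th; ring
    rw [this, sin_two_mul]; ring
  have hη : 128 / π * I = 524288 * ((k : ℝ) - j) - (1048576 * (32 / π) * sin ((k : ℝ) * π / 64) -
      1048576 * (32 / π) * sin ((j : ℝ) * π / 64)) := by
    rw [hIval, hs2, hs2, ← hlen]
    field_simp
    ring
  have hcs : Continuous fun s : ℝ => (1048576 : ℝ) * sin s ^ 2 := by fun_prop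
  have hIlo : (x.yl : ℝ) * (th k - th j) ≤ I := by
    have : ∫ _ in (th j)..(th k), (x.yl : ℝ) ≤ I := by
      apply intervalIntegral.integral_mono_on hjk' (by simp) (hci _ hcs)
      intro s hs
      exact hlo s hs.1 hs.2
    rw [intervalIntegral.integral_const, smul_eq_mul] at this
    linarith
  have hIup : I ≤ (x'.yu : ℝ) * (th k - th j) := by
    have : I ≤ ∫ _ in (th j)..(th k), (x'.yu : ℝ) := by
      apply intervalIntegral.integral_mono_on hjk' (hci _ hcs) (by simp)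
      intro s hs
      exact hup s hs.1 hs.2
    rw [intervalIntegral.integral_const, smul_eq_mul] at this
    linarith
  have hc0 : (0 : ℝ) ≤ 128 / π := by positivity
  refine ⟨128 / π * I, ?_, ?_, ?_, ?_, ?_⟩
  · rw [hη, hxk, hxk']; linarith [h1.2.2.1, h2.2.2.2]
  · rw [hη, hxk, hxk']; linarith [h1.2.2.2, h2.2.2.1]
  · rw [hxk, hxk', ← hlen]
    have := mul_le_mul_of_nonneg_left hIlo hc0
    linarith
  · rw [hxk, hxk', ← hlen]
    have := mul_le_mul_of_nonneg_left hIup hc0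
    linarith
  · rw [hxk, hxk', ← hlen]
    have hmain : ∫ s in (th j)..(th k), (a * ((x'.yu : ℝ) - 1048576 * sin s ^ 2) +
        b * (1048576 * sin s ^ 2 - (x.yl : ℝ))) ≤ ∫ s in (th j)..(th k), SC * f s := by
      apply intervalIntegral.integral_mono_on hjk' (hci _ (by fun_prop)) (hci _ (by fun_prop))
      intro s hs
      exact hmin s (hlo s hs.1 hs.2) (hup s hs.1 hs.2)
    have he : ∫ s in (th j)..(th k), (a * ((x'.yu : ℝ) - 1048576 * sin s ^ 2) +
        b * (1048576 * sin s ^ 2 - (x.yl : ℝ))) =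
        a * ((x'.yu : ℝ) * (th k - th j) - I) + b * (I - (x.yl : ℝ) * (th k - th j)) := by
      have e1 : ∀ s : ℝ, a * ((x'.yu : ℝ) - 1048576 * sin s ^ 2) + b * (1048576 * sin s ^ 2 - (x.yl : ℝ)) =
          (a * (x'.yu : ℝ) - b * (x.yl : ℝ)) + (b - a) * (1048576 * sin s ^ 2) := by intro s; ring
      simp only [e1]
      rw [intervalIntegral.integral_add (by simp) ((hci _ hcs).const_mul _),
        intervalIntegral.integral_const, intervalIntegral.integral_const_mul, ← hI, smul_eq_mul]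
      ring
    rw [he, intervalIntegral.integral_const_mul] at hmain
    have := mul_le_mul_of_nonneg_left hmain hc0
    linarith

/-- Linearity of `wt`. -/
theorem wt_add (A1 A2 B1 B2 : ℕ) (A B d1 d2 d3 d4 e1 e2 e3 e4 : ℝ) :
    wt A1 A2 B1 B2 A B (d1 + e1) (d2 + e2) (d3 + e3) (d4 + e4) =
      wt A1 A2 B1 B2 A B d1 d2 d3 d4 + wt A1 A2 B1 B2 A B e1 e2 e3 e4 := by
  unfold wt; ring

theorem wt_one (A1 A2 B1 B2 : ℕ) (A B d : ℝ) (hA : A1 < A2) (hB : B1 < B2) :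
    wt A1 A2 B1 B2 A B d d d d = d := by
  unfold wt
  have h1 : (A1 : ℝ) < A2 := by exact_mod_cast hA
  have h2 : (B1 : ℝ) < B2 := by exact_mod_cast hB
  have h3 : (0 : ℝ) < ((A2 : ℝ) - A1) * ((B2 : ℝ) - B1) := mul_pos (by linarith) (by linarith)
  rw [div_eq_iff h3.ne']
  ring

theorem wt_mono (A1 A2 B1 B2 : ℕ) (A B d1 d2 d3 d4 e1 e2 e3 e4 : ℝ) (hA : A1 < A2) (hB : B1 < B2)
    (a1 : (A1 : ℝ) ≤ 64 * A) (a2 : 64 * A ≤ (A2 : ℝ)) (b1 : (B1 : ℝ) ≤ 64 * B) (b2 : 64 * B ≤ (B2 : ℝ))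
    (h1 : d1 ≤ e1) (h2 : d2 ≤ e2) (h3 : d3 ≤ e3) (h4 : d4 ≤ e4) :
    wt A1 A2 B1 B2 A B d1 d2 d3 d4 ≤ wt A1 A2 B1 B2 A B e1 e2 e3 e4 := by
  unfold wt
  have g1 : (A1 : ℝ) < A2 := by exact_mod_cast hA
  have g2 : (B1 : ℝ) < B2 := by exact_mod_cast hB
  have g3 : (0 : ℝ) < ((A2 : ℝ) - A1) * ((B2 : ℝ) - B1) := mul_pos (by linarith) (by linarith)
  rw [div_le_div_iff_of_pos_right g3]
  have u1 : 0 ≤ (A2 : ℝ) - 64 * A := by linarith
  have u2 : 0 ≤ 64 * A - (A1 : ℝ) := by linarith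
  have u3 : 0 ≤ (B2 : ℝ) - 64 * B := by linarith
  have u4 : 0 ≤ 64 * B - (B1 : ℝ) := by linarith
  gcongr

/-- One block. -/
theorem blk_sound (hSCT : SpecSCT) (hTRG : SpecTRG) (K0 : Knot) (K : List Knot) (hKN : KN (K0 :: K))
    (hK0 : K0.z ≤ 256) (c : Cell) (hA : c.A1 < c.A2) (hB : c.B1 < c.B2) (w : Par) (x R : ℝ → ℝ) (A B : ℝ)
    (hin : InC c A B) (hf : Continuous fun s => Ph c.u w (nn A B s) (sin s ^ 2) (x s) (R s))
    (hadv : ∀ s, Adv (nn A B s) (x s) (R s))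
    (kk : ℕ → ℕ → ℕ → ℕ → ℕ → Bool) (l : List ℕ) : ∀ (j s1 s2 s3 s4 : ℕ), j ≤ 64 →
    blk K0 K c w kk l j s1 s2 s3 s4 = true →
    ∃ k t1 t2 t3 t4 : ℕ, kk k t1 t2 t3 t4 = true ∧ j ≤ k ∧ k ≤ 64 ∧
      wt c.A1 c.A2 c.B1 c.B2 A B ((t1 : ℝ) - s1) ((t2 : ℝ) - s2) ((t3 : ℝ) - s3) ((t4 : ℝ) - s4) ≤
        128 / π * (SC * ∫ s in (th j)..(th k), Ph c.u w (nn A B s) (sin s ^ 2) (x s) (R s)) +
          BI * ((k : ℝ) - j) := by
  induction l with
  | nil =>
    intro j s1 s2 s3 s4 hj h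
    refine ⟨j, s1, s2, s3, s4, h, le_rfl, hj, ?_⟩
    simp only [sub_self, intervalIntegral.integral_same, mul_zero, add_zero]
    rw [wt_one _ _ _ _ _ _ _ hA hB]
  | cons k' r ih =>
    intro j s1 s2 s3 s4 hj h
    have h' : ifle k' j false (ifle k' 64 (sector K0 K c.A1 c.A2 c.B1 c.B2 c.u w (getL ⟨0, 0, 0, 0⟩ nodT j)
        (getL ⟨0, 0, 0, 0⟩ nodT k') s1 s2 s3 s4 (fun s1 s2 s3 s4 => blk K0 K c w kk r k' s1 s2 s3 s4)) false) =
        true := h
    rcases ifle_true h' with h1 | ⟨hjk, h2⟩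
    · exact absurd h1.2 (by simp)
    rcases ifle_true h2 with ⟨hk64, h3⟩ | h3
    swap
    · exact absurd h3.2 (by simp)
    have hmem := node_k
    obtain ⟨t1, t2, t3, t4, hk, hAB⟩ := hSCT c.A1 c.A2 c.B1 c.B2 c.u w _ _ s1 s2 s3 s4 _ K0 K hKN hK0 hA hB
      (node_lt hjk hk64) (node_yu k' hk64) (by rw [node_k j hj, node_k k' hk64]; exact hjk) h3
    obtain ⟨k, v1, v2, v3, v4, hkk, hle, hk2, hsum⟩ := ih k' t1 t2 t3 t4 hk64 hk
    refine ⟨k, v1, v2, v3, v4, hkk, by omega, hk2, ?_⟩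
    obtain ⟨a, b, hmin, hη⟩ := hAB A B hin.1 hin.2.1 hin.2.2.1 hin.2.2.2
    have hnn : ∀ s : ℝ, nn A B s = A * (1 - sin s ^ 2) + B * sin s ^ 2 := by
      intro s; unfold nn; rw [cos_sq']
    obtain ⟨η, e1, e2, e3, e4, e5⟩ := sec_int hTRG (fun s => Ph c.u w (nn A B s) (sin s ^ 2) (x s) (R s)) hf
      hjk hk64 _ _ rfl rfl a b (by
        intro s hs1 hs2
        have := hmin (sin s ^ 2) (x s) (R s) hs1 hs2 (by rw [← hnn]; exact hadv s)
        rw [← hnn] at this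
        exact this)
    have hfin := hη η e1 e2 e3 e4
    rw [node_k j hj, node_k k' hk64] at hfin e5
    have hsplit : wt c.A1 c.A2 c.B1 c.B2 A B ((v1 : ℝ) - s1) ((v2 : ℝ) - s2) ((v3 : ℝ) - s3) ((v4 : ℝ) - s4) =
        wt c.A1 c.A2 c.B1 c.B2 A B ((v1 : ℝ) - t1) ((v2 : ℝ) - t2) ((v3 : ℝ) - t3) ((v4 : ℝ) - t4) +
        wt c.A1 c.A2 c.B1 c.B2 A B ((t1 : ℝ) - s1) ((t2 : ℝ) - s2) ((t3 : ℝ) - s3) ((t4 : ℝ) - s4) := by
      rw [← wt_add]; congr 1 <;> ring
    have hint : ∫ s in (th j)..(th k), Ph c.u w (nn A B s) (sin s ^ 2) (x s) (R s) =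
        (∫ s in (th j)..(th k'), Ph c.u w (nn A B s) (sin s ^ 2) (x s) (R s)) +
        ∫ s in (th k')..(th k), Ph c.u w (nn A B s) (sin s ^ 2) (x s) (R s) :=
      (intervalIntegral.integral_add_adjacent_intervals (hf.intervalIntegrable _ _)
        (hf.intervalIntegrable _ _)).symm
    rw [hsplit, hint]
    linarith

/-- All blocks. -/
theorem blks_sound (hSCT : SpecSCT) (hTRG : SpecTRG) (K0 : Knot) (K : List Knot) (hKN : KN (K0 :: K))
    (hK0 : K0.z ≤ 256) (c : Cell) (hA : c.A1 < c.A2) (hB : c.B1 < c.B2) (x R : ℝ → ℝ) (A B : ℝ)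
    (hin : InC c A B)
    (hf : ∀ w : Par, Continuous fun s => Ph c.u w (nn A B s) (sin s ^ 2) (x s) (R s))
    (hadv : ∀ s, Adv (nn A B s) (x s) (R s)) (l : List (List ℕ)) : ∀ (i s1 s2 s3 s4 : ℕ),
    blks K0 K c l i s1 s2 s3 s4 = true → i ≤ 16 ∧
    64 * BI ≤ wt c.A1 c.A2 c.B1 c.B2 A B s1 s2 s3 s4 + ∑ j ∈ Finset.Ico i 16,
      (128 / π * (SC * ∫ s in (th (4 * j))..(th (4 * (j + 1))),
        Ph c.u (wp c j) (nn A B s) (sin s ^ 2) (x s) (R s)) + BI * 4) := by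
  induction l with
  | nil =>
    intro i s1 s2 s3 s4 h
    have h' : (Nat.beq i 16 && Nat.ble 1298074214633706907132624082305024 s1 &&
      Nat.ble 1298074214633706907132624082305024 s2 && Nat.ble 1298074214633706907132624082305024 s3 &&
      Nat.ble 1298074214633706907132624082305024 s4) = true := h
    simp only [Bool.and_eq_true] at h'
    obtain ⟨⟨⟨⟨h0, h1⟩, h2⟩, h3⟩, h4⟩ := h'
    have hi : i = 16 := Nat.eq_of_beq_eq_true h0
    subst hi
    refine ⟨le_rfl, ?_⟩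
    have g1 := Nat.le_of_ble_eq_true h1
    have g2 := Nat.le_of_ble_eq_true h2
    have g3 := Nat.le_of_ble_eq_true h3
    have g4 := Nat.le_of_ble_eq_true h4
    have hBI : 64 * BI = ((1298074214633706907132624082305024 : ℕ) : ℝ) := by
      unfold BI; norm_num
    simp only [Finset.Ico_self, Finset.sum_empty, add_zero]
    rw [hBI]
    calc ((1298074214633706907132624082305024 : ℕ) : ℝ) = wt c.A1 c.A2 c.B1 c.B2 A B
          ((1298074214633706907132624082305024 : ℕ) : ℝ) ((1298074214633706907132624082305024 : ℕ) : ℝ)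
          ((1298074214633706907132624082305024 : ℕ) : ℝ) ((1298074214633706907132624082305024 : ℕ) : ℝ) :=
          (wt_one _ _ _ _ _ _ _ hA hB).symm
      _ ≤ _ := wt_mono _ _ _ _ _ _ _ _ _ _ _ _ _ _ hA hB hin.1 hin.2.1 hin.2.2.1 hin.2.2.2
          (by exact_mod_cast g1) (by exact_mod_cast g2) (by exact_mod_cast g3) (by exact_mod_cast g4)
  | cons y r ih =>
    intro i s1 s2 s3 s4 h
    have h' : fP (ifle i 7 (parL (getL [] c.lam i) 0 0 0) (parM (getL [] c.lam (Nat.sub 15 i)) 0)) (fun w =>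
      blk K0 K c w (fun j s1 s2 s3 s4 => ifle j (Nat.mul 4 (Nat.succ i)) (ifle (Nat.mul 4 (Nat.succ i)) j
        (blks K0 K c r (Nat.succ i) s1 s2 s3 s4) false) false) y (Nat.mul 4 i) s1 s2 s3 s4) = true := h
    rw [fP_eq] at h'
    have hi16 : 4 * i ≤ 64 := by
      by_contra hcon
      -- the block starts beyond the last node
      have key : ∀ (l : List ℕ) (w : Par) (kk : ℕ → ℕ → ℕ → ℕ → ℕ → Bool) (j s1 s2 s3 s4 : ℕ), 64 < j →
          blk K0 K c w kk l j s1 s2 s3 s4 = true → kk j s1 s2 s3 s4 = true ∧ l = [] := by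
        intro l w kk j s1 s2 s3 s4 hj hb
        cases l with
        | nil => exact ⟨hb, rfl⟩
        | cons k' r' =>
          have hb' : ifle k' j false (ifle k' 64 (sector K0 K c.A1 c.A2 c.B1 c.B2 c.u w
            (getL ⟨0, 0, 0, 0⟩ nodT j) (getL ⟨0, 0, 0, 0⟩ nodT k') s1 s2 s3 s4
            (fun s1 s2 s3 s4 => blk K0 K c w kk r' k' s1 s2 s3 s4)) false) = true := hb
          rcases ifle_true hb' with h1 | ⟨h1, h2⟩
          · exact absurd h1.2 (by simp)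
          rcases ifle_true h2 with h3 | h3
          · omega
          · exact absurd h3.2 (by simp)
      have hk := (key _ _ _ _ _ _ _ _ (by simpa using hcon) h').1
      rcases ifle_true hk with ⟨h1, h2⟩ | h1
      · rcases ifle_true h2 with ⟨h3, h4⟩ | h3
        · simp only [Nat.mul_eq] at h3; omega
        · exact absurd h3.2 (by simp)
      · exact absurd h1.2 (by simp)
    obtain ⟨k, t1, t2, t3, t4, hkk, h1, h2, hsum⟩ := blk_sound hSCT hTRG K0 K hKN hK0 c hA hB _ x R A B hin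
      (hf _) hadv _ y (Nat.mul 4 i) s1 s2 s3 s4 (by simpa using hi16) h'
    rcases ifle_true hkk with ⟨h3, h4⟩ | h3
    swap
    · exact absurd h3.2 (by simp)
    rcases ifle_true h4 with ⟨h5, h6⟩ | h5
    swap
    · exact absurd h5.2 (by simp)
    simp only [Nat.mul_eq, Nat.succ_eq_add_one] at h1 h3 h5 h6 hsum
    have hk : k = 4 * (i + 1) := by omega
    subst hk
    obtain ⟨hi, hrec⟩ := ih (i + 1) t1 t2 t3 t4 h6
    refine ⟨by omega, ?_⟩
    rw [Finset.sum_eq_sum_Ico_succ_bot (by omega : i < 16)]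
    have hsplit : wt c.A1 c.A2 c.B1 c.B2 A B (t1 : ℝ) t2 t3 t4 =
        wt c.A1 c.A2 c.B1 c.B2 A B (s1 : ℝ) s2 s3 s4 +
        wt c.A1 c.A2 c.B1 c.B2 A B ((t1 : ℝ) - s1) ((t2 : ℝ) - s2) ((t3 : ℝ) - s3) ((t4 : ℝ) - s4) := by
      rw [← wt_add]; congr 1 <;> ring
    rw [hsplit] at hrec
    have hwp : wp c i = ifle i 7 (parL (getL [] c.lam i) 0 0 0) (parM (getL [] c.lam (Nat.sub 15 i)) 0) := rfl
    rw [← hwp] at hsum
    have e4 : ((4 * (i + 1) : ℕ) : ℝ) - ((4 * i : ℕ) : ℝ) = 4 := by push_cast; ring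
    rw [e4] at hsum
    linarith

end Pool.Agent.Lib.MP_084b88_gt.CT.CELM

namespace Pool.Agent.Lib.MP_084b88_gt.CT

open Pool.Agent.Lib.MP_084b88_gt.CW
open Pool.Agent.Lib.MP_084b88_gt.SY
open Pool.Agent.Lib.MP_084b88_gt.LG
open CELM

/-- Continuity of the integrand. -/
theorem CELM.cont_Ph (hWGC : SpecWGC) (u : Mul) (w : Par) (x R : ℝ → ℝ) (hx : Continuous x) (hR : Continuous R)
    (A B : ℝ) (hz : ∀ s, 0 < nn A B s * x s) :
    Continuous fun s => Ph u w (nn A B s) (sin s ^ 2) (x s) (R s) := by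
  have hn : Continuous fun s => nn A B s := by unfold nn; fun_prop
  have hzc : Continuous fun s => nn A B s * x s := hn.mul hx
  have hGZ : Continuous fun s => GZ (nn A B s * x s) :=
    hWGC.2.1.comp_continuous hzc (fun s => hz s)
  have hWZ : Continuous fun s => WZ (nn A B s * x s) :=
    hWGC.1.comp_continuous hzc (fun s => (hz s).le)
  have hKG : Continuous fun s => KG (nn A B s * x s) := by
    unfold KG
    exact (continuous_const.mul (hGZ.sub continuous_const)).div hzc (fun s => (hz s).ne')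
  have hOM : Continuous fun s => OM (nn A B s * x s) := by
    unfold OM
    exact hWZ.div hzc (fun s => (hz s).ne')
  unfold Ph
  fun_prop

/-- **CEL**. -/
theorem specCEL (hWGC : SpecWGC) (hSCT : SpecSCT) (hKGL : SpecKGL) (hOML : SpecOML) (hTRG : SpecTRG)
    (hBLN : SpecBLN) : SpecCEL := by
  intro c hc x R hL A B hin hz
  have hp := pi_pos
  have hknots : ∃ K0 K, knots = K0 :: K ∧ K0.z ≤ 256 := ⟨_, _, rfl, by decide⟩
  obtain ⟨K0, K, hkn, hK0⟩ := hknots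
  have hchk : chkK K0 K c = true := by
    have : chk c = @List.rec Knot (fun _ => Bool) false (fun K0 K _ => chkK K0 K c) (K0 :: K) := by
      rw [← hkn]; rfl
    rw [this] at hc
    exact hc
  unfold chkK at hchk
  simp only [Bool.and_eq_true] at hchk
  obtain ⟨⟨⟨⟨⟨hA, hB⟩, _⟩, _⟩, _⟩, hb⟩ := hchk
  have hA' : c.A1 < c.A2 := Nat.le_of_ble_eq_true hA
  have hB' : c.B1 < c.B2 := Nat.le_of_ble_eq_true hB
  have hLst : Lst knots := by
    simp only [knots, Lst]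
  have hKN : KN (K0 :: K) := by
    rw [← hkn]; exact ⟨hKGL, hOML, hLst⟩
  obtain ⟨g1, g2, g3⟩ := hBLN x R hL
  have hadv : ∀ s, Adv (nn A B s) (x s) (R s) := fun s =>
    ⟨hL.x1 s, hL.x2 s, (hz s).1, (hz s).2, g1 s, fun p hp h1 h2 => g2 p hp s h1 h2⟩
  have hz0 : ∀ s, 0 < nn A B s * x s := fun s => lt_of_lt_of_le (by norm_num) (hz s).1
  obtain ⟨_, hfin⟩ := blks_sound hSCT hTRG K0 K hKN hK0 c hA' hB' x R A B hin
    (fun w => cont_Ph hWGC c.u w x R hL.cx hL.cR A B hz0) hadv c.nods 0 0 0 0 0 hb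
  have e0 : wt c.A1 c.A2 c.B1 c.B2 A B ((0 : ℕ) : ℝ) ((0 : ℕ) : ℝ) ((0 : ℕ) : ℝ) ((0 : ℕ) : ℝ) = 0 := by
    unfold wt; simp
  rw [e0, Finset.sum_add_distrib, ← Finset.mul_sum, ← Finset.mul_sum] at hfin
  simp only [Finset.sum_const, Nat.card_Ico, Nat.sub_zero, nsmul_eq_mul, Nat.cast_ofNat] at hfin
  have hpos : (0 : ℝ) < 128 / π * SC := by unfold SC; positivity
  have hge : 0 ≤ 128 / π * (SC * ∑ j ∈ Finset.Ico 0 16, ∫ s in (th (4 * j))..(th (4 * (j + 1))),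
      Ph c.u (wp c j) (nn A B s) (sin s ^ 2) (x s) (R s)) := by linarith
  rw [← mul_assoc] at hge
  have h0 := nonneg_of_mul_nonneg_right hge hpos
  rw [← Finset.range_eq_Ico] at h0
  refine le_trans h0 (le_of_eq ?_)
  apply Finset.sum_congr rfl
  intro j _
  congr 1
  · unfold th; push_cast; ring
  · unfold th; push_cast; ring

end Pool.Agent.Lib.MP_084b88_gt.CT
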