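import Pool.Agent.Lib.MP_084b88_gt.LG.Spec

/-!
# MP_084b88_gt, project CT: the checker for CERT (natural numbers only, continuation passing style)

Scales: `ζ` of the knots `2^10`; table values, multipliers, slopes, `y`, `R`-lines and cuts `2^20`; `A, B` `2^6`; vertices
`n` `2^26`; intercepts of the lines `2^30`, intercept of the `γ`-line with the bias `2^50`. Sector values are multiplied by
`24 * 12288 * 2^76` and have the bias `2^104`.
-/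

set_option autoImplicit false

namespace Pool.Agent.Lib.MP_084b88_gt.CT

/-- A knot: `ζ·2^10`, `γ·2^20 + 16`, `ω₋·2^20`, `ω₊·2^20`. -/
structure Knot where
  z : Nat
  g : Nat
  wl : Nat
  wu : Nat

/-- Force the evaluation of a natural number (for the kernel). -/
noncomputable def fN {α : Type} (a : Nat) (k : Nat → α) : α :=
  @Nat.rec (fun _ => α) (k 0) (fun m _ => k (Nat.succ m)) a

/-- `if a ≤ b then x else y`. -/
noncomputable def ifle {α : Type} (a b : Nat) (x y : α) : α :=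
  @Bool.rec (fun _ => α) y x (Nat.ble a b)

/-- Drop the knots before the segment of `za` (scale `2^30`). -/
noncomputable def drp {α : Type} (za : Nat) (cont : Knot → List Knot → α) (l : List Knot) : Knot → α :=
  @List.rec Knot (fun _ => Knot → α) (fun k0 => cont k0 [])
    (fun k1 r ih k0 => ifle (Nat.mul k1.z 1048576) za (ih k1) (cont k0 (List.cons k1 r))) l

/-- The first knot `≥ zb` of the list, or the last one. -/
noncomputable def fst {α : Type} (zb : Nat) (cont : Knot → α) (l : List Knot) : Knot → α :=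
  @List.rec Knot (fun _ => Knot → α) (fun k0 => cont k0)
    (fun k1 _ ih _ => ifle zb (Nat.mul k1.z 1048576) (cont k1) (ih k1)) l

/-- Scan the knots up to the first one `≥ zl`. `a`: min of `2^50 + 1024 g + (gn - gp) z`, `b`: min of `1024 wl + w z`,
`c`: max of `1024 wu + w z`. -/
noncomputable def scan {α : Type} (zl gp gn w : Nat) (cont : Nat → Nat → Nat → α) (l : List Knot) :
    Nat → Nat → Nat → α :=
  @List.rec Knot (fun _ => Nat → Nat → Nat → α) (fun a b c => cont a b c)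
    (fun x _ ih a b c =>
      fN (Nat.sub (Nat.add (Nat.add 1125899906842624 (Nat.mul x.g 1024)) (Nat.mul gn x.z)) (Nat.mul gp x.z)) fun g =>
      fN (Nat.mul w x.z) fun wz =>
      fN (Nat.add (Nat.mul x.wl 1024) wz) fun wl =>
      fN (Nat.add (Nat.mul x.wu 1024) wz) fun wu =>
      fN (ifle a g a g) fun a => fN (ifle b wl b wl) fun b => fN (ifle c wu wu c) fun c =>
      ifle zl x.z (cont a b c) (ih a b c)) l

/-- Constants of a piece `v ∈ [a/16, (a+1)/16]`: `R ≤ (rh0 - rh1 v)/2^20`; `t1j, t2j, t3j`: Bernstein coefficients of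
`v, v², v³`, times `12288`. -/
structure Pc where
  a : Nat
  br : Nat
  rh0 : Nat
  rh1 : Nat
  t10 : Nat
  t11 : Nat
  t12 : Nat
  t13 : Nat
  t20 : Nat
  t21 : Nat
  t22 : Nat
  t23 : Nat
  t30 : Nat
  t31 : Nat
  t32 : Nat
  t33 : Nat

/-- The pieces. -/
def pcs : List Pc :=
  [
   ⟨8, 0, 29438, 29954, 6144, 6400, 6656, 6912, 3072, 3328, 3600, 3888, 1536, 1728, 1944, 2187⟩,
   ⟨9, 0, 36149, 41419, 6912, 7168, 7424, 7680, 3888, 4176, 4480, 4800, 2187, 2430, 2700, 3000⟩,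
   ⟨10, 0, 36149, 41419, 7680, 7936, 8192, 8448, 4800, 5120, 5456, 5808, 3000, 3300, 3630, 3993⟩,
   ⟨11, 1, 50619, 62425, 8448, 8704, 8960, 9216, 5808, 6160, 6528, 6912, 3993, 4356, 4752, 5184⟩,
   ⟨12, 1, 50619, 62425, 9216, 9472, 9728, 9984, 6912, 7296, 7696, 8112, 5184, 5616, 6084, 6591⟩,
   ⟨13, 2, 78617, 96574, 9984, 10240, 10496, 10752, 8112, 8528, 8960, 9408, 6591, 7098, 7644, 8232⟩,
   ⟨14, 2, 78617, 96574, 10752, 11008, 11264, 11520, 9408, 9856, 10320, 10800, 8232, 8820, 9450, 10125⟩,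
   ⟨15, 2, 128739, 150506, 11520, 11776, 12032, 12288, 10800, 11280, 11776, 12288, 10125, 10800, 11520, 12288⟩]

/-- Vertices `(n1, yl), (n2, yl), (n3, yu), (n4, yu)`. -/
structure Vx where
  n1 : Nat
  n2 : Nat
  n3 : Nat
  n4 : Nat
  yl : Nat
  yu : Nat

/-- Multipliers of a cell. -/
structure Mul where
  c1 : Nat
  e1 : Nat
  c : Nat
  e : Nat

/-- Pair terms `(Kp - Kn) + (M - l) v`; `Kp, Kn` fully scaled, `Kp` with the bias, `M` scale `2^40`, `l` `2^20`. -/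
structure Par where
  Kp : Nat
  Kn : Nat
  M : Nat
  l : Nat

/-- `min m (ap + n bp + y dp - (an + n bn + y dn))`. -/
noncomputable def cf (ap an bp bn dp dn n y m : Nat) : Nat :=
  fN (Nat.sub (Nat.add ap (Nat.add (Nat.mul n bp) (Nat.mul y dp)))
    (Nat.add an (Nat.add (Nat.mul n bn) (Nat.mul y dn)))) fun x => ifle m x m x

/-- One Bernstein coefficient of one branch. -/
noncomputable def bc {α : Type} (Q1p Q1n Q2p Q2n Kp Kn gp gn oo2 oo3 Y2 Y3 t1 t2 t3 : Nat) (v : Vx)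
    (m1 m2 m3 m4 : Nat) (k : Nat → Nat → Nat → Nat → α) : α :=
  fN (Nat.add Kp (Nat.mul (Nat.add (Nat.mul Q1p t1) (Nat.mul Q2p t2)) 67108864)) fun ap =>
  fN (Nat.add Kn (Nat.mul (Nat.add (Nat.mul Q1n t1) (Nat.mul Q2n t2)) 67108864)) fun an =>
  fN (Nat.add (Nat.mul gp t2) (Nat.mul oo3 t3)) fun bp =>
  fN (Nat.mul (Nat.add gn oo2) t2) fun bn =>
  fN (Nat.mul Y2 t2) fun dp => fN (Nat.mul Y3 t3) fun dn =>
  fN (cf ap an bp bn dp dn v.n1 v.yl m1) fun m1 => fN (cf ap an bp bn dp dn v.n2 v.yl m2) fun m2 =>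
  fN (cf ap an bp bn dp dn v.n3 v.yu m3) fun m3 => fN (cf ap an bp bn dp dn v.n4 v.yu m4) fun m4 =>
  k m1 m2 m3 m4

/-- One branch: lines `g` (`g0` biased, slope `gp - gn`), `ω` (`o0 - o1 z`), `R` (`r0 - r1 v`). -/
noncomputable def brn {α : Type} (p : Pc) (g0 gp gn o0 o1 r0 r1 : Nat) (u : Mul) (w : Par) (v : Vx)
    (m1 m2 m3 m4 : Nat) (k : Nat → Nat → Nat → Nat → α) : α :=
  fN (Nat.add 3145728 (Nat.mul 24 r0)) fun s0 => fN (Nat.add 4194304 (Nat.mul 24 r1)) fun s1 =>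
  fN (Nat.add (Nat.mul g0 25165824) (Nat.add (Nat.mul o0 s0) (Nat.mul 24576 w.M))) fun Q1p =>
  fN (Nat.add 28334198897630188142592 (Nat.add (Nat.mul 3221225472 u.c1)
    (Nat.mul 24576 (Nat.add (Nat.mul u.c r0) (Nat.mul 1048576 w.l))))) fun Q1n =>
  fN (Nat.add (Nat.mul 4294967296 u.c1) (Nat.mul 24576 (Nat.mul u.c r1))) fun Q2p =>
  fN (Nat.mul o0 s1) fun Q2n =>
  fN (Nat.mul gp 25769803776) fun gp => fN (Nat.mul gn 25769803776) fun gn =>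
  fN (Nat.mul 1024 (Nat.mul o1 s0)) fun oo2 => fN (Nat.mul 1024 (Nat.mul o1 s1)) fun oo3 =>
  fN (Nat.mul 65536 (Nat.add (Nat.mul 3145728 u.e1) (Nat.mul 24 (Nat.mul u.e r0)))) fun Y2 =>
  fN (Nat.mul 65536 (Nat.add (Nat.mul 4194304 u.e1) (Nat.mul 24 (Nat.mul u.e r1)))) fun Y3 =>
  bc Q1p Q1n Q2p Q2n w.Kp w.Kn gp gn oo2 oo3 Y2 Y3 p.t10 p.t20 p.t30 v m1 m2 m3 m4 fun m1 m2 m3 m4 =>
  bc Q1p Q1n Q2p Q2n w.Kp w.Kn gp gn oo2 oo3 Y2 Y3 p.t11 p.t21 p.t31 v m1 m2 m3 m4 fun m1 m2 m3 m4 =>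
  bc Q1p Q1n Q2p Q2n w.Kp w.Kn gp gn oo2 oo3 Y2 Y3 p.t12 p.t22 p.t32 v m1 m2 m3 m4 fun m1 m2 m3 m4 =>
  bc Q1p Q1n Q2p Q2n w.Kp w.Kn gp gn oo2 oo3 Y2 Y3 p.t13 p.t23 p.t33 v m1 m2 m3 m4 k

/-- The two branches in `R`. -/
noncomputable def br2 {α : Type} (p : Pc) (g0 gp gn o0 o1 : Nat) (u : Mul) (w : Par) (v : Vx)
    (m1 m2 m3 m4 : Nat) (k : Nat → Nat → Nat → Nat → α) : α :=
  brn p g0 gp gn o0 o1 51416 74235 u w v m1 m2 m3 m4 fun m1 m2 m3 m4 =>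
  brn p g0 gp gn o0 o1 p.rh0 p.rh1 u w v m1 m2 m3 m4 k

/-- The branches in `ω`: `br = 0` lower, `br = 1` both, `br = 2` upper. -/
noncomputable def br4 {α : Type} (p : Pc) (g0 gp gn w0 u0 o1 : Nat) (u : Mul) (w : Par) (v : Vx)
    (m1 m2 m3 m4 : Nat) (k : Nat → Nat → Nat → Nat → α) : α :=
  @Nat.rec (fun _ => α) (br2 p g0 gp gn w0 o1 u w v m1 m2 m3 m4 k)
    (fun b _ => @Nat.rec (fun _ => α)
      (br2 p g0 gp gn w0 o1 u w v m1 m2 m3 m4 fun m1 m2 m3 m4 => br2 p g0 gp gn u0 o1 u w v m1 m2 m3 m4 k)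
      (fun _ _ => br2 p g0 gp gn u0 o1 u w v m1 m2 m3 m4 k) b) p.br

/-- One piece; `k0 :: l` the knots, `zb` the upper end of the range. -/
noncomputable def piece {α : Type} (zb : Nat) (p : Pc) (u : Mul) (w : Par) (v : Vx) (k0 : Knot) (l : List Knot)
    (m1 m2 m3 m4 : Nat) (k : Nat → Nat → Nat → Nat → α) : α :=
  ifle (Nat.mul k0.z 1048576) zb
    (@List.rec Knot (fun _ => α) (k m1 m2 m3 m4)
      (fun k1 _ _ => fst zb (fun kl =>
        fN (Nat.sub kl.z k0.z) fun dz =>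
        fN (Nat.div (Nat.mul (Nat.sub kl.g k0.g) 1024) dz) fun gp =>
        fN (Nat.div (Nat.mul (Nat.sub k0.g kl.g) 1024) dz) fun gn =>
        fN (Nat.div (Nat.mul (Nat.sub k0.wu kl.wu) 1024) dz) fun o1 =>
        scan kl.z gp gn o1 (fun a b c => ifle 1 a (br4 p a gp gn b c o1 u w v m1 m2 m3 m4 k) (k 0 0 0 0)) l
          (Nat.sub (Nat.add (Nat.add 1125899906842624 (Nat.mul k0.g 1024)) (Nat.mul gn k0.z)) (Nat.mul gp k0.z))
          (Nat.add (Nat.mul k0.wl 1024) (Nat.mul o1 k0.z))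
          (Nat.add (Nat.mul k0.wu 1024) (Nat.mul o1 k0.z))) l k1) l)
    (k m1 m2 m3 m4)

/-- All pieces. -/
noncomputable def pieces {α : Type} (nmin nmax : Nat) (u : Mul) (w : Par) (v : Vx)
    (k : Nat → Nat → Nat → Nat → α) (ps : List Pc) :
    Knot → List Knot → Nat → Nat → Nat → Nat → α :=
  @List.rec Pc (fun _ => Knot → List Knot → Nat → Nat → Nat → Nat → α) (fun _ _ m1 m2 m3 m4 => k m1 m2 m3 m4)
    (fun p _ ih k0 l m1 m2 m3 m4 =>
      fN (Nat.mul nmin p.a) fun za => fN (Nat.mul nmax (Nat.succ p.a)) fun zb =>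
      drp za (fun k0 l => piece zb p u w v k0 l m1 m2 m3 m4 fun m1 m2 m3 m4 => ih k0 l m1 m2 m3 m4) l k0) ps

/-- Contribution of a sector at one corner `(A, B)`. -/
noncomputable def contr (dk e0 e1 yl yu ml mu s : Nat) : Nat :=
  fN (ifle ml mu
    (Nat.sub (Nat.add (Nat.mul (Nat.mul yu dk) ml) (Nat.mul e0 (Nat.sub mu ml))) (Nat.mul (Nat.mul yl dk) mu))
    (Nat.sub (Nat.mul (Nat.mul yu dk) ml) (Nat.add (Nat.mul e1 (Nat.sub ml mu)) (Nat.mul (Nat.mul yl dk) mu))))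
    fun x => Nat.add s (Nat.div x (Nat.sub yu yl))

/-- A node: `yl ≤ 2^20 sin²(kπ/128) ≤ yu`, `sg ≤ 2^20 (32/π) sin(kπ/64) ≤ sg + 1`. -/
structure Nod where
  k : Nat
  yl : Nat
  yu : Nat
  sg : Nat

/-- One sector between the nodes `x`, `x'`. -/
noncomputable def sector (K0 : Knot) (K : List Knot) (A1 A2 B1 B2 : Nat) (u : Mul) (w : Par)
    (x x' : Nod) (s1 s2 s3 s4 : Nat) (k : Nat → Nat → Nat → Nat → Bool) : Bool :=
  fN x.yl fun yl => fN x'.yu fun yu =>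
  fN (Nat.add (Nat.mul A1 (Nat.sub 1048576 yl)) (Nat.mul B1 yl)) fun n1 =>
  fN (Nat.add (Nat.mul A2 (Nat.sub 1048576 yl)) (Nat.mul B2 yl)) fun n2 =>
  fN (Nat.add (Nat.mul A1 (Nat.sub 1048576 yu)) (Nat.mul B1 yu)) fun n3 =>
  fN (Nat.add (Nat.mul A2 (Nat.sub 1048576 yu)) (Nat.mul B2 yu)) fun n4 =>
  fN (ifle n1 n3 n1 n3) fun nmin => fN (ifle n2 n4 n4 n2) fun nmax =>
  fN (Nat.sub x'.k x.k) fun dk =>
  fN (Nat.sub (Nat.add (Nat.mul dk 524288) x.sg) (Nat.add x'.sg 1)) fun e0 =>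
  fN (Nat.sub (Nat.add (Nat.mul dk 524288) (Nat.add x.sg 1)) x'.sg) fun e1 =>
  pieces nmin nmax u w ⟨n1, n2, n3, n4, yl, yu⟩ (fun m1 m2 m3 m4 =>
    ifle 1 m1 (ifle 1 m2 (ifle 1 m3 (ifle 1 m4
      (fN (Nat.sub n2 n1) fun Dl => fN (Nat.sub n4 n3) fun Du =>
      fN (Nat.mul (Nat.sub B2 B1) yl) fun tl => fN (Nat.mul (Nat.sub B2 B1) yu) fun tu =>
      fN (contr dk e0 e1 yl yu m1 m3 s1) fun s1 =>
      fN (contr dk e0 e1 yl yu
        (Nat.div (Nat.add (Nat.mul (Nat.sub Dl tl) m1) (Nat.mul tl m2)) Dl)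
        (Nat.div (Nat.add (Nat.mul (Nat.sub Du tu) m3) (Nat.mul tu m4)) Du) s2) fun s2 =>
      fN (contr dk e0 e1 yl yu
        (Nat.div (Nat.add (Nat.mul tl m1) (Nat.mul (Nat.sub Dl tl) m2)) Dl)
        (Nat.div (Nat.add (Nat.mul tu m3) (Nat.mul (Nat.sub Du tu) m4)) Du) s3) fun s3 =>
      fN (contr dk e0 e1 yl yu m2 m4 s4) fun s4 => k s1 s2 s3 s4)
      false) false) false) false) pcs K0 K
    81129638414606681695789005144064 81129638414606681695789005144064 81129638414606681695789005144064 81129638414606681695789005144064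

/-- The node table. -/
def nodT : List Nod :=
  [
   ⟨0, 0, 0, 0⟩, ⟨1, 631, 632, 524077⟩, ⟨2, 2524, 2525, 1046892⟩, ⟨3, 5674, 5675, 1567185⟩,
   ⟨4, 10074, 10075, 2083702⟩, ⟨5, 15712, 15713, 2595200⟩, ⟨6, 22575, 22576, 3100445⟩, ⟨7, 30647, 30648, 3598221⟩,
   ⟨8, 39909, 39910, 4087329⟩, ⟨9, 50337, 50338, 4566590⟩, ⟨10, 61907, 61908, 5034850⟩, ⟨11, 74591, 74592, 5490981⟩,
   ⟨12, 88358, 88359, 5933883⟩, ⟨13, 103175, 103176, 6362489⟩, ⟨14, 119007, 119008, 6775769⟩, ⟨15, 135816, 135817, 7172724⟩,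
   ⟨16, 153560, 153561, 7552400⟩, ⟨17, 172197, 172198, 7913882⟩, ⟨18, 191683, 191684, 8256298⟩, ⟨19, 211970, 211971, 8578824⟩,
   ⟨20, 233009, 233010, 8880683⟩, ⟨21, 254750, 254751, 9161148⟩, ⟨22, 277140, 277141, 9419543⟩, ⟨23, 300125, 300126, 9655245⟩,
   ⟨24, 323651, 323652, 9867686⟩, ⟨25, 347660, 347661, 10056356⟩, ⟨26, 372095, 372096, 10220799⟩, ⟨27, 396896, 396897, 10360620⟩,
   ⟨28, 422004, 422005, 10475480⟩, ⟨29, 447358, 447359, 10565104⟩, ⟨30, 472898, 472899, 10629276⟩, ⟨31, 498562, 498563, 10667842⟩,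
   ⟨32, 524288, 524288, 10680707⟩, ⟨33, 550013, 550014, 10667842⟩, ⟨34, 575677, 575678, 10629276⟩, ⟨35, 601217, 601218, 10565104⟩,
   ⟨36, 626571, 626572, 10475480⟩, ⟨37, 651679, 651680, 10360620⟩, ⟨38, 676480, 676481, 10220799⟩, ⟨39, 700915, 700916, 10056356⟩,
   ⟨40, 724924, 724925, 9867686⟩, ⟨41, 748450, 748451, 9655245⟩, ⟨42, 771435, 771436, 9419543⟩, ⟨43, 793825, 793826, 9161148⟩,
   ⟨44, 815566, 815567, 8880683⟩, ⟨45, 836605, 836606, 8578824⟩, ⟨46, 856892, 856893, 8256298⟩, ⟨47, 876378, 876379, 7913882⟩,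
   ⟨48, 895015, 895016, 7552400⟩, ⟨49, 912759, 912760, 7172724⟩, ⟨50, 929568, 929569, 6775769⟩, ⟨51, 945400, 945401, 6362489⟩,
   ⟨52, 960217, 960218, 5933883⟩, ⟨53, 973984, 973985, 5490981⟩, ⟨54, 986668, 986669, 5034850⟩, ⟨55, 998238, 998239, 4566590⟩,
   ⟨56, 1008666, 1008667, 4087329⟩, ⟨57, 1017928, 1017929, 3598221⟩, ⟨58, 1026000, 1026001, 3100445⟩, ⟨59, 1032863, 1032864, 2595200⟩,
   ⟨60, 1038501, 1038502, 2083702⟩, ⟨61, 1042901, 1042902, 1567185⟩, ⟨62, 1046051, 1046052, 1046892⟩, ⟨63, 1047944, 1047945, 524077⟩,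
   ⟨64, 1048576, 1048576, 0⟩]

/-- Lookup in a list. -/
noncomputable def getL {β : Type} (d : β) (l : List β) : Nat → β :=
  @List.rec β (fun _ => Nat → β) (fun _ => d) (fun x _ ih n => @Nat.rec (fun _ => β) x (fun m _ => ih m) n) l

/-- A cut: `x(s+π/2) ≥ m x(s) + kp - kn`. -/
structure Cut where
  m : Nat
  kp : Nat
  kn : Nat

/-- The cuts. -/
def cutT : List Cut :=
  [
   ⟨4194304, 0, 3145728⟩, ⟨3282043, 0, 2247414⟩, ⟨2936013, 0, 1915225⟩,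
   ⟨2338324, 0, 1353922⟩, ⟨2065695, 0, 1105095⟩, ⟨1583350, 0, 677276⟩,
   ⟨1426063, 0, 541590⟩, ⟨912261, 0, 121845⟩, ⟨754975, 314, 0⟩]

/-- `K = Σ λ k`, `M = Σ λ m` for the list `(index, λ)`. -/
noncomputable def parL (l : List (Nat × Nat)) : Nat → Nat → Nat → Par :=
  @List.rec (Nat × Nat) (fun _ => Nat → Nat → Nat → Par)
    (fun a b c => ⟨Nat.add 20282409603651670423947251286016 (Nat.mul 20266198323167232 a), Nat.mul 20266198323167232 b, c, 0⟩)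
    (fun x _ ih a b c => ih (Nat.add a (Nat.mul x.2 (getL ⟨0, 0, 0⟩ cutT x.1).kp))
      (Nat.add b (Nat.mul x.2 (getL ⟨0, 0, 0⟩ cutT x.1).kn)) (Nat.add c (Nat.mul x.2 (getL ⟨0, 0, 0⟩ cutT x.1).m))) l

/-- `l = Σ λ` over the list of the mirror interval. -/
noncomputable def parM (l : List (Nat × Nat)) : Nat → Par :=
  @List.rec (Nat × Nat) (fun _ => Nat → Par) (fun a => ⟨20282409603651670423947251286016, 0, 0, a⟩)
    (fun x _ ih a => ih (Nat.add a x.2)) l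

/-- Data of a cell. `lam`: 8 lists; `nods`: 16 lists, nodes `≠ 4i` of the block `[4i, 4i+4]`, ending with `4i+4`. -/
structure Cell where
  A1 : Nat
  A2 : Nat
  B1 : Nat
  B2 : Nat
  u : Mul
  lam : List (List (Nat × Nat))
  nods : List (List Nat)

/-- Force a `Par`. -/
noncomputable def fP {α : Type} (w : Par) (k : Par → α) : α :=
  fN w.Kp fun a => fN w.Kn fun b => fN w.M fun c => fN w.l fun d => k ⟨a, b, c, d⟩

/-- The sectors of a block. -/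
noncomputable def blk (K0 : Knot) (K : List Knot) (c : Cell) (w : Par)
    (k : Nat → Nat → Nat → Nat → Nat → Bool) (l : List Nat) : Nat → Nat → Nat → Nat → Nat → Bool :=
  @List.rec Nat (fun _ => Nat → Nat → Nat → Nat → Nat → Bool) k
    (fun x' _ ih x s1 s2 s3 s4 => ifle x' x false (ifle x' 64
      (sector K0 K c.A1 c.A2 c.B1 c.B2 c.u w (getL ⟨0, 0, 0, 0⟩ nodT x) (getL ⟨0, 0, 0, 0⟩ nodT x') s1 s2 s3 s4
        (fun s1 s2 s3 s4 => ih x' s1 s2 s3 s4)) false)) l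

/-- All blocks; `i` the index of the block, `r = 16 - i` the number of remaining blocks. -/
noncomputable def blks (K0 : Knot) (K : List Knot) (c : Cell) (l : List (List Nat)) :
    Nat → Nat → Nat → Nat → Nat → Bool :=
  @List.rec (List Nat) (fun _ => Nat → Nat → Nat → Nat → Nat → Bool)
    (fun i s1 s2 s3 s4 => Nat.beq i 16 && Nat.ble 1298074214633706907132624082305024 s1 && Nat.ble 1298074214633706907132624082305024 s2 && Nat.ble 1298074214633706907132624082305024 s3 &&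
      Nat.ble 1298074214633706907132624082305024 s4)
    (fun x _ ih i s1 s2 s3 s4 =>
      fP (ifle i 7 (parL (getL [] c.lam i) 0 0 0) (parM (getL [] c.lam (Nat.sub 15 i)) 0)) fun w =>
      blk K0 K c w (fun j s1 s2 s3 s4 => ifle j (Nat.mul 4 (Nat.succ i)) (ifle (Nat.mul 4 (Nat.succ i)) j
        (ih (Nat.succ i) s1 s2 s3 s4) false) false) x (Nat.mul 4 i) s1 s2 s3 s4) l

/-- The check of a cell, knots `K0 :: K`. -/
noncomputable def chkK (K0 : Knot) (K : List Knot) (c : Cell) : Bool :=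
  Nat.ble (Nat.succ c.A1) c.A2 && Nat.ble (Nat.succ c.B1) c.B2 && Nat.ble 1 c.A1 &&
  Nat.ble (Nat.mul 5 c.u.e1) (Nat.mul 4 c.u.c1) && Nat.ble (Nat.mul 5 c.u.e) (Nat.mul 4 c.u.c) &&
  blks K0 K c c.nods 0 0 0 0 0

/-- The knots. -/
def knots : List Knot :=
  [
   ⟨256, 140299, 1245184, 1245184⟩, ⟨265, 127364, 1242880, 1242880⟩, ⟨274, 115833, 1240576, 1240576⟩, ⟨283, 105494, 1238272, 1238272⟩,
   ⟨293, 95230, 1235712, 1235712⟩, ⟨303, 86113, 1233152, 1233152⟩, ⟨314, 77203, 1230336, 1230336⟩, ⟨325, 69340, 1227520, 1227520⟩,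
   ⟨337, 61758, 1224448, 1224448⟩, ⟨349, 55104, 1221376, 1221376⟩, ⟨362, 48763, 1218048, 1218048⟩, ⟨375, 43226, 1214720, 1214720⟩,
   ⟨389, 38004, 1211136, 1211136⟩, ⟨403, 33466, 1207552, 1207552⟩, ⟨418, 29227, 1203712, 1203712⟩, ⟨433, 25560, 1199872, 1199872⟩,
   ⟨448, 22370, 1196032, 1196032⟩, ⟨463, 19590, 1192192, 1192192⟩, ⟨477, 17319, 1188608, 1188608⟩, ⟨491, 15310, 1185024, 1185024⟩,
   ⟨504, 13658, 1181696, 1181696⟩, ⟨515, 12403, 1178880, 1178880⟩, ⟨524, 11461, 1176576, 1176576⟩, ⟨534, 10491, 1174016, 1174016⟩,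
   ⟨544, 9602, 1171456, 1171456⟩, ⟨555, 8707, 1168640, 1168640⟩, ⟨566, 7894, 1165824, 1165824⟩, ⟨578, 7088, 1162752, 1162752⟩,
   ⟨590, 6362, 1159680, 1159680⟩, ⟨603, 5653, 1156352, 1156352⟩, ⟨617, 4972, 1152768, 1152768⟩, ⟨632, 4326, 1148928, 1148928⟩,
   ⟨648, 3722, 1144832, 1144832⟩, ⟨665, 3164, 1140480, 1140480⟩, ⟨683, 2655, 1135872, 1135872⟩, ⟨702, 2196, 1131008, 1131008⟩,
   ⟨723, 1770, 1125632, 1125632⟩, ⟨746, 1384, 1119744, 1119744⟩, ⟨771, 1046, 1113344, 1113344⟩, ⟨799, 749, 1106176, 1106176⟩,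
   ⟨830, 501, 1098240, 1098240⟩, ⟨865, 301, 1089280, 1089280⟩, ⟨905, 150, 1079040, 1079040⟩, ⟨952, 51, 1067008, 1067008⟩,
   ⟨1009, 7, 1052416, 1052416⟩, ⟨1081, 26, 1033984, 1033984⟩, ⟨1177, 122, 1009408, 1009408⟩, ⟨1318, 331, 973312, 973312⟩,
   ⟨1476, 614, 932864, 932864⟩, ⟨1653, 1012, 887552, 887552⟩, ⟨1801, 1431, 849664, 849664⟩, ⟨1937, 1899, 814848, 814848⟩,
   ⟨2068, 2434, 781312, 781312⟩, ⟨2198, 3049, 748032, 748032⟩, ⟨2331, 3760, 713984, 713984⟩, ⟨2471, 4590, 678144, 678144⟩,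
   ⟨2532, 4982, 662528, 662528⟩, ⟨2560, 5164, 655257, 655360⟩, ⟨2625, 5576, 639029, 639133⟩, ⟨2692, 5980, 623122, 623225⟩,
   ⟨2762, 6383, 607326, 607430⟩, ⟨2835, 6782, 591685, 591789⟩, ⟨2910, 7170, 576436, 576537⟩, ⟨2988, 7553, 561383, 561487⟩,
   ⟨3070, 7934, 546386, 546490⟩, ⟨3155, 8306, 531663, 531766⟩, ⟨3244, 8674, 517074, 517177⟩, ⟨3336, 9031, 502813, 502915⟩,
   ⟨3432, 9381, 488744, 488847⟩, ⟨3533, 9725, 474769, 474872⟩, ⟨3638, 10060, 461064, 461166⟩, ⟨3748, 10387, 447529, 447632⟩,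
   ⟨3863, 10705, 434203, 434306⟩, ⟨3983, 11012, 421119, 421221⟩, ⟨4109, 11311, 408202, 408305⟩, ⟨4241, 11599, 395494, 395596⟩,
   ⟨4379, 11876, 383027, 383129⟩, ⟨4524, 12143, 370748, 370850⟩, ⟨4676, 12398, 358693, 358795⟩, ⟨4836, 12642, 346822, 346924⟩,
   ⟨5004, 12874, 335175, 335277⟩, ⟨5181, 13093, 323721, 323822⟩, ⟨5367, 13300, 312498, 312600⟩, ⟨5564, 13495, 301430, 301532⟩,
   ⟨5772, 13677, 290564, 290666⟩, ⟨5991, 13845, 279940, 280041⟩, ⟨6223, 13999, 269499, 269601⟩, ⟨6468, 14138, 259288, 259389⟩,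
   ⟨6728, 14264, 249264, 249365⟩, ⟨7004, 14375, 239437, 239538⟩, ⟨7297, 14471, 229819, 229920⟩, ⟨7609, 14552, 220392, 220492⟩,
   ⟨7941, 14617, 211173, 211274⟩, ⟨8295, 14666, 202157, 202257⟩, ⟨8673, 14700, 193342, 193442⟩, ⟨9077, 14717, 184733, 184833⟩,
   ⟨9509, 14717, 176336, 176436⟩, ⟨9973, 14701, 168127, 168227⟩, ⟨10471, 14668, 160127, 160226⟩, ⟨11007, 14618, 152324, 152424⟩,
   ⟨11584, 14550, 144732, 144831⟩, ⟨12207, 14465, 137341, 137440⟩, ⟨12881, 14363, 130150, 130248⟩, ⟨13612, 14242, 123155, 123254⟩,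
   ⟨14406, 14104, 116362, 116460⟩, ⟨15271, 13947, 109766, 109864⟩, ⟨16215, 13773, 103370, 103468⟩, ⟨17247, 13580, 97179, 97277⟩,
   ⟨18380, 13369, 91183, 91280⟩, ⟨19626, 13140, 85388, 85485⟩, ⟨21001, 12893, 79791, 79888⟩, ⟨22523, 12627, 74393, 74490⟩,
   ⟨24213, 12344, 69195, 69291⟩, ⟨26097, 12044, 64193, 64288⟩, ⟨28205, 11725, 59388, 59484⟩, ⟨30573, 11390, 54782, 54876⟩,
   ⟨33246, 11037, 50370, 50464⟩, ⟨36277, 10668, 46154, 46248⟩, ⟨39732, 10282, 42133, 42226⟩, ⟨43692, 9881, 38306, 38399⟩,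
   ⟨48258, 9465, 34674, 34766⟩, ⟨53559, 9034, 31234, 31325⟩, ⟨59757, 8590, 27985, 28076⟩, ⟨66928, 8142, 24981, 25068⟩,
   ⟨74959, 7706, 22304, 22382⟩, ⟨83954, 7284, 19914, 19984⟩, ⟨94028, 6876, 17781, 17843⟩, ⟨105311, 6484, 15875, 15932⟩,
   ⟨117948, 6107, 14174, 14225⟩, ⟨132102, 5746, 12656, 12701⟩, ⟨147954, 5400, 11299, 11340⟩, ⟨165708, 5071, 10089, 10125⟩,
   ⟨185593, 4758, 9008, 9040⟩, ⟨207864, 4461, 8042, 8072⟩, ⟨209920, 4442, 7971, 7993⟩]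

/-- The check of a cell. -/
noncomputable def chk (c : Cell) : Bool :=
  @List.rec Knot (fun _ => Bool) false (fun K0 K _ => chkK K0 K c) knots

end Pool.Agent.Lib.MP_084b88_gt.CT
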