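import Pool.Agent.Lib.MP_084b88_gt.CT.Spec

/-!
# MP_084b88_gt, project CT: module KGL

The chords of the table of `γ` are below `K_Γ`: positivity of 134 polynomials of degree 9 on small intervals; the transformed
polynomial `(1+s)^9 P((a+bs)/(1+s))` has nonnegative integer coefficients (kernel computation).
-/

set_option autoImplicit false
open MeasureTheory Set Real
open Pool.Agent.Lib.MP_084b88_gt.CW
open Pool.Agent.Lib.MP_084b88_gt.SY
open Pool.Agent.Lib.MP_084b88_gt.LG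
namespace Pool.Agent.Lib.MP_084b88_gt.CT.KGLM

def ad : List ℤ → List ℤ → List ℤ
  | [], m => m
  | a :: l, m => match m with
    | [] => a :: l
    | b :: m => (a + b) :: ad l m

def sc (c : ℤ) : List ℤ → List ℤ
  | [] => []
  | a :: l => (c * a) :: sc c l

def ml : List ℤ → List ℤ → List ℤ
  | [], _ => []
  | a :: l, m => ad (sc a m) (0 :: ml l m)

def pw : ℕ → List ℤ
  | 0 => [1]
  | n + 1 => ad (pw n) (0 :: pw n)

def TT (a b : ℤ) : List ℤ → List ℤ
  | [] => []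
  | c :: l => ad (sc c (pw l.length)) (ml [a, b] (TT a b l))

def pos : List ℤ → Bool
  | [] => true
  | a :: l => decide (0 ≤ a) && pos l

/-- polynomial -/
def QA (N al be rho : ℤ) : List ℤ := [N, 0, rho * al * 2 ^ 34, 0, rho * be]
def QB (N M al be rho : ℤ) : List ℤ := [N, 0, rho * al * 2 ^ 34 - M * 5 * 2 ^ 44, 0, rho * be + M]
def QC (N al be rho : ℤ) : List ℤ := [-(9 * (N / 16)), 0, rho * al * 2 ^ 34, 0, rho * be]

def PL (N : ℤ) (A B : List ℤ) : List ℤ :=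
  ad (sc (10 ^ 10 * N * N) [2 ^ 44, 2 ^ 23, 1])
    (0 :: sc (-2 ^ 24) (ad (sc (10 ^ 10) (ml A A)) (sc 807592923 (ml B B))))

def al (k0 k1 : Knot) : ℤ := ((k0.g : ℤ) - 16) * k1.z - ((k1.g : ℤ) - 16) * k0.z
def be (k0 k1 : Knot) : ℤ := (k1.g : ℤ) - k0.g
def D (k0 k1 : Knot) : ℤ := (k1.z : ℤ) - k0.z

def P1 (k0 k1 : Knot) (rho : ℤ) : List ℤ :=
  PL (10 ^ 11 * 2 ^ 98 * D k0 k1) (QA (10 ^ 11 * 2 ^ 98 * D k0 k1) (al k0 k1) (be k0 k1) rho)
    (if k1.z ≤ 2560 then QB (10 ^ 11 * 2 ^ 98 * D k0 k1) (10 ^ 11 * 2 ^ 8 * D k0 k1) (al k0 k1) (be k0 k1) rho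
     else QC (10 ^ 11 * 2 ^ 98 * D k0 k1) (al k0 k1) (be k0 k1) rho)

def ckp (P : List ℤ) (a b : ℤ) : Bool := pos (TT a b P) || (pos (TT a ((a + b) / 2) P) && pos (TT ((a + b) / 2) b P))

def ck (k0 k1 : Knot) (s0 s1 : ℕ) : Bool :=
  decide (0 < k0.z) && decide (k0.z < k1.z) && decide (s0 * s0 ≤ k0.z * 2 ^ 34) && decide (k1.z * 2 ^ 34 < (s1 + 1) * (s1 + 1)) &&
  (decide (k1.z ≤ 2560) || decide (2560 ≤ k0.z)) &&
  ckp (P1 k0 k1 117809724509) s0 (s1 + 1) && ckp (P1 k0 k1 117809724510) s0 (s1 + 1)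

def ckl : List Knot → List ℕ → Bool
  | [], _ => true
  | a :: l, s => match l with
    | [] => true
    | b :: _ => match s with
      | [] => false
      | x :: s' => match s' with
        | [] => false
        | y :: _ => ck a b x y && ckl l s'

def sq : List ℕ :=
  [2097152, 2133697, 2169627, 2204972, 2243591, 2281556, 2322601, 2362934, 2406162, 2448627, 2493814, 2538198,
   2585143, 2631252, 2679773, 2727431, 2774271, 2820333, 2862655, 2904361, 2942559, 2974497, 3000375, 3028869,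
   3057098, 3087851, 3118301, 3151184, 3183727, 3218611, 3255760, 3295098, 3336548, 3380031, 3425470, 3472789,
   3524350, 3579969, 3639461, 3704958, 3776147, 3854943, 3943067, 4044160, 4163470, 4309459, 4496743, 4758473,
   5035621, 5329007, 5562458, 5768657, 5960534, 6145026, 6328212, 6515478, 6595409, 6631776, 6715441, 6800603,
   6888454, 6978891, 7070602, 7164736, 7262382, 7362233, 7465353, 7570471, 7678626, 7790794, 7905717, 8024347,
   8146522, 8272086, 8401909, 8535796, 8673560, 8815992, 8962871, 9114924, 9271896, 9434452, 9602310, 9776952,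
   9958022, 10145176, 10339744, 10541318, 10751100, 10969403, 11196495, 11433355, 11680125, 11937630, 12206596, 12487660,
   12781368, 13089493, 13412323, 13751320, 14107147, 14481528, 14875950, 15292232, 15731916, 16197338, 16690463, 17213401,
   17769805, 18362246, 18994589, 19670846, 20395493, 21174112, 22012682, 22918118, 23898994, 24964657, 26126434, 27397497,
   28793508, 30333753, 32040871, 33908911, 35885732, 37977871, 40191898, 42535035, 45014788, 47639217, 50416568, 53355803,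
   56466480, 59758483, 60053294]


/-- evaluation -/
noncomputable def ev (x : ℝ) : List ℤ → ℝ
  | [] => 0
  | c :: l => (c : ℝ) + x * ev x l

theorem ev_ad (x : ℝ) (l : List ℤ) : ∀ m : List ℤ, ev x (ad l m) = ev x l + ev x m := by
  induction l with
  | nil => intro m; simp [ad, ev]
  | cons a l ih =>
    intro m
    cases m with
    | nil => simp [ad, ev]
    | cons b m =>
      simp only [ad, ev, ih m]
      push_cast
      ring

theorem ev_sc (x : ℝ) (c : ℤ) (l : List ℤ) : ev x (sc c l) = c * ev x l := by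
  induction l with
  | nil => simp [sc, ev]
  | cons a l ih =>
    simp only [sc, ev, ih]
    push_cast
    ring

theorem ev_ml (x : ℝ) (l m : List ℤ) : ev x (ml l m) = ev x l * ev x m := by
  induction l with
  | nil => simp [ml, ev]
  | cons a l ih =>
    simp only [ml, ev_ad, ev_sc, ev, ih]
    push_cast
    ring

theorem ev_pw (x : ℝ) (n : ℕ) : ev x (pw n) = (1 + x) ^ n := by
  induction n with
  | zero => simp [pw, ev]
  | succ n ih =>
    simp only [pw, ev_ad, ev, ih]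
    push_cast
    ring

theorem ev_TT (a b : ℤ) (q s : ℝ) (h : (a : ℝ) + b * s = q * (1 + s)) (l : List ℤ) :
    ev s (TT a b l) * (1 + s) = (1 + s) ^ l.length * ev q l := by
  induction l with
  | nil => simp [TT, ev]
  | cons c l ih =>
    simp only [TT, ev_ad, ev_sc, ev_ml, ev_pw, ev, List.length_cons]
    have h1 : ((c : ℝ) * (1 + s) ^ l.length + ((a : ℝ) + s * ((b : ℝ) + s * 0)) * ev s (TT a b l)) * (1 + s) =
        (c : ℝ) * (1 + s) ^ l.length * (1 + s) + ((a : ℝ) + b * s) * (ev s (TT a b l) * (1 + s)) := by ring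
    rw [h1, ih, h]
    ring

theorem pos_ev (s : ℝ) (hs : 0 ≤ s) (l : List ℤ) (h : pos l = true) : 0 ≤ ev s l := by
  induction l with
  | nil => simp [ev]
  | cons a l ih =>
    simp only [pos, Bool.and_eq_true, decide_eq_true_eq] at h
    have h1 := ih h.2
    have h2 : (0 : ℝ) ≤ a := by exact_mod_cast h.1
    simp only [ev]
    positivity

theorem pos_TT (a b : ℤ) (l : List ℤ) (h : pos (TT a b l) = true) (q : ℝ) (h1 : (a : ℝ) ≤ q) (h2 : q < b) :
    0 ≤ ev q l := by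
  have hd : 0 < (b : ℝ) - q := by linarith
  have hs : 0 ≤ (q - a) / (b - q) := div_nonneg (by linarith) hd.le
  have h3 : (a : ℝ) + b * ((q - a) / (b - q)) = q * (1 + (q - a) / (b - q)) := by
    field_simp
    ring
  have h4 := ev_TT a b q _ h3 l
  have h5 := pos_ev _ hs _ h
  have h6 : 0 < 1 + (q - a) / (b - q) := by positivity
  have h7 : 0 ≤ (1 + (q - a) / (b - q)) ^ l.length * ev q l := by
    rw [← h4]; positivity
  exact nonneg_of_mul_nonneg_right (by simpa [mul_comm] using h7) (pow_pos h6 _)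

theorem ckp_sound (l : List ℤ) (a b : ℤ) (h : ckp l a b = true) (q : ℝ) (h1 : (a : ℝ) ≤ q) (h2 : q < b) :
    0 ≤ ev q l := by
  simp only [ckp, Bool.or_eq_true, Bool.and_eq_true] at h
  rcases h with h | ⟨h, h'⟩
  · exact pos_TT a b l h q h1 h2
  · rcases lt_or_ge q (((a + b) / 2 : ℤ) : ℝ) with h3 | h3
    · exact pos_TT _ _ l h q h1 h3
    · exact pos_TT _ _ l h' q h3 h2

/-- The convexity step. -/
theorem conv (r0 r1 r s τ W C : ℝ) (h01 : r0 < r1) (hr0 : r0 ≤ r) (hr1 : r ≤ r1) (hτ : 0 ≤ τ)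
    (h0 : (1 + r0 * s) ^ 2 + τ * (1 + r0 * s - W) ^ 2 ≤ C)
    (h1 : (1 + r1 * s) ^ 2 + τ * (1 + r1 * s - W) ^ 2 ≤ C) :
    (1 + r * s) ^ 2 + τ * (1 + r * s - W) ^ 2 ≤ C := by
  have hd : 0 < r1 - r0 := by linarith
  have h2 : ((1 + r * s) ^ 2 + τ * (1 + r * s - W) ^ 2) * (r1 - r0) =
      ((1 + r0 * s) ^ 2 + τ * (1 + r0 * s - W) ^ 2) * (r1 - r) +
      ((1 + r1 * s) ^ 2 + τ * (1 + r1 * s - W) ^ 2) * (r - r0) -
      (1 + τ) * s ^ 2 * (r1 - r0) * ((r - r0) * (r1 - r)) := by ring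
  have h3 : 0 ≤ (1 + τ) * s ^ 2 * (r1 - r0) * ((r - r0) * (r1 - r)) := by
    have := sub_nonneg.2 hr0
    have := sub_nonneg.2 hr1
    positivity
  have h4 := mul_le_mul_of_nonneg_right h0 (sub_nonneg.2 hr1)
  have h5 := mul_le_mul_of_nonneg_right h1 (sub_nonneg.2 hr0)
  have h6 : ((1 + r * s) ^ 2 + τ * (1 + r * s - W) ^ 2) * (r1 - r0) ≤ C * (r1 - r0) := by
    rw [h2]
    nlinarith [h3, h4, h5]
  exact le_of_mul_le_mul_right h6 hd

theorem taup_bd : 0 ≤ taup ∧ taup ≤ 807592923 / 10 ^ 10 := by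
  have h : taup = 32 / (3 * π ^ 2) - 1 := by
    unfold taup kap
    field_simp
    ring
  have hp0 := Real.pi_gt_d20
  have hp1 := Real.pi_lt_d20
  have hp := Real.pi_pos
  rw [h]
  constructor
  · rw [sub_nonneg, le_div_iff₀ (by positivity)]
    have : π ^ 2 ≤ (3.15 : ℝ) ^ 2 := pow_le_pow_left₀ hp.le (by norm_num at hp1 ⊢; linarith) 2
    norm_num at this
    linarith
  · rw [sub_le_iff_le_add, div_le_iff₀ (by positivity)]
    have : (3.14159265358979323846 : ℝ) ^ 2 ≤ π ^ 2 := pow_le_pow_left₀ (by norm_num) hp0.le 2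
    norm_num at this ⊢
    linarith

theorem rho_bd : (117809724509 : ℝ) / 10 ^ 11 ≤ 3 * π / 8 ∧ 3 * π / 8 ≤ 117809724510 / 10 ^ 11 := by
  have hp0 := Real.pi_gt_d20
  have hp1 := Real.pi_lt_d20
  norm_num at hp0 hp1
  constructor <;> norm_num <;> linarith

/-- The polynomial inequality gives the inequality for `r = ρ/10^11`. -/
theorem core (N x W δ z : ℝ) (hN : 0 < N) (hx : 0 < x) (hz : √z = x / 2 ^ 22)
    (hP : 0 ≤ 10 ^ 10 * N * N * (2 ^ 22 + x) ^ 2 - 2 ^ 24 * x * (10 ^ 10 * (N * (1 + δ)) ^ 2 +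
      807592923 * (N * (1 + δ - W)) ^ 2)) :
    (1 + δ) ^ 2 + 807592923 / 10 ^ 10 * (1 + δ - W) ^ 2 ≤ om z := by
  have h1 : om z = (1 + x / 2 ^ 22) ^ 2 / (4 * (x / 2 ^ 22)) := by
    unfold om
    rw [hz]
    field_simp
    ring
  rw [h1, le_div_iff₀ (by positivity)]
  have h2 : 10 ^ 10 * N * N * (2 ^ 22 + x) ^ 2 - 2 ^ 24 * x * (10 ^ 10 * (N * (1 + δ)) ^ 2 +
      807592923 * (N * (1 + δ - W)) ^ 2) = (10 ^ 10 * N ^ 2 * 2 ^ 44) * ((1 + x / 2 ^ 22) ^ 2 -
        ((1 + δ) ^ 2 + 807592923 / 10 ^ 10 * (1 + δ - W) ^ 2) * (4 * (x / 2 ^ 22))) := by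
    ring
  rw [h2] at hP
  have h3 := nonneg_of_mul_nonneg_right hP (by positivity)
  linarith

theorem ev_PL (N : ℤ) (A B : List ℤ) (x : ℝ) : ev x (PL N A B) =
    10 ^ 10 * N * N * (2 ^ 22 + x) ^ 2 - 2 ^ 24 * x * (10 ^ 10 * ev x A ^ 2 + 807592923 * ev x B ^ 2) := by
  simp only [PL, ev_ad, ev_sc, ev_ml, ev]
  push_cast
  ring

theorem ev_P1 (k0 k1 : Knot) (rho : ℤ) (x z : ℝ) (hD : 0 < (k1.z : ℝ) - k0.z)
    (hc : k1.z ≤ 2560 ∨ 2560 ≤ k0.z) (hz : z = x ^ 2 / 2 ^ 44) (h0 : (k0.z : ℝ) ≤ 1024 * z)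
    (h1 : 1024 * z ≤ k1.z) :
    ev x (P1 k0 k1 rho) = 10 ^ 10 * (10 ^ 11 * 2 ^ 98 * ((k1.z : ℝ) - k0.z)) * (10 ^ 11 * 2 ^ 98 * ((k1.z : ℝ) - k0.z)) *
      (2 ^ 22 + x) ^ 2 - 2 ^ 24 * x * (10 ^ 10 * ((10 ^ 11 * 2 ^ 98 * ((k1.z : ℝ) - k0.z)) *
        (1 + (rho : ℝ) / 10 ^ 11 * (z * (((al k0 k1 : ℤ) + (be k0 k1 : ℤ) * (1024 * z)) / (1048576 * ((k1.z : ℝ) - k0.z)))))) ^ 2 +
      807592923 * ((10 ^ 11 * 2 ^ 98 * ((k1.z : ℝ) - k0.z)) *
        (1 + (rho : ℝ) / 10 ^ 11 * (z * (((al k0 k1 : ℤ) + (be k0 k1 : ℤ) * (1024 * z)) / (1048576 * ((k1.z : ℝ) - k0.z)))) -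
          WZ z)) ^ 2) := by
  set D : ℝ := (k1.z : ℝ) - k0.z with hDd
  set a : ℤ := al k0 k1 with ha
  set b : ℤ := be k0 k1 with hb
  have hDz : ((CT.KGLM.D k0 k1 : ℤ) : ℝ) = D := by
    simp [CT.KGLM.D, hDd]
  have hA : ev x (QA (10 ^ 11 * 2 ^ 98 * CT.KGLM.D k0 k1) a b rho) = (10 ^ 11 * 2 ^ 98 * D) *
        (1 + (rho : ℝ) / 10 ^ 11 * (z * (((a : ℤ) + (b : ℤ) * (1024 * z)) / (1048576 * D)))) := by
    simp only [QA, ev]
    push_cast
    rw [hDz, hz]
    field_simp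
    ring
  have hB : ev x (if k1.z ≤ 2560 then QB (10 ^ 11 * 2 ^ 98 * CT.KGLM.D k0 k1) (10 ^ 11 * 2 ^ 8 * CT.KGLM.D k0 k1) a b rho
      else QC (10 ^ 11 * 2 ^ 98 * CT.KGLM.D k0 k1) a b rho) = (10 ^ 11 * 2 ^ 98 * D) *
        (1 + (rho : ℝ) / 10 ^ 11 * (z * (((a : ℤ) + (b : ℤ) * (1024 * z)) / (1048576 * D))) - WZ z) := by
    by_cases h : k1.z ≤ 2560
    · rw [if_pos h]
      have hW : WZ z = (5 * z - z ^ 2) / 4 := by
        unfold WZ
        rw [if_pos]
        have : (k1.z : ℝ) ≤ 2560 := by exact_mod_cast h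
        linarith
      rw [hW]
      simp only [QB, ev]
      push_cast
      rw [hDz, hz]
      field_simp
      ring
    · rw [if_neg h]
      have h' : (2560 : ℝ) ≤ k0.z := by
        rcases hc with hc | hc
        · exact absurd hc h
        · exact_mod_cast hc
      have hW : WZ z = 25 / 16 := by
        unfold WZ
        split_ifs with h2
        · have : z = 5 / 2 := by linarith
          rw [this]
          norm_num
        · rfl
      rw [hW]
      have h3 : (10 ^ 11 * 2 ^ 98 * CT.KGLM.D k0 k1 : ℤ) / 16 = 10 ^ 11 * 2 ^ 94 * CT.KGLM.D k0 k1 := by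
        rw [show (10 ^ 11 * 2 ^ 98 * CT.KGLM.D k0 k1 : ℤ) = (10 ^ 11 * 2 ^ 94 * CT.KGLM.D k0 k1) * 16 by ring]
        exact Int.mul_ediv_cancel _ (by norm_num)
      simp only [QC, ev, h3]
      push_cast
      rw [hDz, hz]
      field_simp
      ring
  have hN : (((10 ^ 11 * 2 ^ 98 * CT.KGLM.D k0 k1 : ℤ)) : ℝ) = 10 ^ 11 * 2 ^ 98 * D := by
    push_cast
    rw [hDz]
    norm_num
  rw [P1, ev_PL, hA, hB, hN]

theorem ck_sound (hWGC : SpecWGC) (k0 k1 : Knot) (s0 s1 : ℕ) (h : ck k0 k1 s0 s1 = true) : GG k0 k1 := by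
  simp only [ck, Bool.and_eq_true, Bool.or_eq_true, decide_eq_true_eq] at h
  obtain ⟨⟨⟨⟨⟨⟨hz0, h01⟩, hs0⟩, hs1⟩, hc⟩, hp0⟩, hp1⟩ := h
  refine ⟨h01, fun z hz1 hz2 => ?_⟩
  have hz0' : (0 : ℝ) < k0.z := by exact_mod_cast hz0
  have hD : 0 < (k1.z : ℝ) - k0.z := by
    have : (k0.z : ℝ) < k1.z := by exact_mod_cast h01
    linarith
  have hz : 0 < z := by linarith
  have hx : 0 < 2 ^ 22 * √z := by positivity
  have hx2 : (2 ^ 22 * √z) ^ 2 = 2 ^ 44 * z := by
    rw [mul_pow, Real.sq_sqrt hz.le]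
    ring
  have hzx : z = (2 ^ 22 * √z) ^ 2 / 2 ^ 44 := by
    rw [hx2]; ring
  have hxz : √z = (2 ^ 22 * √z) / 2 ^ 22 := by ring
  have ha : (((s0 : ℕ) : ℤ) : ℝ) ≤ 2 ^ 22 * √z := by
    have h2 : ((s0 : ℝ)) * s0 ≤ k0.z * 2 ^ 34 := by exact_mod_cast hs0
    have h3 : (s0 : ℝ) ^ 2 ≤ (2 ^ 22 * √z) ^ 2 := by
      rw [hx2]
      nlinarith
    have h4 := abs_le_of_sq_le_sq h3 hx.le
    rw [abs_of_nonneg (by positivity)] at h4
    exact_mod_cast h4
  have hb : 2 ^ 22 * √z < (((s1 : ℕ) + 1 : ℤ) : ℝ) := by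
    have h2 : (k1.z : ℝ) * 2 ^ 34 < ((s1 : ℝ) + 1) * (s1 + 1) := by exact_mod_cast hs1
    have h3 : (2 ^ 22 * √z) ^ 2 < ((s1 : ℝ) + 1) ^ 2 := by
      rw [hx2]
      nlinarith
    have h4 := abs_lt_of_sq_lt_sq h3 (by positivity)
    push_cast
    rw [abs_of_nonneg hx.le] at h4
    exact h4
  have e0 := ckp_sound _ _ _ hp0 _ ha hb
  have e1 := ckp_sound _ _ _ hp1 _ ha hb
  rw [ev_P1 k0 k1 _ _ z hD hc hzx hz1 hz2] at e0 e1
  have c0 := core _ _ _ _ z (by positivity) hx hxz e0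
  have c1 := core _ _ _ _ z (by positivity) hx hxz e1
  obtain ⟨r0, r1⟩ := rho_bd
  obtain ⟨t0, t1⟩ := taup_bd
  push_cast at c0 c1
  have hc := conv _ _ (3 * π / 8) (z * (((al k0 k1 : ℤ) + (be k0 k1 : ℤ) * (1024 * z)) / (1048576 * ((k1.z : ℝ) - k0.z))))
    _ (WZ z) (om z) (by norm_num) r0 r1 (by norm_num) c0 c1
  have hd := hWGC.2.2.2.1 z _ hz (le_trans (add_le_add_right (mul_le_mul_of_nonneg_right t1 (sq_nonneg _)) _) hc)
  have hal : ((al k0 k1 : ℤ) : ℝ) = ((k0.g : ℝ) - 16) * k1.z - ((k1.g : ℝ) - 16) * k0.z := by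
    simp [al]
  have hbe : ((be k0 k1 : ℤ) : ℝ) = (k1.g : ℝ) - k0.g := by
    simp [be]
  have hk : kap * (3 * π / 8) = 1 := by
    unfold kap
    have := Real.pi_pos
    field_simp
  have hkp : 0 < kap := by
    unfold kap
    positivity
  have he : ((al k0 k1 : ℤ) + (be k0 k1 : ℤ) * (1024 * z)) / (1048576 * ((k1.z : ℝ) - k0.z)) ≤ KG z := by
    unfold KG
    rw [le_div_iff₀ hz]
    have h5 := mul_le_mul_of_nonneg_left (sub_le_sub_right hd 1) hkp.le
    refine le_trans (le_of_eq ?_) h5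
    rw [show ∀ X : ℝ, kap * (1 + 3 * π / 8 * (z * X) - 1) = (kap * (3 * π / 8)) * (X * z) from fun X => by ring, hk, one_mul]
  rw [div_le_iff₀ (by positivity)] at he
  rw [hal, hbe] at he
  linarith

theorem ckl_sound (hWGC : SpecWGC) (l : List Knot) : ∀ s : List ℕ, ckl l s = true → Ch GG l := by
  induction l with
  | nil => intro s _; trivial
  | cons a l ih =>
    intro s h
    cases l with
    | nil => trivial
    | cons b l =>
      cases s with
      | nil => simp [ckl] at h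
      | cons x s =>
        cases s with
        | nil => simp [ckl] at h
        | cons y s =>
          simp only [ckl, Bool.and_eq_true] at h
          exact ⟨ck_sound hWGC a b x y h.1, ih (y :: s) h.2⟩

theorem big : ckl knots sq = true := by decide +kernel

end Pool.Agent.Lib.MP_084b88_gt.CT.KGLM

namespace Pool.Agent.Lib.MP_084b88_gt.CT

open Pool.Agent.Lib.MP_084b88_gt.LG in
/-- Module KGL. -/
theorem specKGL (hWGC : SpecWGC) : SpecKGL := KGLM.ckl_sound hWGC knots _ KGLM.big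

end Pool.Agent.Lib.MP_084b88_gt.CT
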