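import Pool.Agent.Lib.MP_084b88_gt.CT.Spec
import Pool.Agent.Lib.MP_084b88_gt.CT.Defs
import Pool.Agent.Lib.MP_084b88_gt.CT.CEL

section
/-!
# MP_084b88_gt, project CT, module BLN: the dyadic lines
-/
set_option autoImplicit false

open MeasureTheory Set Real

namespace Pool.Agent.Lib.MP_084b88_gt.CT

open Pool.Agent.Lib.MP_084b88_gt.CW
open Pool.Agent.Lib.MP_084b88_gt.SY
open Pool.Agent.Lib.MP_084b88_gt.LG

theorem specBLN : SpecBLN := by
  intro x R hL
  refine ⟨?_, ?_, ?_⟩
  · intro s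
    have h1 := hL.lo s
    have h2 := hL.x1 s
    have h3 := hL.x2 s
    have hp1 := Real.pi_gt_d20
    have hp2 := Real.pi_lt_d20
    have hp := Real.pi_pos
    have hk : kap ≤ 0.8488263632 := by
      unfold kap
      rw [div_le_iff₀ (by positivity)]
      linarith
    have e1 : (1048576 : ℝ) * ((3 * π / 4 - 4 / 3 - 0.8488263632 - 1 / 8) - (π / 2 - 3 / 2) * x s) -
        (51416 - 74235 * x s) = (1048576 * (3 * π / 4 - 4 / 3 - 0.8488263632 - 1 / 8) - 51416) * 1 -
        (1048576 * (π / 2 - 3 / 2) - 74235) * x s := by ring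
    have e2 : (0 : ℝ) ≤ 1048576 * (π / 2 - 3 / 2) - 74235 + 1 := by linarith
    nlinarith [h1, h2, h3, hk, hp1, hp2]
  · intro p hp s h1 h2
    have hx1 := hL.x1 s
    have hx2 := hL.x2 s
    have hh := hL.hi
    simp only [bandQ, List.mem_cons, List.mem_nil_iff, or_false, forall_eq_or_imp, forall_eq] at hh
    obtain ⟨g0, g1, g2, g3, g4⟩ := hh
    have a0 := g0 s
    have a1 := g1 s
    have a2 := g2 s
    have a3 := g3 s
    have a4 := g4 s
    push_cast at a0 a1 a2 a3 a4
    simp only [pcs, List.mem_cons, List.mem_nil_iff, or_false] at hp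
    rcases hp with rfl | rfl | rfl | rfl | rfl | rfl | rfl | rfl <;> push_cast <;> linarith
  · intro q hq s
    have hx1 := hL.x1 s
    have hx2 := hL.x2 s
    have hh := hL.pair
    simp only [pairQ, List.mem_cons, List.mem_nil_iff, or_false, forall_eq_or_imp, forall_eq] at hh
    obtain ⟨g0, g1, g2, g3, g4, g5, g6, g7, g8⟩ := hh
    have a0 := g0 s
    have a1 := g1 s
    have a2 := g2 s
    have a3 := g3 s
    have a4 := g4 s
    have a5 := g5 s
    have a6 := g6 s
    have a7 := g7 s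
    have a8 := g8 s
    push_cast at a0 a1 a2 a3 a4 a5 a6 a7 a8
    simp only [cutT, List.mem_cons, List.mem_nil_iff, or_false] at hq
    rcases hq with rfl | rfl | rfl | rfl | rfl | rfl | rfl | rfl | rfl <;> push_cast <;> linarith

end Pool.Agent.Lib.MP_084b88_gt.CT
end

section
/-!
# MP_084b88_gt, project CT, module BRN: soundness of one branch of the checker
-/
set_option autoImplicit false

namespace Pool.Agent.Lib.MP_084b88_gt.CT

namespace BRNM

theorem fN_eq {α : Type} (a : ℕ) (k : ℕ → α) : fN a k = k a := by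
  cases a <;> rfl

theorem ifle_pos {α : Type} {a b : ℕ} (h : a ≤ b) (x y : α) : ifle a b x y = x := by
  have h1 : Nat.ble a b = true := Nat.ble_eq_true_of_le h
  unfold ifle
  rw [h1]

theorem ifle_neg {α : Type} {a b : ℕ} (h : ¬ a ≤ b) (x y : α) : ifle a b x y = y := by
  have h1 : Nat.ble a b = false := by
    cases hb : Nat.ble a b
    · rfl
    · exact absurd (Nat.le_of_ble_eq_true hb) h
  unfold ifle
  rw [h1]

theorem cf_eq (ap an bp bn dp dn n y m : ℕ) :
    cf ap an bp bn dp dn n y m =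
      min m ((ap + (n * bp + y * dp)) - (an + (n * bn + y * dn))) := by
  unfold cf
  rw [fN_eq]
  by_cases h : m ≤ (ap + (n * bp + y * dp)) - (an + (n * bn + y * dn))
  · rw [min_eq_left h]
    exact ifle_pos h _ _
  · rw [min_eq_right (not_le.1 h).le]
    exact ifle_neg h _ _

/-- One Bernstein coefficient at one vertex. -/
noncomputable def G (Q1p Q1n Q2p Q2n Kp Kn gp gn oo2 oo3 Y2 Y3 t1 t2 t3 n y m : ℕ) : ℕ :=
  cf (Kp + (Q1p * t1 + Q2p * t2) * 67108864) (Kn + (Q1n * t1 + Q2n * t2) * 67108864)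
    (gp * t2 + oo3 * t3) ((gn + oo2) * t2) (Y2 * t2) (Y3 * t3) n y m

theorem bc_eq {α : Type} (Q1p Q1n Q2p Q2n Kp Kn gp gn oo2 oo3 Y2 Y3 t1 t2 t3 : ℕ) (V : Vx)
    (m1 m2 m3 m4 : ℕ) (k : ℕ → ℕ → ℕ → ℕ → α) :
    bc Q1p Q1n Q2p Q2n Kp Kn gp gn oo2 oo3 Y2 Y3 t1 t2 t3 V m1 m2 m3 m4 k =
      k (G Q1p Q1n Q2p Q2n Kp Kn gp gn oo2 oo3 Y2 Y3 t1 t2 t3 V.n1 V.yl m1)
        (G Q1p Q1n Q2p Q2n Kp Kn gp gn oo2 oo3 Y2 Y3 t1 t2 t3 V.n2 V.yl m2)
        (G Q1p Q1n Q2p Q2n Kp Kn gp gn oo2 oo3 Y2 Y3 t1 t2 t3 V.n3 V.yu m3)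
        (G Q1p Q1n Q2p Q2n Kp Kn gp gn oo2 oo3 Y2 Y3 t1 t2 t3 V.n4 V.yu m4) := by
  unfold bc
  simp only [fN_eq]
  rfl

theorem G_le (Q1p Q1n Q2p Q2n Kp Kn gp gn oo2 oo3 Y2 Y3 t1 t2 t3 n y m : ℕ) :
    G Q1p Q1n Q2p Q2n Kp Kn gp gn oo2 oo3 Y2 Y3 t1 t2 t3 n y m ≤ m := by
  unfold G
  rw [cf_eq]
  exact min_le_left _ _

/-- The real value of a Bernstein coefficient. -/
noncomputable def Lf (K C1 C2 C3 t1 t2 t3 : ℝ) : ℝ := K + C1 * t1 + C2 * t2 + C3 * t3

theorem G_real (Q1p Q1n Q2p Q2n Kp Kn gp gn oo2 oo3 Y2 Y3 t1 t2 t3 n y m r : ℕ) (hr : 0 < r)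
    (h : r ≤ G Q1p Q1n Q2p Q2n Kp Kn gp gn oo2 oo3 Y2 Y3 t1 t2 t3 n y m) :
    (r : ℝ) ≤ Lf ((Kp : ℝ) - Kn) (67108864 * ((Q1p : ℝ) - Q1n))
      (67108864 * ((Q2p : ℝ) - Q2n) + n * ((gp : ℝ) - (gn + oo2)) + y * Y2)
      (n * oo3 - y * Y3) t1 t2 t3 := by
  unfold G at h
  rw [cf_eq] at h
  have h1 := le_trans h (min_le_right _ _)
  set X : ℕ := (Kp + (Q1p * t1 + Q2p * t2) * 67108864 + (n * (gp * t2 + oo3 * t3) + y * (Y2 * t2))) with hX
  set Y : ℕ := (Kn + (Q1n * t1 + Q2n * t2) * 67108864 + (n * ((gn + oo2) * t2) + y * (Y3 * t3))) with hY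
  have h2 : Y + r ≤ X := by omega
  have h3 : (Y : ℝ) + r ≤ X := by exact_mod_cast h2
  have hXr : (X : ℝ) = Kp + (Q1p * t1 + Q2p * t2) * 67108864 + (n * (gp * t2 + oo3 * t3) + y * (Y2 * t2)) := by
    rw [hX]; push_cast; ring
  have hYr : (Y : ℝ) = Kn + (Q1n * t1 + Q2n * t2) * 67108864 + (n * ((gn + oo2) * t2) + y * (Y3 * t3)) := by
    rw [hY]; push_cast; ring
  rw [hXr, hYr] at h3
  unfold Lf
  nlinarith [h3]

/-- Bernstein coefficients of `v, v², v³` on the pieces. -/
theorem bern (p : Pc) (hp : p ∈ pcs) (v t : ℝ) (ht : t = 16 * v - p.a) :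
    (12288 * v = (1 - t) ^ 3 * p.t10 + 3 * t * (1 - t) ^ 2 * p.t11 + 3 * t ^ 2 * (1 - t) * p.t12 + t ^ 3 * p.t13) ∧
    (12288 * v ^ 2 = (1 - t) ^ 3 * p.t20 + 3 * t * (1 - t) ^ 2 * p.t21 + 3 * t ^ 2 * (1 - t) * p.t22 +
      t ^ 3 * p.t23) ∧
    (12288 * v ^ 3 = (1 - t) ^ 3 * p.t30 + 3 * t * (1 - t) ^ 2 * p.t31 + 3 * t ^ 2 * (1 - t) * p.t32 +
      t ^ 3 * p.t33) := by
  subst ht
  simp only [pcs, List.mem_cons, List.not_mem_nil, or_false] at hp
  rcases hp with rfl | rfl | rfl | rfl | rfl | rfl | rfl | rfl <;>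
    (push_cast; refine ⟨?_, ?_, ?_⟩ <;> ring)

/-- Convexity. -/
theorem bern_le (t r a b c d : ℝ) (h0 : 0 ≤ t) (h1 : t ≤ 1) (ha : r ≤ a) (hb : r ≤ b) (hc : r ≤ c) (hd : r ≤ d) :
    r ≤ (1 - t) ^ 3 * a + 3 * t * (1 - t) ^ 2 * b + 3 * t ^ 2 * (1 - t) * c + t ^ 3 * d := by
  have h2 : 0 ≤ 1 - t := by linarith
  have e1 : 0 ≤ (1 - t) ^ 3 * (a - r) := mul_nonneg (by positivity) (by linarith)
  have e2 : 0 ≤ 3 * t * (1 - t) ^ 2 * (b - r) := mul_nonneg (by positivity) (by linarith)
  have e3 : 0 ≤ 3 * t ^ 2 * (1 - t) * (c - r) := mul_nonneg (by positivity) (by linarith)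
  have e4 : 0 ≤ t ^ 3 * (d - r) := mul_nonneg (by positivity) (by linarith)
  have e5 : (1 - t) ^ 3 * a + 3 * t * (1 - t) ^ 2 * b + 3 * t ^ 2 * (1 - t) * c + t ^ 3 * d - r =
      (1 - t) ^ 3 * (a - r) + 3 * t * (1 - t) ^ 2 * (b - r) + 3 * t ^ 2 * (1 - t) * (c - r) + t ^ 3 * (d - r) := by
    ring
  linarith

/-- The cubic form. -/
theorem cubic (g0 gp gn o0 o1 r0 r1 : ℕ) (u : Mul) (w : Par) (n y : ℕ) (v : ℝ) :
    SC * FBn g0 gp gn o0 o1 r0 r1 u w ((n : ℝ) / 2 ^ 26) ((y : ℝ) / 2 ^ 20) v + BI =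
      Lf ((w.Kp : ℝ) - w.Kn)
        (67108864 * (((g0 : ℝ) * 25165824 + (o0 * (3145728 + 24 * r0) + 24576 * w.M)) -
          (28334198897630188142592 + (3221225472 * u.c1 + 24576 * (u.c * r0 + 1048576 * w.l)))))
        (67108864 * ((4294967296 * (u.c1 : ℝ) + 24576 * (u.c * r1)) - o0 * (4194304 + 24 * r1)) +
          n * ((gp : ℝ) * 25769803776 - (gn * 25769803776 + 1024 * (o1 * (3145728 + 24 * r0)))) +
          y * (65536 * (3145728 * u.e1 + 24 * (u.e * r0))))
        (n * (1024 * (o1 * (4194304 + 24 * r1))) - y * (65536 * (4194304 * u.e1 + 24 * (u.e * r1))))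
        (12288 * v) (12288 * v ^ 2) (12288 * v ^ 3) := by
  have hSC : SC * (((w.Kp : ℝ) - BI - (w.Kn : ℝ)) / SC) = (w.Kp : ℝ) - BI - (w.Kn : ℝ) := by
    have : SC ≠ 0 := by unfold SC; norm_num
    field_simp
  unfold FBn FB Lf
  have e : ∀ a b c d e f : ℝ, SC * (a + b - c - d + e - f) = SC * a + SC * (b - c - d + e - f) := by
    intros; ring
  rw [e, hSC]
  unfold SC BI
  ring

end BRNM

open BRNM in
theorem specBRN : SpecBRN := by
  intro p hp g0 gp gn o0 o1 r0 r1 u w V m1 m2 m3 m4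
  -- one vertex
  have key : ∀ n y m : ℕ, ∃ K : ℕ → ℕ,
      (∀ m, K m = G (g0 * 25165824 + (o0 * (3145728 + 24 * r0) + 24576 * w.M))
        (28334198897630188142592 + (3221225472 * u.c1 + 24576 * (u.c * r0 + 1048576 * w.l)))
        (4294967296 * u.c1 + 24576 * (u.c * r1)) (o0 * (4194304 + 24 * r1)) w.Kp w.Kn (gp * 25769803776)
        (gn * 25769803776) (1024 * (o1 * (3145728 + 24 * r0))) (1024 * (o1 * (4194304 + 24 * r1)))
        (65536 * (3145728 * u.e1 + 24 * (u.e * r0))) (65536 * (4194304 * u.e1 + 24 * (u.e * r1))) p.t13 p.t23 p.t33 n y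
        (G (g0 * 25165824 + (o0 * (3145728 + 24 * r0) + 24576 * w.M))
        (28334198897630188142592 + (3221225472 * u.c1 + 24576 * (u.c * r0 + 1048576 * w.l)))
        (4294967296 * u.c1 + 24576 * (u.c * r1)) (o0 * (4194304 + 24 * r1)) w.Kp w.Kn (gp * 25769803776)
        (gn * 25769803776) (1024 * (o1 * (3145728 + 24 * r0))) (1024 * (o1 * (4194304 + 24 * r1)))
        (65536 * (3145728 * u.e1 + 24 * (u.e * r0))) (65536 * (4194304 * u.e1 + 24 * (u.e * r1))) p.t12 p.t22 p.t32 n y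
        (G (g0 * 25165824 + (o0 * (3145728 + 24 * r0) + 24576 * w.M))
        (28334198897630188142592 + (3221225472 * u.c1 + 24576 * (u.c * r0 + 1048576 * w.l)))
        (4294967296 * u.c1 + 24576 * (u.c * r1)) (o0 * (4194304 + 24 * r1)) w.Kp w.Kn (gp * 25769803776)
        (gn * 25769803776) (1024 * (o1 * (3145728 + 24 * r0))) (1024 * (o1 * (4194304 + 24 * r1)))
        (65536 * (3145728 * u.e1 + 24 * (u.e * r0))) (65536 * (4194304 * u.e1 + 24 * (u.e * r1))) p.t11 p.t21 p.t31 n y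
        (G (g0 * 25165824 + (o0 * (3145728 + 24 * r0) + 24576 * w.M))
        (28334198897630188142592 + (3221225472 * u.c1 + 24576 * (u.c * r0 + 1048576 * w.l)))
        (4294967296 * u.c1 + 24576 * (u.c * r1)) (o0 * (4194304 + 24 * r1)) w.Kp w.Kn (gp * 25769803776)
        (gn * 25769803776) (1024 * (o1 * (3145728 + 24 * r0))) (1024 * (o1 * (4194304 + 24 * r1)))
        (65536 * (3145728 * u.e1 + 24 * (u.e * r0))) (65536 * (4194304 * u.e1 + 24 * (u.e * r1))) p.t10 p.t20 p.t30 n y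
        m)))) ∧
      K m ≤ m ∧ (0 < K m → ∀ v : ℝ, (p.a : ℝ) ≤ 16 * v → 16 * v ≤ (p.a : ℝ) + 1 →
        ((K m : ℕ) : ℝ) - BI ≤ SC * FBn g0 gp gn o0 o1 r0 r1 u w ((n : ℝ) / 2 ^ 26) ((y : ℝ) / 2 ^ 20) v) := by
    intro n y m
    refine ⟨_, fun m => rfl, ?_, ?_⟩
    · exact (G_le ..).trans ((G_le ..).trans ((G_le ..).trans (G_le ..)))
    · intro hpos v hv1 hv2
      have hK3 := G_real _ _ _ _ _ _ _ _ _ _ _ _ _ _ _ _ _ _ _ hpos le_rfl
      have hK2 := G_real _ _ _ _ _ _ _ _ _ _ _ _ _ _ _ _ _ _ _ hpos (G_le ..)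
      have hK1 := G_real _ _ _ _ _ _ _ _ _ _ _ _ _ _ _ _ _ _ _ hpos ((G_le ..).trans (G_le ..))
      have hK0 := G_real _ _ _ _ _ _ _ _ _ _ _ _ _ _ _ _ _ _ _ hpos ((G_le ..).trans ((G_le ..).trans (G_le ..)))
      obtain ⟨hb1, hb2, hb3⟩ := bern p hp v (16 * v - p.a) rfl
      have hmain := bern_le (16 * v - p.a) _ _ _ _ _ (by linarith) (by linarith) hK0 hK1 hK2 hK3
      have hc := cubic g0 gp gn o0 o1 r0 r1 u w n y v
      rw [hb1, hb2, hb3] at hc
      have : SC * FBn g0 gp gn o0 o1 r0 r1 u w ((n : ℝ) / 2 ^ 26) ((y : ℝ) / 2 ^ 20) v =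
        Lf ((w.Kp : ℝ) - w.Kn)
        (67108864 * (((g0 : ℝ) * 25165824 + (o0 * (3145728 + 24 * r0) + 24576 * w.M)) -
          (28334198897630188142592 + (3221225472 * u.c1 + 24576 * (u.c * r0 + 1048576 * w.l)))))
        (67108864 * ((4294967296 * (u.c1 : ℝ) + 24576 * (u.c * r1)) - o0 * (4194304 + 24 * r1)) +
          n * ((gp : ℝ) * 25769803776 - (gn * 25769803776 + 1024 * (o1 * (3145728 + 24 * r0)))) +
          y * (65536 * (3145728 * u.e1 + 24 * (u.e * r0))))
        (n * (1024 * (o1 * (4194304 + 24 * r1))) - y * (65536 * (4194304 * u.e1 + 24 * (u.e * r1))))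
        ((1 - (16 * v - p.a)) ^ 3 * p.t10 + 3 * (16 * v - p.a) * (1 - (16 * v - p.a)) ^ 2 * p.t11 +
          3 * (16 * v - p.a) ^ 2 * (1 - (16 * v - p.a)) * p.t12 + (16 * v - p.a) ^ 3 * p.t13)
        ((1 - (16 * v - p.a)) ^ 3 * p.t20 + 3 * (16 * v - p.a) * (1 - (16 * v - p.a)) ^ 2 * p.t21 +
          3 * (16 * v - p.a) ^ 2 * (1 - (16 * v - p.a)) * p.t22 + (16 * v - p.a) ^ 3 * p.t23)
        ((1 - (16 * v - p.a)) ^ 3 * p.t30 + 3 * (16 * v - p.a) * (1 - (16 * v - p.a)) ^ 2 * p.t31 +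
          3 * (16 * v - p.a) ^ 2 * (1 - (16 * v - p.a)) * p.t32 + (16 * v - p.a) ^ 3 * p.t33) - BI := by
        linarith
      rw [this]
      refine sub_le_sub_right (hmain.trans (le_of_eq ?_)) _
      push_cast
      unfold Lf
      ring
  obtain ⟨K1, hK1, hl1, hv1⟩ := key V.n1 V.yl m1
  obtain ⟨K2, hK2, hl2, hv2⟩ := key V.n2 V.yl m2
  obtain ⟨K3, hK3, hl3, hv3⟩ := key V.n3 V.yu m3
  obtain ⟨K4, hK4, hl4, hv4⟩ := key V.n4 V.yu m4
  refine ⟨K1 m1, K2 m2, K3 m3, K4 m4, ?_, hl1, hl2, hl3, hl4, ?_⟩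
  · intro α k
    rw [hK1, hK2, hK3, hK4]
    unfold brn
    simp only [fN_eq, bc_eq]
    rfl
  · intro v hva hvb
    exact ⟨fun h => hv1 h v hva hvb, fun h => hv2 h v hva hvb, fun h => hv3 h v hva hvb, fun h => hv4 h v hva hvb⟩

end Pool.Agent.Lib.MP_084b88_gt.CT
end

section
/-!
# MP_084b88_gt, project CT: data of the certificate, group 1
-/
set_option autoImplicit false

namespace Pool.Agent.Lib.MP_084b88_gt.CT

/-- Cell 0. -/
def cell0 : Cell :=
  ⟨16, 22, 256, 384, ⟨1044224, 834335, 1224468, 622349⟩,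
    [[(0, 47687)], [(3, 41356)], [(6, 31012)], [(8, 8830)], [(8, 492)], [], [], []],
    [[4], [6, 8], [10, 12], [14, 16], [18, 20], [22, 24], [27, 28], [31, 32], [35, 36], [40], [44], [48], [52], [56], [60], [64]]⟩

theorem ok0 : chk cell0 = true := by decide +kernel

/-- Cell 1. -/
def cell1 : Cell :=
  ⟨22, 28, 256, 384, ⟨1078005, 861326, 1232016, 717612⟩,
    [[(3, 37225)], [(5, 30394)], [(6, 8384)], [(8, 4730)], [(8, 3030)], [], [], []],
    [[4], [6, 8], [10, 12], [14, 16], [18, 20], [22, 24], [27, 28], [31, 32], [35, 36], [40], [44], [48], [52], [56], [60], [64]]⟩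

theorem ok1 : chk cell1 = true := by decide +kernel

/-- Cell 2. -/
def cell2 : Cell :=
  ⟨28, 40, 256, 312, ⟨1111859, 888375, 1171206, 769695⟩,
    [[(5, 8738)], [(5, 4289)], [(6, 168)], [(8, 1495)], [(7, 1519)], [], [], []],
    [[4], [7, 8], [11, 12], [14, 16], [18, 20], [23, 24], [27, 28], [31, 32], [36], [40], [44], [48], [52], [56], [60], [64]]⟩

theorem ok2 : chk cell2 = true := by decide +kernel

/-- Cell 3. -/
def cell3 : Cell :=
  ⟨40, 64, 256, 312, ⟨1043619, 833852, 1153599, 742524⟩,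
    [[], [], [], [(6, 292), (7, 637)], [(7, 803)], [], [], []],
    [[4], [8], [11, 12], [15, 16], [19, 20], [23, 24], [27, 28], [32], [36], [40], [44], [48], [52], [56], [60], [64]]⟩

theorem ok3 : chk cell3 = true := by decide +kernel

/-- Cell 4. -/
def cell4 : Cell :=
  ⟨64, 88, 256, 384, ⟨977781, 781247, 1074237, 573022⟩,
    [[(6, 10414)], [(6, 7756)], [(6, 6186)], [(6, 4791)], [(7, 2208)], [], [], []],
    [[4], [8], [12], [16], [20], [24], [28], [32], [36], [40], [44], [48], [52], [56], [60], [64]]⟩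

theorem ok4 : chk cell4 = true := by decide +kernel

/-- Cell 5. -/
def cell5 : Cell :=
  ⟨88, 112, 256, 384, ⟨909262, 726500, 987953, 466676⟩,
    [[(6, 4750)], [(6, 4262)], [(6, 1924)], [(6, 1380)], [(7, 552)], [], [], []],
    [[4], [8], [12], [16], [20], [24], [28], [32], [36], [40], [44], [48], [52], [56], [60], [64]]⟩

theorem ok5 : chk cell5 = true := by decide +kernel

/-- Cell 6. -/
def cell6 : Cell :=
  ⟨112, 160, 256, 384, ⟨826061, 660023, 905992, 342829⟩,
    [[(6, 1782)], [(6, 277)], [], [], [], [], [], []],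
    [[4], [8], [12], [16], [20], [24], [28], [32], [36], [40], [44], [48], [52], [56], [60], [64]]⟩

theorem ok6 : chk cell6 = true := by decide +kernel

/-- Cell 7. -/
def cell7 : Cell :=
  ⟨160, 256, 256, 384, ⟨642810, 379663, 785100, 328107⟩,
    [[], [], [], [], [], [], [], []],
    [[4], [8], [12], [16], [20], [24], [28], [32], [36], [40], [44], [48], [52], [56], [60], [64]]⟩

theorem ok7 : chk cell7 = true := by decide +kernel

/-- Cell 8. -/
def cell8 : Cell :=
  ⟨256, 384, 256, 384, ⟨339640, 0, 551805, 0⟩,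
    [[], [], [], [], [], [], [], []],
    [[4], [8], [12], [16], [20], [24], [28], [32], [36], [40], [44], [48], [52], [56], [60], [64]]⟩

theorem ok8 : chk cell8 = true := by decide +kernel

/-- Cell 9. -/
def cell9 : Cell :=
  ⟨28, 40, 312, 384, ⟨996138, 795914, 1175479, 852211⟩,
    [[(4, 17204)], [(4, 2478), (5, 9742)], [(6, 8427)], [(7, 4701), (8, 6227)], [(7, 8474)], [(7, 3657)], [], []],
    [[4], [7, 8], [10, 12], [14, 16], [18, 20], [22, 24], [27, 28], [31, 32], [36], [40], [44], [48], [52], [56], [60], [64]]⟩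

theorem ok9 : chk cell9 = true := by decide +kernel

end Pool.Agent.Lib.MP_084b88_gt.CT
end

section
/-!
# MP_084b88_gt, project CT: data of the certificate, group 2
-/
set_option autoImplicit false

namespace Pool.Agent.Lib.MP_084b88_gt.CT

/-- Cell 10. -/
def cell10 : Cell :=
  ⟨40, 64, 312, 384, ⟨926745, 740470, 1244113, 994047⟩,
    [[(6, 4377)], [(6, 10324)], [(6, 5665)], [(6, 1359), (7, 6214)], [(7, 8165)], [(7, 2005)], [], []],
    [[4], [8], [11, 12], [15, 16], [19, 20], [23, 24], [27, 28], [31, 32], [36], [40], [44], [48], [52], [56], [60], [64]]⟩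

theorem ok10 : chk cell10 = true := by decide +kernel

/-- Cell 11. -/
def cell11 : Cell :=
  ⟨16, 22, 384, 576, ⟨700497, 559697, 1459390, 997171⟩,
    [[(0, 39756)], [(4, 39801)], [(7, 36357)], [(8, 23105)], [(8, 22036)], [(8, 6367)], [], []],
    [[3, 4], [6, 8], [9, 11, 12], [14, 16], [18, 20], [22, 24], [26, 28], [31, 32], [35, 36], [40], [44], [48], [52], [56], [60], [64]]⟩

theorem ok11 : chk cell11 = true := by decide +kernel

/-- Cell 12. -/
def cell12 : Cell :=
  ⟨22, 28, 384, 576, ⟨734161, 586595, 1419712, 1044448⟩,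
    [[(2, 34897)], [(4, 21115), (5, 14490)], [(6, 20281)], [(6, 6636), (7, 12220)], [(7, 17758)], [(8, 7061)], [], []],
    [[4], [6, 8], [10, 12], [14, 16], [18, 20], [22, 24], [26, 28], [31, 32], [35, 36], [40], [44], [48], [52], [56], [60], [64]]⟩

theorem ok12 : chk cell12 = true := by decide +kernel

/-- Cell 13. -/
def cell13 : Cell :=
  ⟨28, 34, 384, 472, ⟨897381, 717007, 1201722, 870980⟩,
    [[(2, 29066)], [(4, 17973), (5, 8769)], [(6, 21110)], [(7, 22633)], [(7, 2273), (8, 16323)], [(8, 7252)], [], []],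
    [[4], [6, 8], [10, 12], [14, 16], [18, 20], [22, 24], [27, 28], [31, 32], [35, 36], [40], [44], [48], [52], [56], [60], [64]]⟩

theorem ok13 : chk cell13 = true := by decide +kernel

/-- Cell 14. -/
def cell14 : Cell :=
  ⟨34, 40, 384, 472, ⟨881956, 704683, 1181404, 876330⟩,
    [[(3, 18500), (4, 8361)], [(4, 19736)], [(6, 19997)], [(6, 1657), (7, 18554)], [(7, 15999)], [(8, 7297)], [], []],
    [[4], [7, 8], [10, 12], [14, 16], [18, 20], [22, 24], [27, 28], [31, 32], [36], [40], [44], [48], [52], [56], [60], [64]]⟩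

theorem ok14 : chk cell14 = true := by decide +kernel

/-- Cell 15. -/
def cell15 : Cell :=
  ⟨40, 64, 384, 472, ⟨770865, 615921, 1335240, 1066857⟩,
    [[(5, 14597), (6, 1240)], [(5, 17562)], [(6, 15373)], [(6, 14798), (7, 350)], [(7, 16755)], [(8, 6861)], [], []],
    [[4], [7, 8], [11, 12], [14, 16], [18, 20], [23, 24], [27, 28], [31, 32], [36], [40], [44], [48], [52], [56], [60], [64]]⟩

theorem ok15 : chk cell15 = true := by decide +kernel

/-- Cell 16. -/
def cell16 : Cell :=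
  ⟨64, 112, 384, 576, ⟨716061, 572133, 1149820, 839425⟩,
    [[(5, 25810)], [(5, 23474)], [(5, 14620)], [(6, 13807)], [(7, 15011)], [(8, 5787)], [], []],
    [[4], [8], [11, 12], [15, 16], [19, 20], [23, 24], [27, 28], [32], [36], [40], [44], [48], [52], [56], [60], [64]]⟩

theorem ok16 : chk cell16 = true := by decide +kernel

/-- Cell 17. -/
def cell17 : Cell :=
  ⟨112, 160, 384, 576, ⟨617056, 493027, 889762, 522333⟩,
    [[(4, 5763), (5, 12318)], [(5, 17566)], [(5, 11723)], [(6, 9759)], [(7, 7327)], [(8, 1813)], [], []],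
    [[4], [8], [12], [16], [20], [24], [28], [32], [36], [40], [44], [48], [52], [56], [60], [64]]⟩

theorem ok17 : chk cell17 = true := by decide +kernel

/-- Cell 18. -/
def cell18 : Cell :=
  ⟨160, 256, 384, 576, ⟨494849, 395384, 739285, 429316⟩,
    [[(5, 7845)], [(5, 7136)], [(6, 1162)], [(6, 1825)], [(7, 953)], [], [], []],
    [[4], [8], [12], [16], [20], [24], [28], [32], [36], [40], [44], [48], [52], [56], [60], [64]]⟩

theorem ok18 : chk cell18 = true := by decide +kernel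

/-- Cell 19. -/
def cell19 : Cell :=
  ⟨256, 576, 384, 576, ⟨278572, 144772, 493245, 188284⟩,
    [[], [], [], [], [], [], [], []],
    [[4], [8], [12], [16], [20], [24], [28], [32], [36], [40], [44], [48], [52], [56], [60], [64]]⟩

theorem ok19 : chk cell19 = true := by decide +kernel

end Pool.Agent.Lib.MP_084b88_gt.CT
end

section
/-!
# MP_084b88_gt, project CT: data of the certificate, group 3
-/
set_option autoImplicit false

namespace Pool.Agent.Lib.MP_084b88_gt.CT

/-- Cell 20. -/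
def cell20 : Cell :=
  ⟨28, 34, 472, 576, ⟨729597, 582948, 1306347, 1009892⟩,
    [[(2, 28755)], [(4, 27847)], [(5, 597), (6, 26234)], [(6, 9058), (7, 17079)], [(7, 20528)], [(8, 9238)], [], []],
    [[4], [6, 8], [10, 12], [14, 16], [18, 20], [22, 24], [27, 28], [31, 32], [35, 36], [40], [44], [48], [52], [56], [60], [64]]⟩

theorem ok20 : chk cell20 = true := by decide +kernel

/-- Cell 21. -/
def cell21 : Cell :=
  ⟨34, 40, 472, 576, ⟨732526, 585288, 1247434, 938849⟩,
    [[(2, 7737), (3, 21422)], [(4, 26270)], [(5, 17924), (6, 8520)], [(6, 8321), (7, 18035)], [(7, 17162), (8, 3284)], [(8, 8775)], [], []],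
    [[4], [6, 8], [10, 12], [14, 16], [18, 20], [22, 24], [27, 28], [31, 32], [35, 36], [40], [44], [48], [52], [56], [60], [64]]⟩

theorem ok21 : chk cell21 = true := by decide +kernel

/-- Cell 22. -/
def cell22 : Cell :=
  ⟨40, 64, 472, 576, ⟨624676, 499116, 1400619, 1119095⟩,
    [[(4, 19187), (5, 3955)], [(4, 20416)], [(5, 22145)], [(6, 21358)], [(7, 19369)], [(8, 7499)], [], []],
    [[4], [7, 8], [10, 12], [14, 16], [18, 20], [22, 24], [27, 28], [31, 32], [36], [40], [44], [48], [52], [56], [60], [64]]⟩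

theorem ok22 : chk cell22 = true := by decide +kernel

/-- Cell 23. -/
def cell23 : Cell :=
  ⟨16, 22, 576, 864, ⟨388333, 310278, 1649300, 1279858⟩,
    [[(0, 34172)], [(3, 19441), (4, 14849)], [(5, 15260), (6, 18872)], [(6, 15568), (7, 15183)], [(8, 15524)], [], [], []],
    [[3, 4], [5, 6, 7, 8], [9, 10, 11, 12], [13, 15, 16], [18, 20], [22, 24], [26, 28], [31, 32], [35, 36], [40], [44], [48], [52], [56], [60], [64]]⟩

theorem ok23 : chk cell23 = true := by decide +kernel

/-- Cell 24. -/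
def cell24 : Cell :=
  ⟨22, 28, 576, 704, ⟨515436, 411833, 1532917, 1193251⟩,
    [[(1, 31204)], [(4, 31242)], [(6, 31788)], [(6, 22704), (7, 5726)], [(7, 4986), (8, 15647)], [(8, 6590)], [], []],
    [[3, 4], [6, 8], [9, 11, 12], [14, 16], [18, 20], [22, 24], [26, 28], [31, 32], [35, 36], [40], [44], [48], [52], [56], [60], [64]]⟩

theorem ok24 : chk cell24 = true := by decide +kernel

/-- Cell 25. -/
def cell25 : Cell :=
  ⟨28, 34, 576, 704, ⟨563317, 450090, 1412082, 1106742⟩,
    [[(2, 29468)], [(4, 29229)], [(5, 30343)], [(6, 24612), (7, 3608)], [(7, 19635), (8, 364)], [(8, 8045)], [], []],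
    [[4], [6, 8], [10, 12], [14, 16], [18, 20], [22, 24], [26, 28], [31, 32], [35, 36], [40], [44], [48], [52], [56], [60], [64]]⟩

theorem ok25 : chk cell25 = true := by decide +kernel

/-- Cell 26. -/
def cell26 : Cell :=
  ⟨34, 40, 576, 704, ⟨563209, 450004, 1364612, 1042213⟩,
    [[(2, 30157)], [(4, 28250)], [(5, 28916)], [(6, 23094), (7, 4647)], [(7, 17757), (8, 2967)], [(8, 7550)], [], []],
    [[4], [6, 8], [10, 12], [14, 16], [18, 20], [22, 24], [27, 28], [31, 32], [35, 36], [40], [44], [48], [52], [56], [60], [64]]⟩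

theorem ok26 : chk cell26 = true := by decide +kernel

/-- Cell 27. -/
def cell27 : Cell :=
  ⟨40, 64, 576, 704, ⟨495158, 395632, 1468355, 1173216⟩,
    [[(3, 18210), (4, 8246)], [(4, 26170)], [(5, 25560)], [(6, 25105)], [(7, 18817)], [(8, 6611)], [], []],
    [[4], [7, 8], [10, 12], [14, 16], [18, 20], [22, 24], [27, 28], [31, 32], [36], [40], [44], [48], [52], [56], [60], [64]]⟩

theorem ok27 : chk cell27 = true := by decide +kernel

/-- Cell 28. -/
def cell28 : Cell :=
  ⟨64, 112, 576, 864, ⟨426569, 340828, 1310109, 999431⟩,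
    [[(2, 10746), (3, 18199)], [(3, 12617), (4, 17024)], [(5, 27313)], [(6, 21158), (7, 333)], [(8, 15791)], [(8, 4945)], [], []],
    [[4], [7, 8], [11, 12], [14, 16], [18, 20], [23, 24], [27, 28], [31, 32], [36], [40], [44], [48], [52], [56], [60], [64]]⟩

theorem ok28 : chk cell28 = true := by decide +kernel

/-- Cell 29. -/
def cell29 : Cell :=
  ⟨112, 160, 576, 864, ⟨416204, 332547, 868902, 580767⟩,
    [[(2, 8266), (3, 16028)], [(4, 24781)], [(4, 12933), (5, 6585)], [(6, 15741)], [(8, 11052)], [(8, 1017)], [], []],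
    [[4], [8], [12], [15, 16], [19, 20], [23, 24], [27, 28], [32], [36], [40], [44], [48], [52], [56], [60], [64]]⟩

theorem ok29 : chk cell29 = true := by decide +kernel

end Pool.Agent.Lib.MP_084b88_gt.CT
end

section
/-!
# MP_084b88_gt, project CT: data of the certificate, group 4
-/
set_option autoImplicit false

namespace Pool.Agent.Lib.MP_084b88_gt.CT

/-- Cell 30. -/
def cell30 : Cell :=
  ⟨160, 256, 576, 864, ⟨326890, 261185, 706926, 453192⟩,
    [[(3, 7280), (4, 10228)], [(4, 17934)], [(4, 12458)], [(6, 7292)], [(8, 6163)], [(8, 1588)], [], []],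
    [[4], [8], [12], [16], [20], [24], [28], [32], [36], [40], [44], [48], [52], [56], [60], [64]]⟩

theorem ok30 : chk cell30 = true := by decide +kernel

/-- Cell 31. -/
def cell31 : Cell :=
  ⟨256, 864, 576, 864, ⟨113188, 90437, 639067, 416182⟩,
    [[(7, 1255)], [(7, 1248)], [], [], [], [], [], []],
    [[4], [8], [12], [16], [20], [24], [28], [32], [36], [40], [44], [48], [52], [56], [60], [64]]⟩

theorem ok31 : chk cell31 = true := by decide +kernel

/-- Cell 32. -/
def cell32 : Cell :=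
  ⟨22, 28, 704, 864, ⟨422480, 337562, 1548108, 1198201⟩,
    [[(0, 3275), (1, 30123)], [(3, 33470)], [(5, 34001)], [(6, 14923), (7, 14300)], [(8, 15842)], [], [], []],
    [[3, 4], [5, 6, 7, 8], [9, 10, 11, 12], [14, 16], [18, 20], [22, 24], [26, 28], [31, 32], [35, 36], [40], [44], [48], [52], [56], [60], [64]]⟩

theorem ok32 : chk cell32 = true := by decide +kernel

/-- Cell 33. -/
def cell33 : Cell :=
  ⟨28, 34, 704, 864, ⟨435076, 347626, 1471995, 1126710⟩,
    [[(1, 33093)], [(4, 32614)], [(4, 573), (5, 32205)], [(6, 26508), (7, 500)], [(8, 16958)], [], [], []],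
    [[3, 4], [6, 8], [9, 11, 12], [14, 16], [18, 20], [22, 24], [26, 28], [31, 32], [35, 36], [40], [44], [48], [52], [56], [60], [64]]⟩

theorem ok33 : chk cell33 = true := by decide +kernel

/-- Cell 34. -/
def cell34 : Cell :=
  ⟨34, 40, 704, 864, ⟨404934, 323542, 1485814, 1144655⟩,
    [[(1, 19286), (2, 11462)], [(3, 14234), (4, 15654)], [(4, 10502), (5, 19113)], [(6, 26533)], [(8, 15978)], [(8, 1424)], [], []],
    [[4], [6, 8], [10, 12], [14, 16], [18, 20], [22, 24], [26, 28], [31, 32], [35, 36], [40], [44], [48], [52], [56], [60], [64]]⟩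

theorem ok34 : chk cell34 = true := by decide +kernel

/-- Cell 35. -/
def cell35 : Cell :=
  ⟨40, 64, 704, 864, ⟨346576, 276914, 1593831, 1273471⟩,
    [[(2, 16709), (3, 11035)], [(3, 28677)], [(4, 4460), (5, 24804)], [(6, 24503)], [(8, 15106)], [(8, 4081)], [], []],
    [[4], [6, 8], [10, 12], [14, 16], [18, 20], [22, 24], [27, 28], [31, 32], [35, 36], [40], [44], [48], [52], [56], [60], [64]]⟩

theorem ok35 : chk cell35 = true := by decide +kernel

/-- Cell 36. -/
def cell36 : Cell :=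
  ⟨16, 22, 864, 1280, ⟨127667, 102006, 1743266, 1387705⟩,
    [[(0, 31778)], [(2, 7389), (3, 24475)], [(4, 30435), (5, 1536)], [(6, 12014), (7, 9792)], [(8, 8047)], [], [], []],
    [[2, 3, 4], [5, 6, 7, 8], [9, 10, 11, 12], [13, 14, 16], [18, 20], [22, 24], [26, 28], [31, 32], [35, 36], [40], [44], [48], [52], [56], [60], [64]]⟩

theorem ok36 : chk cell36 = true := by decide +kernel

/-- Cell 37. -/
def cell37 : Cell :=
  ⟨22, 28, 864, 1052, ⟨280031, 223745, 1575166, 1210482⟩,
    [[(0, 6448), (1, 27236)], [(2, 3305), (3, 30380)], [(4, 15568), (5, 19528)], [(6, 21684), (7, 3567)], [(8, 13362)], [], [], []],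
    [[3, 4], [5, 6, 7, 8], [9, 10, 11, 12], [13, 15, 16], [18, 20], [22, 24], [26, 28], [31, 32], [35, 36], [40], [44], [48], [52], [56], [60], [64]]⟩

theorem ok37 : chk cell37 = true := by decide +kernel

/-- Cell 38. -/
def cell38 : Cell :=
  ⟨28, 34, 864, 1052, ⟨293546, 234543, 1525978, 1164852⟩,
    [[(0, 5663), (1, 27982)], [(2, 3203), (3, 30442)], [(4, 22000), (5, 9575)], [(6, 19412), (7, 5499)], [(8, 12289)], [], [], []],
    [[3, 4], [6, 7, 8], [9, 10, 11, 12], [14, 16], [18, 20], [22, 24], [26, 28], [31, 32], [35, 36], [40], [44], [48], [52], [56], [60], [64]]⟩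

theorem ok38 : chk cell38 = true := by decide +kernel

/-- Cell 39. -/
def cell39 : Cell :=
  ⟨34, 40, 864, 1052, ⟨287349, 229592, 1531959, 1206720⟩,
    [[(1, 29702)], [(3, 30353)], [(4, 25415), (5, 3443)], [(6, 21842), (7, 1747)], [(8, 13476)], [], [], []],
    [[3, 4], [6, 8], [9, 10, 12], [14, 16], [18, 20], [22, 24], [26, 28], [31, 32], [35, 36], [40], [44], [48], [52], [56], [60], [64]]⟩

theorem ok39 : chk cell39 = true := by decide +kernel

end Pool.Agent.Lib.MP_084b88_gt.CT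
end

section
/-!
# MP_084b88_gt, project CT: data of the certificate, group 5
-/
set_option autoImplicit false

namespace Pool.Agent.Lib.MP_084b88_gt.CT

/-- Cell 40. -/
def cell40 : Cell :=
  ⟨40, 52, 864, 1052, ⟨226378, 180876, 1652055, 1314228⟩,
    [[(1, 30020)], [(2, 6135), (3, 23885)], [(4, 17633), (5, 11172)], [(6, 13575), (7, 9205)], [(8, 11325)], [], [], []],
    [[4], [6, 8], [10, 12], [14, 16], [18, 20], [22, 24], [26, 28], [31, 32], [35, 36], [40], [44], [48], [52], [56], [60], [64]]⟩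

theorem ok40 : chk cell40 = true := by decide +kernel

/-- Cell 41. -/
def cell41 : Cell :=
  ⟨52, 64, 864, 1052, ⟨249733, 199537, 1476667, 1154383⟩,
    [[(1, 28707)], [(2, 16933), (3, 11774)], [(4, 24395), (5, 2167)], [(6, 16013), (7, 5979)], [(8, 11389)], [], [], []],
    [[4], [6, 8], [10, 12], [14, 16], [18, 20], [22, 24], [27, 28], [31, 32], [35, 36], [40], [44], [48], [52], [56], [60], [64]]⟩

theorem ok41 : chk cell41 = true := by decide +kernel

/-- Cell 42. -/
def cell42 : Cell :=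
  ⟨64, 112, 864, 1280, ⟨120502, 96281, 1563549, 1249275⟩,
    [[(1, 26227)], [(3, 27070)], [(4, 15278), (5, 8176)], [(6, 6122), (7, 12387)], [(8, 7994)], [], [], []],
    [[4], [7, 8], [10, 12], [14, 16], [18, 20], [22, 24], [27, 28], [31, 32], [36], [40], [44], [48], [52], [56], [60], [64]]⟩

theorem ok42 : chk cell42 = true := by decide +kernel

/-- Cell 43. -/
def cell43 : Cell :=
  ⟨112, 160, 864, 1280, ⟨144875, 115755, 1118649, 854853⟩,
    [[(1, 20982)], [(2, 2031), (3, 19538)], [(4, 3350), (5, 15913)], [(7, 14299)], [(8, 6627)], [], [], []],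
    [[4], [7, 8], [11, 12], [14, 16], [19, 20], [23, 24], [27, 28], [31, 32], [36], [40], [44], [48], [52], [56], [60], [64]]⟩

theorem ok43 : chk cell43 = true := by decide +kernel

/-- Cell 44. -/
def cell44 : Cell :=
  ⟨160, 256, 864, 1280, ⟨139935, 111808, 809342, 607031⟩,
    [[(1, 14892)], [(2, 3356), (3, 11536)], [(5, 11100), (6, 3627)], [(7, 12411)], [(8, 5278)], [], [], []],
    [[4], [8], [12], [15, 16], [19, 20], [23, 24], [27, 28], [32], [36], [40], [44], [48], [52], [56], [60], [64]]⟩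

theorem ok44 : chk cell44 = true := by decide +kernel

/-- Cell 45. -/
def cell45 : Cell :=
  ⟨256, 1280, 864, 1280, ⟨0, 0, 656114, 524235⟩,
    [[(7, 695)], [(8, 584)], [], [], [], [], [], []],
    [[4], [8], [12], [16], [20], [24], [28], [32], [36], [40], [44], [48], [52], [56], [60], [64]]⟩

theorem ok45 : chk cell45 = true := by decide +kernel

/-- Cell 46. -/
def cell46 : Cell :=
  ⟨22, 28, 1052, 1280, ⟨151020, 120665, 1624062, 1292412⟩,
    [[(0, 28663), (1, 1186)], [(2, 29775)], [(4, 30661)], [(6, 7821), (7, 13634)], [(8, 10119)], [], [], []],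
    [[3, 4], [5, 6, 7, 8], [9, 10, 11, 12], [13, 14, 16], [18, 20], [22, 24], [26, 28], [31, 32], [35, 36], [40], [44], [48], [52], [56], [60], [64]]⟩

theorem ok46 : chk cell46 = true := by decide +kernel

/-- Cell 47. -/
def cell47 : Cell :=
  ⟨28, 34, 1052, 1280, ⟨172957, 138193, 1599678, 1262527⟩,
    [[(0, 21172), (1, 9545)], [(2, 23215), (3, 7502)], [(4, 30072)], [(6, 3477), (7, 17849)], [(8, 10039)], [], [], []],
    [[3, 4], [5, 6, 7, 8], [9, 10, 11, 12], [13, 15, 16], [18, 20], [22, 24], [26, 28], [31, 32], [35, 36], [40], [44], [48], [52], [56], [60], [64]]⟩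

theorem ok47 : chk cell47 = true := by decide +kernel

/-- Cell 48. -/
def cell48 : Cell :=
  ⟨34, 40, 1052, 1280, ⟨192577, 153869, 1505644, 1173316⟩,
    [[(0, 11522), (1, 18863)], [(2, 28164), (3, 2222)], [(4, 28617)], [(6, 14907), (7, 6365)], [(8, 10431)], [], [], []],
    [[3, 4], [5, 6, 7, 8], [9, 10, 11, 12], [14, 16], [18, 20], [22, 24], [26, 28], [31, 32], [35, 36], [40], [44], [48], [52], [56], [60], [64]]⟩

theorem ok48 : chk cell48 = true := by decide +kernel

/-- Cell 49. -/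
def cell49 : Cell :=
  ⟨40, 52, 1052, 1280, ⟨111423, 89027, 1696260, 1355312⟩,
    [[(0, 8950), (1, 19998)], [(2, 22894), (3, 6797)], [(4, 26857), (5, 635)], [(7, 19901)], [(8, 8584)], [], [], []],
    [[3, 4], [6, 8], [9, 11, 12], [14, 16], [18, 20], [22, 24], [26, 28], [31, 32], [35, 36], [40], [44], [48], [52], [56], [60], [64]]⟩

theorem ok49 : chk cell49 = true := by decide +kernel

end Pool.Agent.Lib.MP_084b88_gt.CT
end

section
/-!
# MP_084b88_gt, project CT: data of the certificate, group 6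
-/
set_option autoImplicit false

namespace Pool.Agent.Lib.MP_084b88_gt.CT

/-- Cell 50. -/
def cell50 : Cell :=
  ⟨52, 64, 1052, 1280, ⟨130049, 103909, 1569959, 1250816⟩,
    [[(1, 27706)], [(2, 23727), (3, 3979)], [(4, 20166), (5, 5704)], [(6, 7368), (7, 11245)], [(8, 7930)], [], [], []],
    [[4], [6, 8], [10, 12], [14, 16], [18, 20], [22, 24], [26, 28], [31, 32], [35, 36], [40], [44], [48], [52], [56], [60], [64]]⟩

theorem ok50 : chk cell50 = true := by decide +kernel

/-- Cell 51. -/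
def cell51 : Cell :=
  ⟨16, 22, 1280, 1920, ⟨0, 0, 1590770, 1226775⟩,
    [[(0, 36200)], [(2, 30706)], [(4, 20228), (5, 7130)], [(7, 13285)], [(8, 5210)], [], [], []],
    [[2, 3, 4], [5, 6, 7, 8], [9, 10, 11, 12], [13, 14, 15, 16], [18, 20], [22, 24], [26, 28], [31, 32], [35, 36], [40], [44], [48], [52], [56], [60], [64]]⟩

theorem ok51 : chk cell51 = true := by decide +kernel

/-- Cell 52. -/
def cell52 : Cell :=
  ⟨22, 28, 1280, 1568, ⟨13778, 819, 1734536, 1385895⟩,
    [[(0, 32392)], [(2, 32209)], [(4, 27460), (5, 1098)], [(7, 16226)], [(8, 5725)], [], [], []],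
    [[2, 3, 4], [5, 6, 7, 8], [9, 10, 11, 12], [13, 14, 16], [18, 20], [22, 24], [26, 28], [31, 32], [35, 36], [40], [44], [48], [52], [56], [60], [64]]⟩

theorem ok52 : chk cell52 = true := by decide +kernel

/-- Cell 53. -/
def cell53 : Cell :=
  ⟨28, 34, 1280, 1416, ⟨98913, 79031, 1614429, 1265782⟩,
    [[(0, 31527)], [(2, 31583)], [(4, 26828), (5, 2585)], [(7, 18599)], [(8, 8084)], [], [], []],
    [[3, 4], [5, 6, 7, 8], [9, 10, 11, 12], [13, 15, 16], [18, 20], [22, 24], [26, 28], [31, 32], [35, 36], [40], [44], [48], [52], [56], [60], [64]]⟩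

theorem ok53 : chk cell53 = true := by decide +kernel

/-- Cell 54. -/
def cell54 : Cell :=
  ⟨34, 40, 1280, 1568, ⟨55434, 44292, 1663049, 1324977⟩,
    [[(0, 30527)], [(2, 30034)], [(4, 26459)], [(7, 17426)], [(8, 5912)], [], [], []],
    [[3, 4], [5, 6, 7, 8], [9, 10, 11, 12], [13, 15, 16], [18, 20], [22, 24], [26, 28], [31, 32], [35, 36], [40], [44], [48], [52], [56], [60], [64]]⟩

theorem ok54 : chk cell54 = true := by decide +kernel

/-- Cell 55. -/
def cell55 : Cell :=
  ⟨40, 52, 1280, 1568, ⟨51772, 41366, 1619578, 1294042⟩,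
    [[(0, 21607), (1, 6091)], [(2, 28702)], [(4, 25357)], [(7, 16696)], [(8, 5582)], [], [], []],
    [[3, 4], [5, 6, 7, 8], [9, 10, 11, 12], [14, 16], [18, 20], [22, 24], [26, 28], [31, 32], [35, 36], [40], [44], [48], [52], [56], [60], [64]]⟩

theorem ok55 : chk cell55 = true := by decide +kernel

/-- Cell 56. -/
def cell56 : Cell :=
  ⟨52, 64, 1280, 1568, ⟨27074, 21632, 1618296, 1293019⟩,
    [[(0, 21039), (1, 5918)], [(2, 27981)], [(4, 10238), (5, 13803)], [(7, 15721)], [(8, 5666)], [], [], []],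
    [[3, 4], [6, 8], [10, 12], [14, 16], [18, 20], [22, 24], [26, 28], [31, 32], [35, 36], [40], [44], [48], [52], [56], [60], [64]]⟩

theorem ok56 : chk cell56 = true := by decide +kernel

/-- Cell 57. -/
def cell57 : Cell :=
  ⟨64, 112, 1280, 1920, ⟨0, 0, 1403529, 1121420⟩,
    [[(0, 1729), (1, 21544)], [(2, 23121)], [(5, 20229)], [(7, 11947)], [(8, 705)], [], [], []],
    [[4], [6, 8], [10, 12], [14, 16], [18, 20], [22, 24], [26, 28], [31, 32], [35, 36], [40], [44], [48], [52], [56], [60], [64]]⟩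

theorem ok57 : chk cell57 = true := by decide +kernel

/-- Cell 58. -/
def cell58 : Cell :=
  ⟨112, 160, 1280, 1920, ⟨0, 0, 1078333, 861588⟩,
    [[(0, 16502)], [(2, 16966)], [(5, 12821)], [(7, 9524)], [(8, 2979)], [], [], []],
    [[4], [7, 8], [10, 12], [14, 16], [18, 20], [22, 24], [27, 28], [31, 32], [36], [40], [44], [48], [52], [56], [60], [64]]⟩

theorem ok58 : chk cell58 = true := by decide +kernel

/-- Cell 59. -/
def cell59 : Cell :=
  ⟨160, 256, 1280, 1920, ⟨0, 0, 899504, 715818⟩,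
    [[(0, 12720)], [(3, 13208)], [(5, 10552)], [(7, 9188)], [(8, 2064)], [], [], []],
    [[4], [8], [11, 12], [14, 16], [19, 20], [23, 24], [27, 28], [31, 32], [36], [40], [44], [48], [52], [56], [60], [64]]⟩

theorem ok59 : chk cell59 = true := by decide +kernel

end Pool.Agent.Lib.MP_084b88_gt.CT
end

section
/-!
# MP_084b88_gt, project CT: data of the certificate, group 7
-/
set_option autoImplicit false

namespace Pool.Agent.Lib.MP_084b88_gt.CT

/-- Cell 60. -/
def cell60 : Cell :=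
  ⟨256, 1920, 1280, 1920, ⟨0, 0, 431243, 344563⟩,
    [[(8, 1327)], [(8, 1090)], [(8, 952)], [], [], [], [], []],
    [[4], [8], [12], [16], [20], [24], [28], [32], [36], [40], [44], [48], [52], [56], [60], [64]]⟩

theorem ok60 : chk cell60 = true := by decide +kernel

/-- Cell 61. -/
def cell61 : Cell :=
  ⟨28, 34, 1416, 1568, ⟨34570, 4976, 1625234, 1298562⟩,
    [[(0, 32659)], [(2, 32566)], [(4, 28647)], [(7, 16624)], [(8, 6380)], [], [], []],
    [[3, 4], [5, 6, 7, 8], [9, 10, 11, 12], [13, 14, 16], [18, 20], [22, 24], [26, 28], [31, 32], [35, 36], [40], [44], [48], [52], [56], [60], [64]]⟩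

theorem ok61 : chk cell61 = true := by decide +kernel

/-- Cell 62. -/
def cell62 : Cell :=
  ⟨22, 28, 1568, 1736, ⟨0, 0, 1642720, 1270441⟩,
    [[(0, 35113)], [(1, 7598), (2, 25045)], [(4, 25458), (5, 1677)], [(7, 15477)], [(8, 3407)], [], [], []],
    [[2, 3, 4], [5, 6, 7, 8], [9, 10, 11, 12], [13, 14, 16], [18, 20], [22, 24], [26, 28], [31, 32], [35, 36], [40], [44], [48], [52], [56], [60], [64]]⟩

theorem ok62 : chk cell62 = true := by decide +kernel

/-- Cell 63. -/
def cell63 : Cell :=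
  ⟨28, 34, 1568, 1736, ⟨0, 0, 1610116, 1257468⟩,
    [[(0, 32079)], [(1, 14769), (2, 16100)], [(4, 26191)], [(7, 15137)], [(8, 4576)], [], [], []],
    [[2, 3, 4], [5, 6, 7, 8], [9, 10, 11, 12], [13, 14, 16], [18, 20], [22, 24], [26, 28], [31, 32], [35, 36], [40], [44], [48], [52], [56], [60], [64]]⟩

theorem ok63 : chk cell63 = true := by decide +kernel

/-- Cell 64. -/
def cell64 : Cell :=
  ⟨34, 40, 1568, 1736, ⟨0, 0, 1606797, 1254193⟩,
    [[(0, 32107)], [(1, 5484), (2, 25362)], [(4, 23107), (5, 2147)], [(7, 15099)], [(8, 5285)], [], [], []],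
    [[3, 4], [5, 6, 7, 8], [9, 10, 11, 12], [13, 15, 16], [18, 20], [22, 24], [26, 28], [31, 32], [35, 36], [40], [44], [48], [52], [56], [60], [64]]⟩

theorem ok64 : chk cell64 = true := by decide +kernel

/-- Cell 65. -/
def cell65 : Cell :=
  ⟨40, 52, 1568, 1920, ⟨0, 0, 1552926, 1240788⟩,
    [[(0, 27886)], [(1, 11691), (2, 16195)], [(4, 9613), (5, 13867)], [(7, 12209)], [(8, 1149)], [], [], []],
    [[3, 4], [5, 6, 7, 8], [9, 10, 11, 12], [13, 15, 16], [18, 20], [22, 24], [26, 28], [31, 32], [35, 36], [40], [44], [48], [52], [56], [60], [64]]⟩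

theorem ok65 : chk cell65 = true := by decide +kernel

/-- Cell 66. -/
def cell66 : Cell :=
  ⟨52, 64, 1568, 1920, ⟨0, 0, 1460110, 1150278⟩,
    [[(0, 27120)], [(1, 12858), (2, 14261)], [(4, 6944), (5, 15227)], [(7, 12232)], [(8, 4011)], [], [], []],
    [[3, 4], [6, 7, 8], [9, 10, 11, 12], [14, 16], [18, 20], [22, 24], [26, 28], [31, 32], [35, 36], [40], [44], [48], [52], [56], [60], [64]]⟩

theorem ok66 : chk cell66 = true := by decide +kernel

/-- Cell 67. -/
def cell67 : Cell :=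
  ⟨22, 28, 1736, 1920, ⟨0, 0, 1511977, 1147414⟩,
    [[(0, 36188)], [(1, 14026), (2, 17907)], [(4, 19956), (5, 5988)], [(7, 12345)], [(8, 3762)], [], [], []],
    [[2, 3, 4], [5, 6, 7, 8], [9, 10, 11, 12], [13, 14, 15, 16], [18, 20], [22, 24], [26, 28], [31, 32], [35, 36], [40], [44], [48], [52], [56], [60], [64]]⟩

theorem ok67 : chk cell67 = true := by decide +kernel

/-- Cell 68. -/
def cell68 : Cell :=
  ⟨28, 31, 1736, 1920, ⟨0, 0, 1521025, 1154329⟩,
    [[(0, 36459)], [(1, 7164), (2, 24997)], [(4, 9411), (5, 16711)], [(7, 14903)], [(8, 3174)], [], [], []],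
    [[2, 3, 4], [5, 6, 7, 8], [9, 10, 11, 12], [13, 14, 16], [18, 20], [22, 24], [26, 28], [31, 32], [35, 36], [40], [44], [48], [52], [56], [60], [64]]⟩

theorem ok68 : chk cell68 = true := by decide +kernel

/-- Cell 69. -/
def cell69 : Cell :=
  ⟨31, 34, 1736, 1920, ⟨0, 0, 1523246, 1165166⟩,
    [[(0, 34951)], [(1, 7738), (2, 23749)], [(4, 10702), (5, 14455)], [(7, 14938)], [(8, 2607)], [], [], []],
    [[2, 3, 4], [5, 6, 7, 8], [9, 10, 11, 12], [13, 14, 16], [18, 20], [22, 24], [26, 28], [31, 32], [35, 36], [40], [44], [48], [52], [56], [60], [64]]⟩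

theorem ok69 : chk cell69 = true := by decide +kernel

end Pool.Agent.Lib.MP_084b88_gt.CT
end

section
/-!
# MP_084b88_gt, project CT: data of the certificate, group 8
-/
set_option autoImplicit false

namespace Pool.Agent.Lib.MP_084b88_gt.CT

/-- Cell 70. -/
def cell70 : Cell :=
  ⟨34, 40, 1736, 1920, ⟨0, 0, 1554532, 1216228⟩,
    [[(0, 31211)], [(1, 6351), (2, 23752)], [(5, 25839)], [(7, 12389)], [(8, 2013)], [], [], []],
    [[3, 4], [5, 6, 7, 8], [9, 10, 11, 12], [13, 14, 16], [18, 20], [22, 24], [26, 28], [31, 32], [35, 36], [40], [44], [48], [52], [56], [60], [64]]⟩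

theorem ok70 : chk cell70 = true := by decide +kernel

/-- Cell 71. -/
def cell71 : Cell :=
  ⟨16, 22, 1920, 2352, ⟨0, 0, 1374252, 1030733⟩,
    [[(0, 36374)], [(1, 17885), (2, 13040)], [(5, 24881)], [(7, 7644)], [], [], [], []],
    [[2, 3, 4], [5, 6, 7, 8], [9, 10, 11, 12], [13, 14, 15, 16], [18, 20], [22, 24], [26, 28], [31, 32], [35, 36], [40], [44], [48], [52], [56], [60], [64]]⟩

theorem ok71 : chk cell71 = true := by decide +kernel

/-- Cell 72. -/
def cell72 : Cell :=
  ⟨22, 28, 1920, 2124, ⟨0, 0, 1461787, 1106874⟩,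
    [[(0, 36489)], [(1, 8857), (2, 22853)], [(5, 25742)], [(7, 3485), (8, 3925)], [], [], [], []],
    [[2, 3, 4], [5, 6, 7, 8], [9, 10, 11, 12], [13, 14, 15, 16], [18, 20], [22, 24], [26, 28], [31, 32], [35, 36], [40], [44], [48], [52], [56], [60], [64]]⟩

theorem ok72 : chk cell72 = true := by decide +kernel

/-- Cell 73. -/
def cell73 : Cell :=
  ⟨28, 31, 1920, 2124, ⟨0, 0, 1433267, 1079090⟩,
    [[(0, 36666)], [(1, 9446), (2, 22027)], [(4, 6648), (5, 17953)], [(7, 11333)], [], [], [], []],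
    [[2, 3, 4], [5, 6, 7, 8], [9, 10, 11, 12], [13, 14, 16], [18, 20], [22, 24], [26, 28], [31, 32], [35, 36], [40], [44], [48], [52], [56], [60], [64]]⟩

theorem ok73 : chk cell73 = true := by decide +kernel

/-- Cell 74. -/
def cell74 : Cell :=
  ⟨31, 34, 1920, 2124, ⟨0, 0, 1440674, 1094615⟩,
    [[(0, 35189)], [(1, 8833), (2, 22037)], [(4, 7091), (5, 17399)], [(7, 11886)], [], [], [], []],
    [[2, 3, 4], [5, 6, 7, 8], [9, 10, 11, 12], [13, 14, 16], [18, 20], [22, 24], [26, 28], [31, 32], [35, 36], [40], [44], [48], [52], [56], [60], [64]]⟩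

theorem ok74 : chk cell74 = true := by decide +kernel

/-- Cell 75. -/
def cell75 : Cell :=
  ⟨34, 40, 1920, 2124, ⟨0, 0, 1450586, 1120499⟩,
    [[(0, 32332)], [(1, 12205), (2, 17451)], [(5, 24209)], [(7, 8749)], [], [], [], []],
    [[2, 3, 4], [5, 6, 7, 8], [9, 10, 11, 12], [13, 14, 16], [18, 20], [22, 24], [26, 28], [31, 32], [35, 36], [40], [44], [48], [52], [56], [60], [64]]⟩

theorem ok75 : chk cell75 = true := by decide +kernel

/-- Cell 76. -/
def cell76 : Cell :=
  ⟨40, 52, 1920, 2352, ⟨0, 0, 1359789, 1060786⟩,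
    [[(0, 28860)], [(1, 27277)], [(5, 21578)], [(8, 7943)], [], [], [], []],
    [[3, 4], [5, 6, 7, 8], [9, 10, 11, 12], [13, 14, 16], [18, 20], [22, 24], [26, 28], [31, 32], [35, 36], [40], [44], [48], [52], [56], [60], [64]]⟩

theorem ok76 : chk cell76 = true := by decide +kernel

/-- Cell 77. -/
def cell77 : Cell :=
  ⟨52, 64, 1920, 2352, ⟨0, 0, 1279040, 987963⟩,
    [[(0, 28355)], [(1, 24371), (2, 1767)], [(5, 19381)], [(7, 7622)], [], [], [], []],
    [[3, 4], [5, 6, 7, 8], [9, 10, 11, 12], [13, 15, 16], [18, 20], [22, 24], [26, 28], [31, 32], [35, 36], [40], [44], [48], [52], [56], [60], [64]]⟩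

theorem ok77 : chk cell77 = true := by decide +kernel

/-- Cell 78. -/
def cell78 : Cell :=
  ⟨64, 112, 1920, 2880, ⟨0, 0, 1043734, 812715⟩,
    [[(0, 21995)], [(2, 20779)], [(5, 13760)], [(8, 5579)], [], [], [], []],
    [[3, 4], [6, 7, 8], [9, 10, 12], [14, 16], [18, 20], [22, 24], [26, 28], [31, 32], [35, 36], [40], [44], [48], [52], [56], [60], [64]]⟩

theorem ok78 : chk cell78 = true := by decide +kernel

/-- Cell 79. -/
def cell79 : Cell :=
  ⟨112, 160, 1920, 2880, ⟨0, 0, 793424, 629527⟩,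
    [[(0, 14030)], [(2, 13833)], [(5, 10443)], [(8, 4402)], [], [], [], []],
    [[4], [6, 8], [10, 12], [14, 16], [18, 20], [22, 24], [26, 28], [31, 32], [35, 36], [40], [44], [48], [52], [56], [60], [64]]⟩

theorem ok79 : chk cell79 = true := by decide +kernel

end Pool.Agent.Lib.MP_084b88_gt.CT
end

section
/-!
# MP_084b88_gt, project CT: data of the certificate, group 9
-/
set_option autoImplicit false

namespace Pool.Agent.Lib.MP_084b88_gt.CT

/-- Cell 80. -/
def cell80 : Cell :=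
  ⟨160, 256, 1920, 2880, ⟨0, 0, 688185, 547747⟩,
    [[(0, 11325)], [(2, 5689), (3, 5438)], [(5, 9284), (6, 560)], [(8, 3659)], [(8, 136)], [], [], []],
    [[4], [7, 8], [10, 12], [14, 16], [18, 20], [22, 24], [27, 28], [31, 32], [36], [40], [44], [48], [52], [56], [60], [64]]⟩

theorem ok80 : chk cell80 = true := by decide +kernel

/-- Cell 81. -/
def cell81 : Cell :=
  ⟨256, 2880, 1920, 2880, ⟨0, 0, 260147, 207857⟩,
    [[(8, 877)], [(8, 833)], [(8, 459)], [(8, 263)], [], [], [], []],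
    [[4], [8], [12], [16], [20], [24], [28], [32], [36], [40], [44], [48], [52], [56], [60], [64]]⟩

theorem ok81 : chk cell81 = true := by decide +kernel

/-- Cell 82. -/
def cell82 : Cell :=
  ⟨22, 28, 2124, 2352, ⟨0, 0, 1329633, 988586⟩,
    [[(0, 36628)], [(1, 18308), (2, 12353)], [(5, 22058)], [(8, 6982)], [], [], [], []],
    [[2, 3, 4], [5, 6, 7, 8], [9, 10, 11, 12], [13, 14, 15, 16], [18, 20], [22, 24], [26, 28], [31, 32], [35, 36], [40], [44], [48], [52], [56], [60], [64]]⟩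

theorem ok82 : chk cell82 = true := by decide +kernel

/-- Cell 83. -/
def cell83 : Cell :=
  ⟨28, 34, 2124, 2352, ⟨0, 0, 1354224, 1022089⟩,
    [[(0, 34831)], [(1, 10389), (2, 19714)], [(5, 23646)], [(7, 2423), (8, 4772)], [], [], [], []],
    [[2, 3, 4], [5, 6, 7, 8], [9, 10, 11, 12], [13, 14, 15, 16], [18, 20], [22, 24], [26, 28], [31, 32], [35, 36], [40], [44], [48], [52], [56], [60], [64]]⟩

theorem ok83 : chk cell83 = true := by decide +kernel

/-- Cell 84. -/
def cell84 : Cell :=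
  ⟨34, 40, 2124, 2352, ⟨0, 0, 1319118, 994669⟩,
    [[(0, 33881)], [(1, 29269)], [(5, 22974)], [(7, 41), (8, 6982)], [], [], [], []],
    [[2, 3, 4], [5, 6, 7, 8], [9, 10, 11, 12], [13, 14, 16], [18, 20], [22, 24], [26, 28], [31, 32], [35, 36], [40], [44], [48], [52], [56], [60], [64]]⟩

theorem ok84 : chk cell84 = true := by decide +kernel

/-- Cell 85. -/
def cell85 : Cell :=
  ⟨16, 22, 2352, 2880, ⟨0, 0, 1125141, 792313⟩,
    [[(0, 39014)], [(1, 23450), (2, 6392)], [(5, 19179)], [(8, 6222)], [], [], [], []],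
    [[2, 3, 4], [5, 6, 7, 8], [9, 10, 11, 12], [13, 14, 15, 16], [18, 20], [22, 24], [26, 28], [31, 32], [35, 36], [40], [44], [48], [52], [56], [60], [64]]⟩

theorem ok85 : chk cell85 = true := by decide +kernel

/-- Cell 86. -/
def cell86 : Cell :=
  ⟨22, 28, 2352, 2604, ⟨0, 0, 1196032, 868071⟩,
    [[(0, 36731)], [(1, 27390), (2, 2069)], [(5, 20897)], [(8, 6437)], [], [], [], []],
    [[2, 3, 4], [5, 6, 7, 8], [9, 10, 11, 12], [13, 14, 15, 16], [18, 20], [22, 24], [26, 28], [31, 32], [35, 36], [40], [44], [48], [52], [56], [60], [64]]⟩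

theorem ok86 : chk cell86 = true := by decide +kernel

/-- Cell 87. -/
def cell87 : Cell :=
  ⟨28, 34, 2352, 2604, ⟨0, 0, 1238575, 919716⟩,
    [[(0, 34710)], [(1, 17083), (2, 11916)], [(5, 22298)], [(8, 6764)], [], [], [], []],
    [[2, 3, 4], [5, 6, 7, 8], [9, 10, 11, 12], [13, 14, 15, 16], [18, 20], [22, 24], [26, 28], [31, 32], [35, 36], [40], [44], [48], [52], [56], [60], [64]]⟩

theorem ok87 : chk cell87 = true := by decide +kernel

/-- Cell 88. -/
def cell88 : Cell :=
  ⟨34, 40, 2352, 2604, ⟨0, 0, 1216391, 902161⟩,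
    [[(0, 34149)], [(1, 29068)], [(5, 21879)], [(8, 6653)], [], [], [], []],
    [[2, 3, 4], [5, 6, 7, 8], [9, 10, 11, 12], [13, 14, 16], [18, 20], [22, 24], [26, 28], [31, 32], [35, 36], [40], [44], [48], [52], [56], [60], [64]]⟩

theorem ok88 : chk cell88 = true := by decide +kernel

/-- Cell 89. -/
def cell89 : Cell :=
  ⟨40, 52, 2352, 2880, ⟨0, 0, 1147770, 848446⟩,
    [[(0, 32570)], [(1, 28109)], [(5, 18729)], [(8, 6561)], [], [], [], []],
    [[2, 3, 4], [5, 6, 7, 8], [9, 10, 11, 12], [13, 14, 16], [18, 20], [22, 24], [26, 28], [31, 32], [35, 36], [40], [44], [48], [52], [56], [60], [64]]⟩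

theorem ok89 : chk cell89 = true := by decide +kernel

end Pool.Agent.Lib.MP_084b88_gt.CT
end

section
/-!
# MP_084b88_gt, project CT: data of the certificate, group 10
-/
set_option autoImplicit false

namespace Pool.Agent.Lib.MP_084b88_gt.CT

/-- Cell 90. -/
def cell90 : Cell :=
  ⟨52, 64, 2352, 2880, ⟨0, 0, 1083895, 806387⟩,
    [[(0, 29925)], [(1, 25163)], [(5, 16758)], [(8, 6192)], [], [], [], []],
    [[3, 4], [5, 6, 7, 8], [9, 10, 11, 12], [13, 15, 16], [18, 20], [22, 24], [26, 28], [31, 32], [35, 36], [40], [44], [48], [52], [56], [60], [64]]⟩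

theorem ok90 : chk cell90 = true := by decide +kernel

/-- Cell 91. -/
def cell91 : Cell :=
  ⟨22, 28, 2604, 2880, ⟨0, 0, 1128764, 811441⟩,
    [[(0, 36530)], [(1, 23190), (2, 5579)], [(5, 17992)], [(8, 6364)], [], [], [], []],
    [[2, 3, 4], [5, 6, 7, 8], [9, 10, 11, 12], [13, 14, 15, 16], [18, 20], [22, 24], [26, 28], [31, 32], [35, 36], [40], [44], [48], [52], [56], [60], [64]]⟩

theorem ok91 : chk cell91 = true := by decide +kernel

/-- Cell 92. -/
def cell92 : Cell :=
  ⟨28, 34, 2604, 2880, ⟨0, 0, 1138708, 828547⟩,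
    [[(0, 35190)], [(1, 28240), (2, 19)], [(5, 20089)], [(8, 6072)], [], [], [], []],
    [[2, 3, 4], [5, 6, 7, 8], [9, 10, 11, 12], [13, 14, 15, 16], [18, 20], [22, 24], [26, 28], [31, 32], [35, 36], [40], [44], [48], [52], [56], [60], [64]]⟩

theorem ok92 : chk cell92 = true := by decide +kernel

/-- Cell 93. -/
def cell93 : Cell :=
  ⟨34, 40, 2604, 2880, ⟨0, 0, 1104711, 796360⟩,
    [[(0, 35241)], [(1, 29154)], [(5, 19882)], [(8, 6270)], [], [], [], []],
    [[2, 3, 4], [5, 6, 7, 8], [9, 10, 11, 12], [13, 14, 15, 16], [18, 20], [22, 24], [26, 28], [31, 32], [35, 36], [40], [44], [48], [52], [56], [60], [64]]⟩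

theorem ok93 : chk cell93 = true := by decide +kernel

/-- Cell 94. -/
def cell94 : Cell :=
  ⟨16, 22, 2880, 3592, ⟨0, 0, 895895, 592392⟩,
    [[(0, 37770)], [(1, 27055)], [(5, 13194)], [(8, 5012)], [], [], [], []],
    [[2, 3, 4], [5, 6, 7, 8], [9, 10, 11, 12], [13, 14, 15, 16], [18, 20], [22, 24], [26, 28], [31, 32], [35, 36], [40], [44], [48], [52], [56], [60], [64]]⟩

theorem ok94 : chk cell94 = true := by decide +kernel

/-- Cell 95. -/
def cell95 : Cell :=
  ⟨22, 28, 2880, 3216, ⟨0, 0, 1044691, 736857⟩,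
    [[(0, 36341)], [(1, 18213), (2, 9815)], [(5, 15142)], [(8, 5998)], [], [], [], []],
    [[2, 3, 4], [5, 6, 7, 8], [9, 10, 11, 12], [13, 14, 15, 16], [18, 20], [22, 24], [26, 28], [31, 32], [35, 36], [40], [44], [48], [52], [56], [60], [64]]⟩

theorem ok95 : chk cell95 = true := by decide +kernel

/-- Cell 96. -/
def cell96 : Cell :=
  ⟨28, 34, 2880, 3216, ⟨0, 0, 1041112, 734852⟩,
    [[(0, 35609)], [(1, 27879)], [(5, 17216)], [(8, 6177)], [], [], [], []],
    [[2, 3, 4], [5, 6, 7, 8], [9, 10, 11, 12], [13, 14, 15, 16], [18, 20], [22, 24], [26, 28], [31, 32], [35, 36], [40], [44], [48], [52], [56], [60], [64]]⟩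

theorem ok96 : chk cell96 = true := by decide +kernel

/-- Cell 97. -/
def cell97 : Cell :=
  ⟨34, 40, 2880, 3216, ⟨0, 0, 1007242, 700176⟩,
    [[(0, 36607)], [(1, 28497)], [(5, 16789)], [(8, 5958)], [], [], [], []],
    [[2, 3, 4], [5, 6, 7, 8], [9, 10, 11, 12], [13, 14, 15, 16], [18, 20], [22, 24], [26, 28], [31, 32], [35, 36], [40], [44], [48], [52], [56], [60], [64]]⟩

theorem ok97 : chk cell97 = true := by decide +kernel

/-- Cell 98. -/
def cell98 : Cell :=
  ⟨40, 52, 2880, 3592, ⟨0, 0, 957337, 677085⟩,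
    [[(0, 32837)], [(1, 26293)], [(5, 14086)], [(8, 5780)], [], [], [], []],
    [[2, 3, 4], [5, 6, 7, 8], [9, 10, 11, 12], [13, 14, 15, 16], [18, 20], [22, 24], [26, 28], [31, 32], [35, 36], [40], [44], [48], [52], [56], [60], [64]]⟩

theorem ok98 : chk cell98 = true := by decide +kernel

/-- Cell 99. -/
def cell99 : Cell :=
  ⟨52, 64, 2880, 3592, ⟨0, 0, 897668, 630980⟩,
    [[(0, 31060)], [(1, 24069)], [(5, 13315)], [(8, 5507)], [], [], [], []],
    [[2, 3, 4], [5, 6, 7, 8], [9, 10, 11, 12], [13, 14, 16], [18, 20], [22, 24], [26, 28], [31, 32], [35, 36], [40], [44], [48], [52], [56], [60], [64]]⟩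

theorem ok99 : chk cell99 = true := by decide +kernel

end Pool.Agent.Lib.MP_084b88_gt.CT
end

section
/-!
# MP_084b88_gt, project CT: data of the certificate, group 11
-/
set_option autoImplicit false

namespace Pool.Agent.Lib.MP_084b88_gt.CT

/-- Cell 100. -/
def cell100 : Cell :=
  ⟨64, 160, 2880, 4480, ⟨0, 0, 650405, 491549⟩,
    [[(0, 16862)], [(2, 14207)], [(6, 9733)], [(8, 3685)], [], [], [], []],
    [[3, 4], [5, 6, 7, 8], [9, 10, 11, 12], [14, 16], [18, 20], [22, 24], [26, 28], [31, 32], [35, 36], [40], [44], [48], [52], [56], [60], [64]]⟩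

theorem ok100 : chk cell100 = true := by decide +kernel

/-- Cell 101. -/
def cell101 : Cell :=
  ⟨160, 256, 2880, 4480, ⟨0, 0, 475762, 370342⟩,
    [[(0, 9319)], [(2, 8961)], [(6, 7355)], [(8, 3080)], [], [], [], []],
    [[4], [6, 8], [10, 12], [14, 16], [18, 20], [22, 24], [26, 28], [31, 32], [35, 36], [40], [44], [48], [52], [56], [60], [64]]⟩

theorem ok101 : chk cell101 = true := by decide +kernel

/-- Cell 102. -/
def cell102 : Cell :=
  ⟨256, 4480, 2880, 4480, ⟨0, 0, 142666, 113990⟩,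
    [[(8, 949)], [(8, 616)], [(8, 616)], [(8, 268)], [], [], [], []],
    [[4], [8], [12], [16], [20], [24], [28], [32], [36], [40], [44], [48], [52], [56], [60], [64]]⟩

theorem ok102 : chk cell102 = true := by decide +kernel

/-- Cell 103. -/
def cell103 : Cell :=
  ⟨22, 28, 3216, 3592, ⟨0, 0, 901007, 596495⟩,
    [[(0, 38039)], [(1, 17225), (2, 9970)], [(5, 14917)], [(8, 5196)], [], [], [], []],
    [[2, 3, 4], [5, 6, 7, 8], [9, 10, 11, 12], [13, 14, 15, 16], [18, 20], [22, 24], [26, 28], [31, 32], [35, 36], [40], [44], [48], [52], [56], [60], [64]]⟩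

theorem ok103 : chk cell103 = true := by decide +kernel

/-- Cell 104. -/
def cell104 : Cell :=
  ⟨28, 34, 3216, 3592, ⟨0, 0, 929267, 627020⟩,
    [[(0, 36749)], [(1, 27191)], [(5, 14707)], [(8, 5389)], [], [], [], []],
    [[2, 3, 4], [5, 6, 7, 8], [9, 10, 11, 12], [13, 14, 15, 16], [18, 20], [22, 24], [26, 28], [31, 32], [35, 36], [40], [44], [48], [52], [56], [60], [64]]⟩

theorem ok104 : chk cell104 = true := by decide +kernel

/-- Cell 105. -/
def cell105 : Cell :=
  ⟨34, 40, 3216, 3592, ⟨0, 0, 889572, 587426⟩,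
    [[(0, 37754)], [(1, 27513)], [(5, 15322)], [(8, 5138)], [], [], [], []],
    [[2, 3, 4], [5, 6, 7, 8], [9, 10, 11, 12], [13, 14, 15, 16], [18, 20], [22, 24], [26, 28], [31, 32], [35, 36], [40], [44], [48], [52], [56], [60], [64]]⟩

theorem ok105 : chk cell105 = true := by decide +kernel

/-- Cell 106. -/
def cell106 : Cell :=
  ⟨16, 22, 3592, 4480, ⟨0, 0, 673819, 400783⟩,
    [[(0, 35906)], [(1, 24322)], [(5, 11931)], [(8, 4051)], [], [], [], []],
    [[1, 2, 3, 4], [5, 6, 7, 8], [9, 10, 11, 12], [13, 14, 15, 16], [18, 20], [22, 24], [26, 28], [31, 32], [35, 36], [40], [44], [48], [52], [56], [60], [64]]⟩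

theorem ok106 : chk cell106 = true := by decide +kernel

/-- Cell 107. -/
def cell107 : Cell :=
  ⟨22, 28, 3592, 4012, ⟨0, 0, 813878, 520657⟩,
    [[(0, 37612)], [(1, 12599), (2, 13728)], [(5, 12728)], [(8, 4811)], [], [], [], []],
    [[2, 3, 4], [5, 6, 7, 8], [9, 10, 11, 12], [13, 14, 15, 16], [18, 20], [22, 24], [26, 28], [31, 32], [35, 36], [40], [44], [48], [52], [56], [60], [64]]⟩

theorem ok107 : chk cell107 = true := by decide +kernel

/-- Cell 108. -/
def cell108 : Cell :=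
  ⟨28, 34, 3592, 4012, ⟨0, 0, 816429, 520495⟩,
    [[(0, 37586)], [(1, 26560)], [(5, 13713)], [(8, 4810)], [], [], [], []],
    [[2, 3, 4], [5, 6, 7, 8], [9, 10, 11, 12], [13, 14, 15, 16], [18, 20], [22, 24], [26, 28], [31, 32], [35, 36], [40], [44], [48], [52], [56], [60], [64]]⟩

theorem ok108 : chk cell108 = true := by decide +kernel

/-- Cell 109. -/
def cell109 : Cell :=
  ⟨34, 40, 3592, 4480, ⟨0, 0, 772643, 494948⟩,
    [[(0, 35639)], [(1, 25883)], [(5, 12707)], [(8, 4909)], [], [], [], []],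
    [[2, 3, 4], [5, 6, 7, 8], [9, 10, 11, 12], [13, 14, 15, 16], [18, 20], [22, 24], [26, 28], [31, 32], [35, 36], [40], [44], [48], [52], [56], [60], [64]]⟩

theorem ok109 : chk cell109 = true := by decide +kernel

end Pool.Agent.Lib.MP_084b88_gt.CT
end

section
/-!
# MP_084b88_gt, project CT: data of the certificate, group 12
-/
set_option autoImplicit false

namespace Pool.Agent.Lib.MP_084b88_gt.CT

/-- Cell 110. -/
def cell110 : Cell :=
  ⟨40, 64, 3592, 4480, ⟨0, 0, 741851, 483617⟩,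
    [[(0, 32596)], [(1, 23319)], [(5, 10750)], [(8, 4634)], [], [], [], []],
    [[2, 3, 4], [5, 6, 7, 8], [9, 10, 11, 12], [13, 14, 15, 16], [18, 20], [22, 24], [26, 28], [31, 32], [35, 36], [40], [44], [48], [52], [56], [60], [64]]⟩

theorem ok110 : chk cell110 = true := by decide +kernel

/-- Cell 111. -/
def cell111 : Cell :=
  ⟨22, 28, 4012, 4480, ⟨0, 0, 702072, 416936⟩,
    [[(0, 37921)], [(1, 15620), (2, 9679)], [(5, 12447)], [(8, 4210)], [], [], [], []],
    [[2, 3, 4], [5, 6, 7, 8], [9, 10, 11, 12], [13, 14, 15, 16], [18, 20], [22, 24], [26, 28], [31, 32], [35, 36], [40], [44], [48], [52], [56], [60], [64]]⟩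

theorem ok111 : chk cell111 = true := by decide +kernel

/-- Cell 112. -/
def cell112 : Cell :=
  ⟨28, 34, 4012, 4480, ⟨0, 0, 707791, 421550⟩,
    [[(0, 37922)], [(1, 25313)], [(5, 12927)], [(8, 4240)], [], [], [], []],
    [[2, 3, 4], [5, 6, 7, 8], [9, 10, 11, 12], [13, 14, 15, 16], [18, 20], [22, 24], [26, 28], [31, 32], [35, 36], [40], [44], [48], [52], [56], [60], [64]]⟩

theorem ok112 : chk cell112 = true := by decide +kernel

/-- Cell 113. -/
def cell113 : Cell :=
  ⟨16, 22, 4480, 5616, ⟨0, 0, 506205, 242939⟩,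
    [[(0, 36821)], [(2, 22732)], [(5, 9304)], [(8, 2967)], [], [], [], []],
    [[1, 2, 3, 4], [5, 6, 7, 8], [9, 10, 11, 12], [13, 14, 15, 16], [18, 20], [22, 24], [26, 28], [31, 32], [35, 36], [40], [44], [48], [52], [56], [60], [64]]⟩

theorem ok113 : chk cell113 = true := by decide +kernel

/-- Cell 114. -/
def cell114 : Cell :=
  ⟨22, 28, 4480, 5616, ⟨0, 0, 593997, 325093⟩,
    [[(0, 36856)], [(1, 3535), (2, 20242)], [(5, 8875)], [(8, 3670)], [], [], [], []],
    [[2, 3, 4], [5, 6, 7, 8], [9, 10, 11, 12], [13, 14, 15, 16], [18, 20], [22, 24], [26, 28], [31, 32], [35, 36], [40], [44], [48], [52], [56], [60], [64]]⟩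

theorem ok114 : chk cell114 = true := by decide +kernel

/-- Cell 115. -/
def cell115 : Cell :=
  ⟨28, 40, 4480, 5616, ⟨0, 0, 614148, 356944⟩,
    [[(0, 34626)], [(1, 18477), (2, 4491)], [(5, 10231)], [(8, 4121)], [], [], [], []],
    [[2, 3, 4], [5, 6, 7, 8], [9, 10, 11, 12], [13, 14, 15, 16], [18, 20], [22, 24], [26, 28], [31, 32], [35, 36], [40], [44], [48], [52], [56], [60], [64]]⟩

theorem ok115 : chk cell115 = true := by decide +kernel

/-- Cell 116. -/
def cell116 : Cell :=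
  ⟨40, 64, 4480, 5616, ⟨0, 0, 580148, 344084⟩,
    [[(0, 31346)], [(1, 17073), (2, 3997)], [(5, 9394)], [(8, 3779)], [], [], [], []],
    [[2, 3, 4], [5, 6, 7, 8], [9, 10, 11, 12], [13, 14, 15, 16], [18, 20], [22, 24], [26, 28], [31, 32], [35, 36], [40], [44], [48], [52], [56], [60], [64]]⟩

theorem ok116 : chk cell116 = true := by decide +kernel

/-- Cell 117. -/
def cell117 : Cell :=
  ⟨64, 160, 4480, 7040, ⟨0, 0, 369745, 238773⟩,
    [[(0, 16004)], [(2, 11794)], [(6, 5459)], [(8, 1284)], [], [], [], []],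
    [[3, 4], [5, 6, 7, 8], [9, 10, 11, 12], [13, 14, 16], [18, 20], [22, 24], [26, 28], [31, 32], [35, 36], [40], [44], [48], [52], [56], [60], [64]]⟩

theorem ok117 : chk cell117 = true := by decide +kernel

/-- Cell 118. -/
def cell118 : Cell :=
  ⟨160, 256, 4480, 7040, ⟨0, 0, 306428, 235020⟩,
    [[(0, 6779)], [(2, 6768)], [(6, 4596)], [(8, 1370)], [], [], [], []],
    [[3, 4], [6, 7, 8], [9, 10, 11, 12], [14, 16], [18, 20], [22, 24], [26, 28], [31, 32], [35, 36], [40], [44], [48], [52], [56], [60], [64]]⟩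

theorem ok118 : chk cell118 = true := by decide +kernel

/-- Cell 119. -/
def cell119 : Cell :=
  ⟨256, 7040, 4480, 7040, ⟨0, 0, 40701, 32520⟩,
    [[], [], [], [], [], [], [], []],
    [[4], [8], [12], [16], [20], [24], [28], [32], [36], [40], [44], [48], [52], [56], [60], [64]]⟩

theorem ok119 : chk cell119 = true := by decide +kernel

end Pool.Agent.Lib.MP_084b88_gt.CT
end

section
/-!
# MP_084b88_gt, project CT: data of the certificate, group 13
-/
set_option autoImplicit false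

namespace Pool.Agent.Lib.MP_084b88_gt.CT

/-- Cell 120. -/
def cell120 : Cell :=
  ⟨16, 22, 5616, 7040, ⟨0, 0, 363898, 106907⟩,
    [[(0, 38074)], [(2, 19964)], [(5, 7174)], [(8, 1685)], [], [], [], []],
    [[1, 2, 3, 4], [5, 6, 7, 8], [9, 10, 11, 12], [13, 14, 15, 16], [18, 20], [22, 24], [26, 28], [31, 32], [35, 36], [40], [44], [48], [52], [56], [60], [64]]⟩

theorem ok120 : chk cell120 = true := by decide +kernel

/-- Cell 121. -/
def cell121 : Cell :=
  ⟨22, 28, 5616, 7040, ⟨0, 0, 448007, 192503⟩,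
    [[(0, 37012)], [(2, 21610)], [(5, 8281)], [(8, 3102)], [], [], [], []],
    [[1, 2, 3, 4], [5, 6, 7, 8], [9, 10, 11, 12], [13, 14, 15, 16], [18, 20], [22, 24], [26, 28], [31, 32], [35, 36], [40], [44], [48], [52], [56], [60], [64]]⟩

theorem ok121 : chk cell121 = true := by decide +kernel

/-- Cell 122. -/
def cell122 : Cell :=
  ⟨28, 40, 5616, 7040, ⟨0, 0, 464990, 219932⟩,
    [[(0, 34767)], [(2, 21789)], [(5, 8056)], [(8, 3263)], [], [], [], []],
    [[2, 3, 4], [5, 6, 7, 8], [9, 10, 11, 12], [13, 14, 15, 16], [18, 20], [22, 24], [26, 28], [31, 32], [35, 36], [40], [44], [48], [52], [56], [60], [64]]⟩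

theorem ok122 : chk cell122 = true := by decide +kernel

/-- Cell 123. -/
def cell123 : Cell :=
  ⟨40, 64, 5616, 7040, ⟨0, 0, 442578, 222050⟩,
    [[(0, 31093)], [(2, 19414)], [(5, 8060)], [(8, 3275)], [], [], [], []],
    [[2, 3, 4], [5, 6, 7, 8], [9, 10, 11, 12], [13, 14, 15, 16], [18, 20], [22, 24], [26, 28], [31, 32], [35, 36], [40], [44], [48], [52], [56], [60], [64]]⟩

theorem ok123 : chk cell123 = true := by decide +kernel

/-- Cell 124. -/
def cell124 : Cell :=
  ⟨16, 22, 7040, 9004, ⟨0, 0, 271599, 32955⟩,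
    [[(0, 36547)], [(2, 15865)], [(5, 5662)], [(8, 712)], [], [], [], []],
    [[1, 2, 3, 4], [5, 6, 7, 8], [9, 10, 11, 12], [13, 14, 15, 16], [18, 20], [22, 24], [26, 28], [31, 32], [35, 36], [40], [44], [48], [52], [56], [60], [64]]⟩

theorem ok124 : chk cell124 = true := by decide +kernel

/-- Cell 125. -/
def cell125 : Cell :=
  ⟨22, 28, 7040, 9004, ⟨0, 0, 331713, 96363⟩,
    [[(0, 35354)], [(2, 17527)], [(5, 6470)], [(8, 1796)], [], [], [], []],
    [[1, 2, 3, 4], [5, 6, 7, 8], [9, 10, 11, 12], [13, 14, 15, 16], [18, 20], [22, 24], [26, 28], [31, 32], [35, 36], [40], [44], [48], [52], [56], [60], [64]]⟩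

theorem ok125 : chk cell125 = true := by decide +kernel

/-- Cell 126. -/
def cell126 : Cell :=
  ⟨28, 40, 7040, 9004, ⟨0, 0, 338740, 115485⟩,
    [[(0, 33227)], [(2, 17522)], [(5, 7467)], [(8, 2040)], [], [], [], []],
    [[1, 2, 3, 4], [5, 6, 7, 8], [9, 10, 11, 12], [13, 14, 15, 16], [18, 20], [22, 24], [26, 28], [31, 32], [35, 36], [40], [44], [48], [52], [56], [60], [64]]⟩

theorem ok126 : chk cell126 = true := by decide +kernel

/-- Cell 127. -/
def cell127 : Cell :=
  ⟨40, 64, 7040, 11520, ⟨0, 0, 316509, 144079⟩,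
    [[(0, 24936)], [(2, 13474)], [(6, 5193)], [(8, 814)], [], [], [], []],
    [[2, 3, 4], [5, 6, 7, 8], [9, 10, 11, 12], [13, 14, 15, 16], [18, 20], [22, 24], [26, 28], [31, 32], [35, 36], [40], [44], [48], [52], [56], [60], [64]]⟩

theorem ok127 : chk cell127 = true := by decide +kernel

/-- Cell 128. -/
def cell128 : Cell :=
  ⟨64, 256, 7040, 11520, ⟨0, 0, 204410, 150084⟩,
    [[(0, 5429)], [(2, 4992)], [(6, 907), (7, 2553)], [], [], [], [], []],
    [[2, 3, 4], [5, 6, 7, 8], [9, 10, 11, 12], [13, 14, 16], [18, 20], [22, 24], [26, 28], [31, 32], [35, 36], [40], [44], [48], [52], [56], [60], [64]]⟩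

theorem ok128 : chk cell128 = true := by decide +kernel

/-- Cell 129. -/
def cell129 : Cell :=
  ⟨256, 11520, 7040, 11520, ⟨0, 0, 0, 0⟩,
    [[], [], [], [], [], [], [(0, 13)], []],
    [[4], [8], [12], [16], [20], [24], [28], [32], [36], [40], [44], [48], [52], [56], [60], [64]]⟩

theorem ok129 : chk cell129 = true := by decide +kernel

end Pool.Agent.Lib.MP_084b88_gt.CT
end

section
/-!
# MP_084b88_gt, project CT: data of the certificate, group 14
-/
set_option autoImplicit false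

namespace Pool.Agent.Lib.MP_084b88_gt.CT

/-- Cell 130. -/
def cell130 : Cell :=
  ⟨16, 22, 9004, 11520, ⟨0, 0, 205057, 0⟩,
    [[(0, 33903)], [(2, 9956)], [(5, 1094), (6, 3450)], [], [], [], [], []],
    [[1, 2, 3, 4], [5, 6, 7, 8], [9, 10, 11, 12], [13, 14, 15, 16], [18, 20], [22, 24], [26, 28], [31, 32], [35, 36], [40], [44], [48], [52], [56], [60], [64]]⟩

theorem ok130 : chk cell130 = true := by decide +kernel

/-- Cell 131. -/
def cell131 : Cell :=
  ⟨22, 28, 9004, 11520, ⟨0, 0, 236840, 31050⟩,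
    [[(0, 32449)], [(2, 13718)], [(5, 4942)], [(8, 1227)], [], [], [], []],
    [[1, 2, 3, 4], [5, 6, 7, 8], [9, 10, 11, 12], [13, 14, 15, 16], [18, 20], [22, 24], [26, 28], [31, 32], [35, 36], [40], [44], [48], [52], [56], [60], [64]]⟩

theorem ok131 : chk cell131 = true := by decide +kernel

/-- Cell 132. -/
def cell132 : Cell :=
  ⟨28, 40, 9004, 11520, ⟨0, 0, 245313, 45119⟩,
    [[(0, 31009)], [(2, 13729)], [(5, 5699)], [(8, 1661)], [], [], [], []],
    [[1, 2, 3, 4], [5, 6, 7, 8], [9, 10, 11, 12], [13, 14, 15, 16], [18, 20], [22, 24], [26, 28], [31, 32], [35, 36], [40], [44], [48], [52], [56], [60], [64]]⟩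

theorem ok132 : chk cell132 = true := by decide +kernel

/-- Cell 133. -/
def cell133 : Cell :=
  ⟨16, 22, 11520, 17348, ⟨0, 0, 126982, 0⟩,
    [[(0, 22914)], [(2, 6160)], [(6, 2374)], [], [], [], [], []],
    [[1, 2, 3, 4], [5, 6, 7, 8], [9, 10, 11, 12], [13, 14, 15, 16], [18, 20], [22, 24], [26, 28], [31, 32], [35, 36], [40], [44], [48], [52], [56], [60], [64]]⟩

theorem ok133 : chk cell133 = true := by decide +kernel

/-- Cell 134. -/
def cell134 : Cell :=
  ⟨22, 28, 11520, 17348, ⟨0, 0, 161704, 19423⟩,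
    [[(0, 22158)], [(2, 8193)], [(6, 3887)], [(8, 38)], [], [], [], []],
    [[1, 2, 3, 4], [5, 6, 7, 8], [9, 10, 11, 12], [13, 14, 15, 16], [18, 20], [22, 24], [26, 28], [31, 32], [35, 36], [40], [44], [48], [52], [56], [60], [64]]⟩

theorem ok134 : chk cell134 = true := by decide +kernel

/-- Cell 135. -/
def cell135 : Cell :=
  ⟨28, 40, 11520, 17348, ⟨0, 0, 164481, 28674⟩,
    [[(0, 20984)], [(2, 9236)], [(6, 3899)], [(8, 59)], [], [], [], []],
    [[1, 2, 3, 4], [5, 6, 7, 8], [9, 10, 11, 12], [13, 14, 15, 16], [18, 20], [22, 24], [26, 28], [31, 32], [35, 36], [40], [44], [48], [52], [56], [60], [64]]⟩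

theorem ok135 : chk cell135 = true := by decide +kernel

/-- Cell 136. -/
def cell136 : Cell :=
  ⟨40, 64, 11520, 17348, ⟨0, 0, 164697, 51577⟩,
    [[(0, 17074)], [(2, 7878)], [(6, 3830)], [], [], [], [], []],
    [[1, 2, 3, 4], [5, 6, 7, 8], [9, 10, 11, 12], [13, 14, 15, 16], [18, 20], [22, 24], [26, 28], [31, 32], [35, 36], [40], [44], [48], [52], [56], [60], [64]]⟩

theorem ok136 : chk cell136 = true := by decide +kernel

/-- Cell 137. -/
def cell137 : Cell :=
  ⟨64, 160, 11520, 17348, ⟨0, 0, 108559, 45602⟩,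
    [[(0, 9103)], [(2, 4057)], [(6, 1643), (7, 252)], [], [], [], [], []],
    [[2, 3, 4], [5, 6, 7, 8], [9, 10, 11, 12], [13, 14, 15, 16], [18, 20], [22, 24], [26, 28], [31, 32], [35, 36], [40], [44], [48], [52], [56], [60], [64]]⟩

theorem ok137 : chk cell137 = true := by decide +kernel

/-- Cell 138. -/
def cell138 : Cell :=
  ⟨160, 256, 11520, 26128, ⟨0, 0, 80450, 46854⟩,
    [[(0, 4462)], [(1, 639)], [], [], [], [], [], []],
    [[2, 3, 4], [5, 6, 7, 8], [9, 10, 11, 12], [13, 14, 15, 16], [18, 20], [22, 24], [26, 28], [31, 32], [35, 36], [40], [44], [48], [52], [56], [60], [64]]⟩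

theorem ok138 : chk cell138 = true := by decide +kernel

/-- Cell 139. -/
def cell139 : Cell :=
  ⟨256, 13192, 11520, 26128, ⟨11228, 0, 51, 0⟩,
    [[], [], [], [], [], [], [], []],
    [[4], [8], [12], [16], [20], [24], [28], [32], [36], [40], [44], [48], [52], [56], [60], [64]]⟩

theorem ok139 : chk cell139 = true := by decide +kernel

end Pool.Agent.Lib.MP_084b88_gt.CT
end

section
/-!
# MP_084b88_gt, project CT: data of the certificate, group 15
-/
set_option autoImplicit false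

namespace Pool.Agent.Lib.MP_084b88_gt.CT

/-- Cell 140. -/
def cell140 : Cell :=
  ⟨13192, 26128, 11520, 26128, ⟨11371, 0, 1522, 1216⟩,
    [[], [], [], [], [], [], [], []],
    [[4], [8], [12], [16], [20], [24], [28], [32], [36], [40], [44], [48], [52], [56], [60], [64]]⟩

theorem ok140 : chk cell140 = true := by decide +kernel

/-- Cell 141. -/
def cell141 : Cell :=
  ⟨16, 28, 17348, 26128, ⟨0, 0, 59614, 47631⟩,
    [[(2, 25955)], [(2, 2660)], [(4, 369)], [], [], [], [], []],
    [[1, 2, 3, 4], [5, 6, 7, 8], [9, 10, 11, 12], [13, 14, 15, 16], [18, 20], [22, 24], [26, 28], [31, 32], [35, 36], [40], [44], [48], [52], [56], [60], [64]]⟩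

theorem ok141 : chk cell141 = true := by decide +kernel

/-- Cell 142. -/
def cell142 : Cell :=
  ⟨28, 40, 17348, 26128, ⟨0, 0, 58579, 46805⟩,
    [[(2, 38313)], [(2, 2580)], [(4, 349)], [], [], [], [], []],
    [[1, 2, 3, 4], [5, 6, 7, 8], [9, 10, 11, 12], [13, 14, 15, 16], [18, 20], [22, 24], [26, 28], [31, 32], [35, 36], [40], [44], [48], [52], [56], [60], [64]]⟩

theorem ok142 : chk cell142 = true := by decide +kernel

/-- Cell 143. -/
def cell143 : Cell :=
  ⟨40, 64, 17348, 26128, ⟨0, 0, 61889, 49449⟩,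
    [[(2, 34498)], [(2, 2246)], [(4, 413)], [], [], [], [], []],
    [[1, 2, 3, 4], [5, 6, 7, 8], [9, 10, 11, 12], [13, 14, 15, 16], [18, 20], [22, 24], [26, 28], [31, 32], [35, 36], [40], [44], [48], [52], [56], [60], [64]]⟩

theorem ok143 : chk cell143 = true := by decide +kernel

/-- Cell 144. -/
def cell144 : Cell :=
  ⟨64, 160, 17348, 26128, ⟨0, 0, 57521, 45959⟩,
    [[(2, 27296)], [(2, 2903)], [(4, 329)], [], [], [], [], []],
    [[2, 3, 4], [5, 6, 7, 8], [9, 10, 11, 12], [13, 14, 15, 16], [18, 20], [22, 24], [26, 28], [31, 32], [35, 36], [40], [44], [48], [52], [56], [60], [64]]⟩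

theorem ok144 : chk cell144 = true := by decide +kernel

end Pool.Agent.Lib.MP_084b88_gt.CT
end

section
/-!
# MP_084b88_gt, project CT: the cells cover the parameter domain
-/
set_option autoImplicit false

namespace Pool.Agent.Lib.MP_084b88_gt.CT

/-- A property of `(A, B)` on a box (scale `64`). -/
def CVRM.Qb (G : ℝ → ℝ → Prop) (a1 a2 b1 b2 : ℕ) : Prop :=
  ∀ A B : ℝ, (a1 : ℝ) ≤ 64 * A → 64 * A ≤ (a2 : ℝ) → (b1 : ℝ) ≤ 64 * B → 64 * B ≤ (b2 : ℝ) → G A B

theorem CVRM.spA {G : ℝ → ℝ → Prop} {a1 a2 b1 b2 : ℕ} (m : ℕ) (h1 : CVRM.Qb G a1 m b1 b2)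
    (h2 : CVRM.Qb G m a2 b1 b2) : CVRM.Qb G a1 a2 b1 b2 := by
  intro A B p1 p2 p3 p4
  rcases le_total (64 * A) (m : ℝ) with h | h
  · exact h1 A B p1 h p3 p4
  · exact h2 A B h p2 p3 p4

theorem CVRM.spB {G : ℝ → ℝ → Prop} {a1 a2 b1 b2 : ℕ} (m : ℕ) (h1 : CVRM.Qb G a1 a2 b1 m)
    (h2 : CVRM.Qb G a1 a2 m b2) : CVRM.Qb G a1 a2 b1 b2 := by
  intro A B p1 p2 p3 p4
  rcases le_total (64 * B) (m : ℝ) with h | h
  · exact h1 A B p1 p2 p3 h
  · exact h2 A B p1 p2 h p4

theorem CVRM.lf {G : ℝ → ℝ → Prop} (hG : ∀ c : Cell, chk c = true → ∀ A B : ℝ, InC c A B → G A B)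
    (c : Cell) (hc : chk c = true) : CVRM.Qb G c.A1 c.A2 c.B1 c.B2 :=
  fun A B p1 p2 p3 p4 => hG c hc A B ⟨p1, p2, p3, p4⟩

open CVRM

theorem CVRM.strip0 {G : ℝ → ℝ → Prop} (hG : ∀ c : Cell, chk c = true → ∀ A B : ℝ, InC c A B → G A B) :
    CVRM.Qb G 16 384 256 384 :=
  (spA 64
    (spA 28
      (spA 22
        (lf hG cell0 ok0)
        (lf hG cell1 ok1))
      (spA 40
        (spB 312
          (lf hG cell2 ok2)
          (lf hG cell9 ok9))
        (spB 312
          (lf hG cell3 ok3)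
          (lf hG cell10 ok10))))
    (spA 112
      (spA 88
        (lf hG cell4 ok4)
        (lf hG cell5 ok5))
      (spA 160
        (lf hG cell6 ok6)
        (spA 256
          (lf hG cell7 ok7)
          (lf hG cell8 ok8)))))

theorem CVRM.strip1 {G : ℝ → ℝ → Prop} (hG : ∀ c : Cell, chk c = true → ∀ A B : ℝ, InC c A B → G A B) :
    CVRM.Qb G 16 576 384 576 :=
  (spA 40
    (spA 28
      (spA 22
        (lf hG cell11 ok11)
        (lf hG cell12 ok12))
      (spA 34
        (spB 472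
          (lf hG cell13 ok13)
          (lf hG cell20 ok20))
        (spB 472
          (lf hG cell14 ok14)
          (lf hG cell21 ok21))))
    (spA 112
      (spA 64
        (spB 472
          (lf hG cell15 ok15)
          (lf hG cell22 ok22))
        (lf hG cell16 ok16))
      (spA 160
        (lf hG cell17 ok17)
        (spA 256
          (lf hG cell18 ok18)
          (lf hG cell19 ok19)))))

theorem CVRM.strip2 {G : ℝ → ℝ → Prop} (hG : ∀ c : Cell, chk c = true → ∀ A B : ℝ, InC c A B → G A B) :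
    CVRM.Qb G 16 864 576 864 :=
  (spA 40
    (spA 28
      (spA 22
        (lf hG cell23 ok23)
        (spB 704
          (lf hG cell24 ok24)
          (lf hG cell32 ok32)))
      (spA 34
        (spB 704
          (lf hG cell25 ok25)
          (lf hG cell33 ok33))
        (spB 704
          (lf hG cell26 ok26)
          (lf hG cell34 ok34))))
    (spA 112
      (spA 64
        (spB 704
          (lf hG cell27 ok27)
          (lf hG cell35 ok35))
        (lf hG cell28 ok28))
      (spA 160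
        (lf hG cell29 ok29)
        (spA 256
          (lf hG cell30 ok30)
          (lf hG cell31 ok31)))))

theorem CVRM.strip3 {G : ℝ → ℝ → Prop} (hG : ∀ c : Cell, chk c = true → ∀ A B : ℝ, InC c A B → G A B) :
    CVRM.Qb G 16 1280 864 1280 :=
  (spA 40
    (spA 28
      (spA 22
        (lf hG cell36 ok36)
        (spB 1052
          (lf hG cell37 ok37)
          (lf hG cell46 ok46)))
      (spA 34
        (spB 1052
          (lf hG cell38 ok38)
          (lf hG cell47 ok47))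
        (spB 1052
          (lf hG cell39 ok39)
          (lf hG cell48 ok48))))
    (spA 64
      (spA 52
        (spB 1052
          (lf hG cell40 ok40)
          (lf hG cell49 ok49))
        (spB 1052
          (lf hG cell41 ok41)
          (lf hG cell50 ok50)))
      (spA 160
        (spA 112
          (lf hG cell42 ok42)
          (lf hG cell43 ok43))
        (spA 256
          (lf hG cell44 ok44)
          (lf hG cell45 ok45)))))

theorem CVRM.strip4 {G : ℝ → ℝ → Prop} (hG : ∀ c : Cell, chk c = true → ∀ A B : ℝ, InC c A B → G A B) :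
    CVRM.Qb G 16 1920 1280 1920 :=
  (spA 34
    (spA 28
      (spA 22
        (lf hG cell51 ok51)
        (spB 1568
          (lf hG cell52 ok52)
          (spB 1736
            (lf hG cell62 ok62)
            (lf hG cell67 ok67))))
      (spB 1568
        (spB 1416
          (lf hG cell53 ok53)
          (lf hG cell61 ok61))
        (spB 1736
          (lf hG cell63 ok63)
          (spA 31
            (lf hG cell68 ok68)
            (lf hG cell69 ok69)))))
    (spA 52
      (spA 40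
        (spB 1568
          (lf hG cell54 ok54)
          (spB 1736
            (lf hG cell64 ok64)
            (lf hG cell70 ok70)))
        (spB 1568
          (lf hG cell55 ok55)
          (lf hG cell65 ok65)))
      (spA 112
        (spA 64
          (spB 1568
            (lf hG cell56 ok56)
            (lf hG cell66 ok66))
          (lf hG cell57 ok57))
        (spA 160
          (lf hG cell58 ok58)
          (spA 256
            (lf hG cell59 ok59)
            (lf hG cell60 ok60))))))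

theorem CVRM.strip5 {G : ℝ → ℝ → Prop} (hG : ∀ c : Cell, chk c = true → ∀ A B : ℝ, InC c A B → G A B) :
    CVRM.Qb G 16 2880 1920 2880 :=
  (spA 34
    (spA 28
      (spB 2352
        (spA 22
          (lf hG cell71 ok71)
          (spB 2124
            (lf hG cell72 ok72)
            (lf hG cell82 ok82)))
        (spA 22
          (lf hG cell85 ok85)
          (spB 2604
            (lf hG cell86 ok86)
            (lf hG cell91 ok91))))
      (spB 2124
        (spA 31
          (lf hG cell73 ok73)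
          (lf hG cell74 ok74))
        (spB 2352
          (lf hG cell83 ok83)
          (spB 2604
            (lf hG cell87 ok87)
            (lf hG cell92 ok92)))))
    (spA 52
      (spB 2352
        (spA 40
          (spB 2124
            (lf hG cell75 ok75)
            (lf hG cell84 ok84))
          (lf hG cell76 ok76))
        (spA 40
          (spB 2604
            (lf hG cell88 ok88)
            (lf hG cell93 ok93))
          (lf hG cell89 ok89)))
      (spA 112
        (spA 64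
          (spB 2352
            (lf hG cell77 ok77)
            (lf hG cell90 ok90))
          (lf hG cell78 ok78))
        (spA 160
          (lf hG cell79 ok79)
          (spA 256
            (lf hG cell80 ok80)
            (lf hG cell81 ok81))))))

theorem CVRM.strip6 {G : ℝ → ℝ → Prop} (hG : ∀ c : Cell, chk c = true → ∀ A B : ℝ, InC c A B → G A B) :
    CVRM.Qb G 16 4480 2880 4480 :=
  (spA 34
    (spB 3592
      (spA 28
        (spA 22
          (lf hG cell94 ok94)
          (spB 3216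
            (lf hG cell95 ok95)
            (lf hG cell103 ok103)))
        (spB 3216
          (lf hG cell96 ok96)
          (lf hG cell104 ok104)))
      (spA 28
        (spA 22
          (lf hG cell106 ok106)
          (spB 4012
            (lf hG cell107 ok107)
            (lf hG cell111 ok111)))
        (spB 4012
          (lf hG cell108 ok108)
          (lf hG cell112 ok112))))
    (spA 40
      (spB 3216
        (lf hG cell97 ok97)
        (spB 3592
          (lf hG cell105 ok105)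
          (lf hG cell109 ok109)))
      (spA 64
        (spB 3592
          (spA 52
            (lf hG cell98 ok98)
            (lf hG cell99 ok99))
          (lf hG cell110 ok110))
        (spA 160
          (lf hG cell100 ok100)
          (spA 256
            (lf hG cell101 ok101)
            (lf hG cell102 ok102))))))

theorem CVRM.strip7 {G : ℝ → ℝ → Prop} (hG : ∀ c : Cell, chk c = true → ∀ A B : ℝ, InC c A B → G A B) :
    CVRM.Qb G 16 7040 4480 7040 :=
  (spA 40
    (spB 5616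
      (spA 22
        (lf hG cell113 ok113)
        (spA 28
          (lf hG cell114 ok114)
          (lf hG cell115 ok115)))
      (spA 22
        (lf hG cell120 ok120)
        (spA 28
          (lf hG cell121 ok121)
          (lf hG cell122 ok122))))
    (spA 64
      (spB 5616
        (lf hG cell116 ok116)
        (lf hG cell123 ok123))
      (spA 160
        (lf hG cell117 ok117)
        (spA 256
          (lf hG cell118 ok118)
          (lf hG cell119 ok119)))))

theorem CVRM.strip8 {G : ℝ → ℝ → Prop} (hG : ∀ c : Cell, chk c = true → ∀ A B : ℝ, InC c A B → G A B) :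
    CVRM.Qb G 16 11520 7040 11520 :=
  (spA 28
    (spA 22
      (spB 9004
        (lf hG cell124 ok124)
        (lf hG cell130 ok130))
      (spB 9004
        (lf hG cell125 ok125)
        (lf hG cell131 ok131)))
    (spA 40
      (spB 9004
        (lf hG cell126 ok126)
        (lf hG cell132 ok132))
      (spA 64
        (lf hG cell127 ok127)
        (spA 256
          (lf hG cell128 ok128)
          (lf hG cell129 ok129)))))

theorem CVRM.strip9 {G : ℝ → ℝ → Prop} (hG : ∀ c : Cell, chk c = true → ∀ A B : ℝ, InC c A B → G A B) :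
    CVRM.Qb G 16 26128 11520 26128 :=
  (spA 40
    (spA 28
      (spB 17348
        (spA 22
          (lf hG cell133 ok133)
          (lf hG cell134 ok134))
        (lf hG cell141 ok141))
      (spB 17348
        (lf hG cell135 ok135)
        (lf hG cell142 ok142)))
    (spA 160
      (spA 64
        (spB 17348
          (lf hG cell136 ok136)
          (lf hG cell143 ok143))
        (spB 17348
          (lf hG cell137 ok137)
          (lf hG cell144 ok144)))
      (spA 256
        (lf hG cell138 ok138)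
        (spA 13192
          (lf hG cell139 ok139)
          (lf hG cell140 ok140)))))

/-- The cover: every `(A, B)` with `1/4 ≤ A ≤ B`, `4 ≤ B ≤ 408.25` is in a checked cell. -/
theorem cover {G : ℝ → ℝ → Prop} (hG : ∀ c : Cell, chk c = true → ∀ A B : ℝ, InC c A B → G A B) (A B : ℝ)
    (hA : 1 / 4 ≤ A) (hAB : A ≤ B) (h4 : 4 ≤ B) (hB : B ≤ 408.25) : G A B := by
  have hA' : ((16 : ℕ) : ℝ) ≤ 64 * A := by norm_num; linarith

  rcases le_total (64 * B) ((384 : ℕ) : ℝ) with h0 | h0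
  · exact strip0 hG A B hA' (by norm_num at h0 ⊢; linarith) (by norm_num; linarith) h0
  rcases le_total (64 * B) ((576 : ℕ) : ℝ) with h1 | h1
  · exact strip1 hG A B hA' (by norm_num at h1 ⊢; linarith) h0 h1
  rcases le_total (64 * B) ((864 : ℕ) : ℝ) with h2 | h2
  · exact strip2 hG A B hA' (by norm_num at h2 ⊢; linarith) h1 h2
  rcases le_total (64 * B) ((1280 : ℕ) : ℝ) with h3 | h3
  · exact strip3 hG A B hA' (by norm_num at h3 ⊢; linarith) h2 h3
  rcases le_total (64 * B) ((1920 : ℕ) : ℝ) with h4 | h4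
  · exact strip4 hG A B hA' (by norm_num at h4 ⊢; linarith) h3 h4
  rcases le_total (64 * B) ((2880 : ℕ) : ℝ) with h5 | h5
  · exact strip5 hG A B hA' (by norm_num at h5 ⊢; linarith) h4 h5
  rcases le_total (64 * B) ((4480 : ℕ) : ℝ) with h6 | h6
  · exact strip6 hG A B hA' (by norm_num at h6 ⊢; linarith) h5 h6
  rcases le_total (64 * B) ((7040 : ℕ) : ℝ) with h7 | h7
  · exact strip7 hG A B hA' (by norm_num at h7 ⊢; linarith) h6 h7
  rcases le_total (64 * B) ((11520 : ℕ) : ℝ) with h8 | h8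
  · exact strip8 hG A B hA' (by norm_num at h8 ⊢; linarith) h7 h8
  exact strip9 hG A B hA' (by norm_num; linarith) h8 (by norm_num; linarith)

end Pool.Agent.Lib.MP_084b88_gt.CT
end

section
/-!
# MP_084b88_gt, project CT, module FIN: the planar inequality on a cell
-/
set_option autoImplicit false

open MeasureTheory Set Real

namespace Pool.Agent.Lib.MP_084b88_gt.CT.FINM

open Pool.Agent.Lib.MP_084b88_gt.CW
open Pool.Agent.Lib.MP_084b88_gt.SY
open Pool.Agent.Lib.MP_084b88_gt.LG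
open Pool.Agent.Lib.MP_084b88_gt.CT
open CELM

/-- The pair terms. -/
noncomputable def prt (w : Par) (v : ℝ) : ℝ :=
  ((w.Kp : ℝ) - BI - (w.Kn : ℝ)) / SC + (w.M : ℝ) / 2 ^ 40 * v - (w.l : ℝ) / 2 ^ 20 * v

theorem Ph_eq (u : Mul) (w : Par) (n y v r : ℝ) (hn : n ≠ 0) (hv : v ≠ 0) :
    Ph u w n y v r = (Jn n v r - ((u.c1 : ℝ) / 2 ^ 20 * v - (u.e1 : ℝ) / 2 ^ 20 * y * v ^ 2) * Sf v -
      ((u.c : ℝ) / 2 ^ 20 * v - (u.e : ℝ) / 2 ^ 20 * y * v ^ 2) * r) + prt w v := by
  unfold Ph Jn KG OM prt Sf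
  have e : v * (kap * (GZ (n * v) - 1) / (n * v) + WZ (n * v) / (n * v) * (1 / 8 - v / 6 + r)) =
      1 / n * (kap * (GZ (n * v) - 1) + WZ (n * v) * (1 / 8 - v / 6 + r)) := by
    field_simp
  rw [e]
  ring

theorem parM_eq (l : List (ℕ × ℕ)) : ∀ a : ℕ,
    parM l a = ⟨20282409603651670423947251286016, 0, 0, a + (l.map Prod.snd).sum⟩ := by
  induction l with
  | nil => intro a; rfl
  | cons x r ih =>
    intro a
    have : parM (x :: r) a = parM r (Nat.add a x.2) := rfl
    rw [this, ih]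
    simp only [List.map_cons, List.sum_cons, Nat.add_eq, Par.mk.injEq, true_and]
    omega

/-- Sum of `λ · f(cut)`. -/
noncomputable def sm (f : Cut → ℕ) (l : List (ℕ × ℕ)) : ℕ :=
  (l.map fun x => x.2 * f (getL ⟨0, 0, 0⟩ cutT x.1)).sum

theorem parL_eq (l : List (ℕ × ℕ)) : ∀ a b m : ℕ,
    parL l a b m = ⟨20282409603651670423947251286016 + 20266198323167232 * (a + sm Cut.kp l),
      20266198323167232 * (b + sm Cut.kn l), m + sm Cut.m l, 0⟩ := by
  induction l with
  | nil => intro a b m; rfl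
  | cons x r ih =>
    intro a b m
    have : parL (x :: r) a b m = parL r (Nat.add a (Nat.mul x.2 (getL ⟨0, 0, 0⟩ cutT x.1).kp))
      (Nat.add b (Nat.mul x.2 (getL ⟨0, 0, 0⟩ cutT x.1).kn))
      (Nat.add m (Nat.mul x.2 (getL ⟨0, 0, 0⟩ cutT x.1).m)) := rfl
    rw [this, ih]
    simp only [sm, List.map_cons, List.sum_cons, Nat.add_eq, Nat.mul_eq, Par.mk.injEq, and_true]
    refine ⟨?_, ?_, ?_⟩ <;> ring

theorem cut_ineq (v1 v2 : ℝ) (hv2 : 0 ≤ v2)
    (h : ∀ q ∈ cutT, (q.m : ℝ) * v1 + (q.kp : ℝ) - (q.kn : ℝ) ≤ 1048576 * v2) (l : List (ℕ × ℕ)) :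
    (sm Cut.kp l : ℝ) - (sm Cut.kn l : ℝ) + (sm Cut.m l : ℝ) * v1 ≤
      1048576 * ((l.map Prod.snd).sum : ℕ) * v2 := by
  have h' : ∀ i : ℕ, ((getL (⟨0, 0, 0⟩ : Cut) cutT i).m : ℝ) * v1 + ((getL (⟨0, 0, 0⟩ : Cut) cutT i).kp : ℝ) -
      ((getL (⟨0, 0, 0⟩ : Cut) cutT i).kn : ℝ) ≤ 1048576 * v2 := by
    intro i
    by_cases hi : i < cutT.length
    · exact h _ (getL_mem _ _ _ hi)
    · have : getL (⟨0, 0, 0⟩ : Cut) cutT i = ⟨0, 0, 0⟩ := by
        have hi' : 9 ≤ i := by simpa [cutT] using hi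
        obtain ⟨j, rfl⟩ : ∃ j, i = j + 9 := ⟨i - 9, by omega⟩
        rfl
      rw [this]
      simp only [Nat.cast_zero]
      linarith
  induction l with
  | nil => simp [sm]
  | cons x r ih =>
    have hx := mul_le_mul_of_nonneg_left (h' x.1) (Nat.cast_nonneg (α := ℝ) x.2)
    simp only [sm, List.map_cons, List.sum_cons, Nat.cast_add, Nat.cast_mul] at ih ⊢
    nlinarith

theorem pr_pair (v1 v2 : ℝ) (hv2 : 0 ≤ v2)
    (h : ∀ q ∈ cutT, (q.m : ℝ) * v1 + (q.kp : ℝ) - (q.kn : ℝ) ≤ 1048576 * v2) (l : List (ℕ × ℕ)) :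
    prt (parL l 0 0 0) v1 + prt (parM l 0) v2 ≤ 0 := by
  have := cut_ineq v1 v2 hv2 h l
  rw [parL_eq, parM_eq]
  unfold prt
  generalize (List.map Prod.snd l).sum = Ls at this ⊢
  generalize sm Cut.kp l = k1 at this ⊢
  generalize sm Cut.kn l = k2 at this ⊢
  generalize sm Cut.m l = k3 at this ⊢
  simp only [zero_add, Nat.cast_add, Nat.cast_mul, Nat.cast_ofNat, Nat.cast_zero]
  have e1 : ((20282409603651670423947251286016 : ℝ) + 20266198323167232 * (k1 : ℝ) - BI -
      20266198323167232 * (k2 : ℝ)) / SC = ((k1 : ℝ) - (k2 : ℝ)) / 1099511627776 := by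
    unfold SC BI; ring
  have e2 : ((20282409603651670423947251286016 : ℝ) - BI - 0) / SC = 0 := by
    unfold SC BI; ring
  rw [e1, e2]
  have e3 : (2 : ℝ) ^ 40 = 1099511627776 := by norm_num
  have e4 : (2 : ℝ) ^ 20 = 1048576 := by norm_num
  rw [e3, e4]
  linarith

/-- The function without pair terms. -/
noncomputable def Gf (u : Mul) (x R : ℝ → ℝ) (A B : ℝ) (s : ℝ) : ℝ :=
  Jn (nn A B s) (x s) (R s) -
    ((u.c1 : ℝ) / 2 ^ 20 * x s - (u.e1 : ℝ) / 2 ^ 20 * sin s ^ 2 * x s ^ 2) * Sf (x s) -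
    ((u.c : ℝ) / 2 ^ 20 * x s - (u.e : ℝ) / 2 ^ 20 * sin s ^ 2 * x s ^ 2) * R s

/-- The reflected data. -/
theorem Lg_refl {x R : ℝ → ℝ} (h : Lg x R) : Lg (fun s => x (-s)) (fun s => R (-s)) := by
  have hx' : ∀ s, x (s - π) = x s := fun s => by have := h.px (s - π); rw [sub_add_cancel] at this; exact this.symm
  have hR' : ∀ s, R (s - π) = R s := fun s => by have := h.pR (s - π); rw [sub_add_cancel] at this; exact this.symm
  have hflip : ∀ f : ℝ → ℝ, (∀ s, f (s + π) = f s) →
      ∫ s in (0 : ℝ)..(2 * π), f (-s) = ∫ s in (0 : ℝ)..(2 * π), f s := by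
    intro f hf
    rw [intervalIntegral.integral_comp_neg (fun s => f s)]
    have hper : Function.Periodic f (2 * π) := by
      intro s
      have : s + 2 * π = s + π + π := by ring
      rw [this, hf, hf]
    have := hper.intervalIntegral_add_eq (-(2 * π)) 0
    rw [neg_add_cancel, zero_add] at this
    rw [neg_zero]
    exact this
  refine ⟨h.cx.comp continuous_neg, h.cR.comp continuous_neg, ?_, ?_, fun s => h.x1 _, fun s => h.x2 _,
    fun s => h.lo _, fun l hl s => h.hi l hl _, ?_, ?_, ?_⟩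
  · intro s
    show x (-(s + π)) = x (-s)
    rw [neg_add, ← sub_eq_add_neg, hx']
  · intro s
    show R (-(s + π)) = R (-s)
    rw [neg_add, ← sub_eq_add_neg, hR']
  · intro l hl s
    have h1 := h.pair l hl (-s)
    have h2 : x (-(s + π / 2)) = x (-s + π / 2) := by
      have := h.px (-(s + π / 2))
      rw [← this]; congr 1; ring
    show (l.1 : ℝ) * x (-s) + (l.2 : ℝ) ≤ x (-(s + π / 2))
    rw [h2]; exact h1
  · intro r1 r2 a1 a2 b1 b2
    have h1 := h.twoS r1 r2 a1 a2 b1 b2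
    rw [← hflip (fun s => x s * (1 - (r1 * cos s ^ 2 + r2 * sin s ^ 2) * x s) * Sf (x s))] at h1
    · simpa only [cos_neg, sin_neg, neg_sq] using h1
    · intro s
      simp only [h.px, cos_add_pi, sin_add_pi, neg_sq]
  · intro r1 r2 a1 a2 b1 b2
    have h1 := h.twoR r1 r2 a1 a2 b1 b2
    rw [← hflip (fun s => x s * (1 - (r1 * cos s ^ 2 + r2 * sin s ^ 2) * x s) * R s)] at h1
    · simpa only [cos_neg, sin_neg, neg_sq] using h1
    · intro s
      simp only [h.px, h.pR, cos_add_pi, sin_add_pi, neg_sq]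

/-- Sum over the blocks is the integral over `[0, π/2]`. -/
theorem sum_blocks (g : ℝ → ℝ) (hg : Continuous g) :
    ∑ i ∈ Finset.range 16, ∫ s in ((i : ℝ) * π / 32)..(((i : ℝ) + 1) * π / 32), g s =
      ∫ s in (0 : ℝ)..(π / 2), g s := by
  have := intervalIntegral.sum_integral_adjacent_intervals (f := g) (μ := volume)
    (a := fun i : ℕ => (i : ℝ) * π / 32) (n := 16) (fun k _ => hg.intervalIntegrable _ _)
  simp only [Nat.cast_add, Nat.cast_one] at this
  rw [this]
  congr 1
  · simp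
  · push_cast; ring

/-- Pairing of the blocks `i` and `15 - i`. -/
theorem block_pair (hBLN : SpecBLN) (c : Cell) (x R : ℝ → ℝ) (hL : Lg x R) (i : ℕ) (hi : i < 8) :
    (∫ s in ((i : ℝ) * π / 32)..(((i : ℝ) + 1) * π / 32), (prt (wp c i) (x s) + prt (wp c i) (x (-s)))) +
    (∫ s in (((15 - i : ℕ) : ℝ) * π / 32)..((((15 - i : ℕ) : ℝ) + 1) * π / 32),
      (prt (wp c (15 - i)) (x s) + prt (wp c (15 - i)) (x (-s)))) ≤ 0 := by
  have hp := pi_pos
  have w1 : wp c i = parL (getL [] c.lam i) 0 0 0 := by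
    unfold wp; rw [CELM.ifle_eq, if_pos (by omega)]
  have w2 : wp c (15 - i) = parM (getL [] c.lam i) 0 := by
    unfold wp
    rw [CELM.ifle_eq, if_neg (by omega)]
    congr 2
    show 15 - (15 - i) = i
    omega
  rw [w1, w2]
  set l := getL [] c.lam i with hl
  have hcx := hL.cx
  have hcxn : Continuous fun s => x (-s) := hL.cx.comp continuous_neg
  have hprc : ∀ w : Par, Continuous fun v => prt w v := by intro w; unfold prt; fun_prop
  have hx' : ∀ s, x (s - π / 2) = x (s + π / 2) := fun s => by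
    have := hL.px (s - π / 2)
    rw [← this]; congr 1; ring
  -- substitution
  have hsub : ∫ s in (((15 - i : ℕ) : ℝ) * π / 32)..((((15 - i : ℕ) : ℝ) + 1) * π / 32),
      (prt (parM l 0) (x s) + prt (parM l 0) (x (-s))) =
      ∫ s in ((i : ℝ) * π / 32)..(((i : ℝ) + 1) * π / 32),
        (prt (parM l 0) (x (-s + π / 2)) + prt (parM l 0) (x (s + π / 2))) := by
    have h1 := intervalIntegral.integral_comp_sub_left (a := (i : ℝ) * π / 32) (b := ((i : ℝ) + 1) * π / 32)
      (fun s => prt (parM l 0) (x s) + prt (parM l 0) (x (-s))) (π / 2)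
    have e1 : π / 2 - ((i : ℝ) + 1) * π / 32 = ((15 - i : ℕ) : ℝ) * π / 32 := by
      rw [Nat.cast_sub (by omega)]; push_cast; ring
    have e2 : π / 2 - (i : ℝ) * π / 32 = (((15 - i : ℕ) : ℝ) + 1) * π / 32 := by
      rw [Nat.cast_sub (by omega)]; push_cast; ring
    rw [e1, e2] at h1
    rw [← h1]
    apply intervalIntegral.integral_congr
    intro s _
    show prt (parM l 0) (x (π / 2 - s)) + prt (parM l 0) (x (-(π / 2 - s))) =
      prt (parM l 0) (x (-s + π / 2)) + prt (parM l 0) (x (s + π / 2))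
    have e3 : π / 2 - s = -s + π / 2 := by ring
    have e4 : -(π / 2 - s) = s - π / 2 := by ring
    rw [e4, hx', e3]
  rw [hsub, ← intervalIntegral.integral_add]
  · have hle : ((i : ℝ) * π / 32) ≤ (((i : ℝ) + 1) * π / 32) := by
      have : (i : ℝ) * π ≤ ((i : ℝ) + 1) * π := by nlinarith
      linarith
    have hneg : ∀ s : ℝ, (prt (parL l 0 0 0) (x s) + prt (parL l 0 0 0) (x (-s))) +
        (prt (parM l 0) (x (-s + π / 2)) + prt (parM l 0) (x (s + π / 2))) ≤ 0 := by
      intro s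
      have h1 := pr_pair (x s) (x (s + π / 2)) (by linarith [hL.x1 (s + π / 2)])
        (fun q hq => (hBLN x R hL).2.2 q hq s) l
      have h2 := pr_pair (x (-s)) (x (-s + π / 2)) (by linarith [hL.x1 (-s + π / 2)])
        (fun q hq => (hBLN x R hL).2.2 q hq (-s)) l
      linarith
    have := intervalIntegral.integral_nonneg (μ := volume) (f := fun s => -((prt (parL l 0 0 0) (x s) +
      prt (parL l 0 0 0) (x (-s))) + (prt (parM l 0) (x (-s + π / 2)) + prt (parM l 0) (x (s + π / 2))))) hle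
      (fun s _ => by have := hneg s; show 0 ≤ -_; linarith)
    rw [intervalIntegral.integral_neg] at this
    linarith
  · apply Continuous.intervalIntegrable
    exact ((hprc _).comp hcx).add ((hprc _).comp hcxn)
  · apply Continuous.intervalIntegrable
    refine ((hprc _).comp (hcx.comp ?_)).add ((hprc _).comp (hcx.comp ?_)) <;> fun_prop

end Pool.Agent.Lib.MP_084b88_gt.CT.FINM

namespace Pool.Agent.Lib.MP_084b88_gt.CT

open Pool.Agent.Lib.MP_084b88_gt.CW
open Pool.Agent.Lib.MP_084b88_gt.SY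
open Pool.Agent.Lib.MP_084b88_gt.LG
open CELM FINM

/-- **FIN**. -/
theorem specFIN (hWGC : SpecWGC) (hCEL : SpecCEL) (hBLN : SpecBLN) : SpecFIN := by
  intro c hc x R hL A B hin hA hB hz
  have hp := pi_pos
  -- conditions on the multipliers
  have hmul : 5 * c.u.e1 ≤ 4 * c.u.c1 ∧ 5 * c.u.e ≤ 4 * c.u.c := by
    obtain ⟨K0, K, hkn⟩ : ∃ K0 K, knots = K0 :: K := ⟨_, _, rfl⟩
    have hchk : chkK K0 K c = true := by
      have : chk c = @List.rec Knot (fun _ => Bool) false (fun K0 K _ => chkK K0 K c) (K0 :: K) := by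
        rw [← hkn]; rfl
      rw [this] at hc
      exact hc
    unfold chkK at hchk
    simp only [Bool.and_eq_true] at hchk
    obtain ⟨⟨⟨⟨⟨_, _⟩, _⟩, h1⟩, h2⟩, _⟩ := hchk
    exact ⟨Nat.le_of_ble_eq_true h1, Nat.le_of_ble_eq_true h2⟩
  have hLr := Lg_refl hL
  have hnn0 : ∀ s, nn A B (-s) = nn A B s := by
    intro s; unfold nn; rw [cos_neg, sin_neg, neg_sq]
  have hnpos : ∀ s, 0 < nn A B s := by
    intro s
    have h1 := (hz s).1
    have h2 := hL.x1 s
    by_contra hcon
    have : nn A B s * x s ≤ 0 := mul_nonpos_of_nonpos_of_nonneg (not_lt.mp hcon) (by linarith)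
    linarith
  have hzr : ∀ s, 1 / 4 ≤ nn A B s * x (-s) ∧ nn A B s * x (-s) < 205 := by
    intro s
    have := hz (-s)
    rwa [hnn0] at this
  have h1 := hCEL c hc x R hL A B hin hz
  have h2 := hCEL c hc _ _ hLr A B hin hzr
  -- continuity
  have hn : Continuous fun s => nn A B s := by unfold nn; fun_prop
  have hcx := hL.cx
  have hcR := hL.cR
  have hz0 : ∀ s, 0 < nn A B s * x s := fun s => lt_of_lt_of_le (by norm_num) (hz s).1
  have hJc : Continuous fun s => Jn (nn A B s) (x s) (R s) := by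
    have hzc : Continuous fun s => nn A B s * x s := hn.mul hcx
    have hGZ : Continuous fun s => GZ (nn A B s * x s) := hWGC.2.1.comp_continuous hzc (fun s => hz0 s)
    have hWZ : Continuous fun s => WZ (nn A B s * x s) := hWGC.1.comp_continuous hzc (fun s => (hz0 s).le)
    unfold Jn Sf
    have hinv : Continuous fun s => 1 / nn A B s := continuous_const.div hn (fun s => (hnpos s).ne')
    fun_prop
  have hSfc : Continuous fun s => Sf (x s) := by unfold Sf; fun_prop
  have hGc : Continuous fun s => Gf c.u x R A B s := by unfold Gf; fun_prop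
  have hGc' : Continuous fun s => Gf c.u x R A B (-s) := hGc.comp continuous_neg
  have hp1 : ∀ w : Par, Continuous fun s => prt w (x s) := by intro w; unfold prt; fun_prop
  have hp2 : ∀ w : Par, Continuous fun s => prt w (x (-s)) := by intro w; unfold prt; fun_prop
  have e1 : ∀ i : ℕ, ∫ s in ((i : ℝ) * π / 32)..(((i : ℝ) + 1) * π / 32),
      Ph c.u (wp c i) (nn A B s) (sin s ^ 2) (x s) (R s) =
      (∫ s in ((i : ℝ) * π / 32)..(((i : ℝ) + 1) * π / 32), Gf c.u x R A B s) +
      ∫ s in ((i : ℝ) * π / 32)..(((i : ℝ) + 1) * π / 32), prt (wp c i) (x s) := by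
    intro i
    rw [← intervalIntegral.integral_add (hGc.intervalIntegrable _ _) ((hp1 _).intervalIntegrable _ _)]
    apply intervalIntegral.integral_congr
    intro s _
    exact Ph_eq _ _ _ _ _ _ (hnpos s).ne' (by have := hL.x1 s; intro h0; rw [h0] at this; norm_num at this)
  have e2 : ∀ i : ℕ, ∫ s in ((i : ℝ) * π / 32)..(((i : ℝ) + 1) * π / 32),
      Ph c.u (wp c i) (nn A B s) (sin s ^ 2) (x (-s)) (R (-s)) =
      (∫ s in ((i : ℝ) * π / 32)..(((i : ℝ) + 1) * π / 32), Gf c.u x R A B (-s)) +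
      ∫ s in ((i : ℝ) * π / 32)..(((i : ℝ) + 1) * π / 32), prt (wp c i) (x (-s)) := by
    intro i
    rw [← intervalIntegral.integral_add (hGc'.intervalIntegrable _ _) ((hp2 _).intervalIntegrable _ _)]
    apply intervalIntegral.integral_congr
    intro s _
    show Ph c.u (wp c i) (nn A B s) (sin s ^ 2) (x (-s)) (R (-s)) = Gf c.u x R A B (-s) + prt (wp c i) (x (-s))
    rw [Ph_eq _ _ _ _ _ _ (hnpos s).ne' (by have := hL.x1 (-s); intro h0; rw [h0] at this; norm_num at this)]
    unfold Gf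
    rw [hnn0, sin_neg, neg_sq]
  simp only [e1] at h1
  simp only [e2] at h2
  rw [Finset.sum_add_distrib, sum_blocks _ hGc] at h1
  rw [Finset.sum_add_distrib, sum_blocks _ hGc'] at h2
  -- the pair terms
  have hpair : ∑ i ∈ Finset.range 16, (∫ s in ((i : ℝ) * π / 32)..(((i : ℝ) + 1) * π / 32), prt (wp c i) (x s)) +
      ∑ i ∈ Finset.range 16, (∫ s in ((i : ℝ) * π / 32)..(((i : ℝ) + 1) * π / 32), prt (wp c i) (x (-s))) ≤ 0 := by
    rw [← Finset.sum_add_distrib]
    have e3 : ∀ i : ℕ, (∫ s in ((i : ℝ) * π / 32)..(((i : ℝ) + 1) * π / 32), prt (wp c i) (x s)) +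
        (∫ s in ((i : ℝ) * π / 32)..(((i : ℝ) + 1) * π / 32), prt (wp c i) (x (-s))) =
        ∫ s in ((i : ℝ) * π / 32)..(((i : ℝ) + 1) * π / 32), (prt (wp c i) (x s) + prt (wp c i) (x (-s))) := by
      intro i
      rw [← intervalIntegral.integral_add ((hp1 _).intervalIntegrable _ _) ((hp2 _).intervalIntegrable _ _)]
    simp only [e3]
    have key : ∀ D : ℕ → ℝ, (∀ i, i < 8 → D i + D (15 - i) ≤ 0) → ∑ i ∈ Finset.range 16, D i ≤ 0 := by
      intro D hD
      have a0 := hD 0 (by norm_num)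
      have a1 := hD 1 (by norm_num)
      have a2 := hD 2 (by norm_num)
      have a3 := hD 3 (by norm_num)
      have a4 := hD 4 (by norm_num)
      have a5 := hD 5 (by norm_num)
      have a6 := hD 6 (by norm_num)
      have a7 := hD 7 (by norm_num)
      norm_num at a0 a1 a2 a3 a4 a5 a6 a7
      simp only [Finset.sum_range_succ, Finset.sum_range_zero]
      linarith
    exact key _ (fun i hi => block_pair hBLN c x R hL i hi)
  -- periodicity
  have hGper : ∀ s, Gf c.u x R A B (s + π) = Gf c.u x R A B s := by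
    intro s
    unfold Gf nn
    simp only [hL.px, hL.pR, cos_add_pi, sin_add_pi, neg_sq]
  have hper : Function.Periodic (Gf c.u x R A B) π := hGper
  have hG2 : ∫ s in (0 : ℝ)..(2 * π), Gf c.u x R A B s =
      2 * ((∫ s in (0 : ℝ)..(π / 2), Gf c.u x R A B s) + ∫ s in (0 : ℝ)..(π / 2), Gf c.u x R A B (-s)) := by
    have hi : ∀ a b : ℝ, IntervalIntegrable (fun s => Gf c.u x R A B s) volume a b :=
      fun a b => hGc.intervalIntegrable a b
    have s1 : ∫ s in (0 : ℝ)..(2 * π), Gf c.u x R A B s = (∫ s in (0 : ℝ)..π, Gf c.u x R A B s) +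
        ∫ s in π..(2 * π), Gf c.u x R A B s :=
      (intervalIntegral.integral_add_adjacent_intervals (hi _ _) (hi _ _)).symm
    have s2 : ∫ s in π..(2 * π), Gf c.u x R A B s = ∫ s in (0 : ℝ)..π, Gf c.u x R A B s := by
      have := hper.intervalIntegral_add_eq π 0
      rw [zero_add] at this
      rw [← this]; congr 1; ring
    have s3 : ∫ s in (0 : ℝ)..π, Gf c.u x R A B s = ∫ s in (-(π / 2))..(π / 2), Gf c.u x R A B s := by
      have := hper.intervalIntegral_add_eq (-(π / 2)) 0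
      rw [zero_add] at this
      rw [← this]; congr 1; ring
    have s4 : ∫ s in (-(π / 2))..(π / 2), Gf c.u x R A B s = (∫ s in (-(π / 2))..0, Gf c.u x R A B s) +
        ∫ s in (0 : ℝ)..(π / 2), Gf c.u x R A B s :=
      (intervalIntegral.integral_add_adjacent_intervals (hi _ _) (hi _ _)).symm
    have s5 : ∫ s in (0 : ℝ)..(π / 2), Gf c.u x R A B (-s) = ∫ s in (-(π / 2))..0, Gf c.u x R A B s := by
      rw [intervalIntegral.integral_comp_neg (fun s => Gf c.u x R A B s)]
      rw [neg_zero]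
    rw [s1, s2, s3, s4, s5]
    ring
  have hGnn : 0 ≤ ∫ s in (0 : ℝ)..(2 * π), Gf c.u x R A B s := by
    rw [hG2]; linarith
  -- the multipliers
  have hP1 : 0 ≤ ∫ s in (0 : ℝ)..(2 * π),
      ((c.u.c1 : ℝ) / 2 ^ 20 * x s - (c.u.e1 : ℝ) / 2 ^ 20 * sin s ^ 2 * x s ^ 2) * Sf (x s) := by
    rcases Nat.eq_zero_or_pos c.u.c1 with h0 | h0
    · have he : c.u.e1 = 0 := by omega
      rw [h0, he]
      simp
    · have hc1 : (0 : ℝ) < c.u.c1 := by exact_mod_cast h0
      have hr : (c.u.e1 : ℝ) / c.u.c1 ≤ 4 / 5 := by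
        rw [div_le_div_iff₀ hc1 (by norm_num)]
        have : (5 * c.u.e1 : ℝ) ≤ 4 * c.u.c1 := by exact_mod_cast hmul.1
        linarith
      have h3 := hL.twoS 0 ((c.u.e1 : ℝ) / c.u.c1) le_rfl (by norm_num) (by positivity) hr
      have h4 := mul_nonneg (by positivity : (0 : ℝ) ≤ (c.u.c1 : ℝ) / 2 ^ 20) h3
      rw [← intervalIntegral.integral_const_mul] at h4
      refine le_trans h4 (le_of_eq (intervalIntegral.integral_congr ?_))
      intro s _
      show (c.u.c1 : ℝ) / 2 ^ 20 * (x s * (1 - (0 * cos s ^ 2 + (c.u.e1 : ℝ) / c.u.c1 * sin s ^ 2) * x s) *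
        Sf (x s)) = ((c.u.c1 : ℝ) / 2 ^ 20 * x s - (c.u.e1 : ℝ) / 2 ^ 20 * sin s ^ 2 * x s ^ 2) * Sf (x s)
      field_simp
      ring
  have hP2 : 0 ≤ ∫ s in (0 : ℝ)..(2 * π),
      ((c.u.c : ℝ) / 2 ^ 20 * x s - (c.u.e : ℝ) / 2 ^ 20 * sin s ^ 2 * x s ^ 2) * R s := by
    rcases Nat.eq_zero_or_pos c.u.c with h0 | h0
    · have he : c.u.e = 0 := by omega
      rw [h0, he]
      simp
    · have hc1 : (0 : ℝ) < c.u.c := by exact_mod_cast h0
      have hr : (c.u.e : ℝ) / c.u.c ≤ 4 / 5 := by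
        rw [div_le_div_iff₀ hc1 (by norm_num)]
        have : (5 * c.u.e : ℝ) ≤ 4 * c.u.c := by exact_mod_cast hmul.2
        linarith
      have h3 := hL.twoR 0 ((c.u.e : ℝ) / c.u.c) le_rfl (by norm_num) (by positivity) hr
      have h4 := mul_nonneg (by positivity : (0 : ℝ) ≤ (c.u.c : ℝ) / 2 ^ 20) h3
      rw [← intervalIntegral.integral_const_mul] at h4
      refine le_trans h4 (le_of_eq (intervalIntegral.integral_congr ?_))
      intro s _
      show (c.u.c : ℝ) / 2 ^ 20 * (x s * (1 - (0 * cos s ^ 2 + (c.u.e : ℝ) / c.u.c * sin s ^ 2) * x s) *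
        R s) = ((c.u.c : ℝ) / 2 ^ 20 * x s - (c.u.e : ℝ) / 2 ^ 20 * sin s ^ 2 * x s ^ 2) * R s
      field_simp
      ring
  have hsplit : ∫ s in (0 : ℝ)..(2 * π), Jn (nn A B s) (x s) (R s) =
      (∫ s in (0 : ℝ)..(2 * π), Gf c.u x R A B s) +
      (∫ s in (0 : ℝ)..(2 * π),
        ((c.u.c1 : ℝ) / 2 ^ 20 * x s - (c.u.e1 : ℝ) / 2 ^ 20 * sin s ^ 2 * x s ^ 2) * Sf (x s)) +
      ∫ s in (0 : ℝ)..(2 * π),
        ((c.u.c : ℝ) / 2 ^ 20 * x s - (c.u.e : ℝ) / 2 ^ 20 * sin s ^ 2 * x s ^ 2) * R s := by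
    rw [← intervalIntegral.integral_add, ← intervalIntegral.integral_add]
    · apply intervalIntegral.integral_congr
      intro s _
      show Jn (nn A B s) (x s) (R s) = _
      unfold Gf
      ring
    · apply Continuous.intervalIntegrable; fun_prop
    · apply Continuous.intervalIntegrable; fun_prop
    · apply Continuous.intervalIntegrable; fun_prop
    · apply Continuous.intervalIntegrable; fun_prop
  rw [hsplit]
  linarith

end Pool.Agent.Lib.MP_084b88_gt.CT
end

section
/-!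
# MP_084b88_gt, project CT, module OML: the table of `Ω`
-/
set_option autoImplicit false

open MeasureTheory Set Real

namespace Pool.Agent.Lib.MP_084b88_gt.CT

open Pool.Agent.Lib.MP_084b88_gt.LG

namespace OMLM

/-- the check for two consecutive knots -/
def ok (a b : Knot) : Bool :=
  decide (a.z < b.z) &&
    (if b.z ≤ 2560 then
      decide (a.wl + 256 * a.z ≤ 1310720) && decide (b.wl + 256 * b.z ≤ 1310720) &&
        decide (1310720 ≤ a.wu + 256 * a.z) && decide (1310720 ≤ b.wu + 256 * b.z)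
    else
      decide (2560 ≤ a.z) && decide (1677721600 ≤ a.wu * a.z) && decide (1677721600 ≤ b.wu * b.z) &&
        decide (b.wl < a.wl) && decide (b.wl * a.z ≤ a.wl * b.z) &&
        decide ((a.wl * b.z - b.wl * a.z) ^ 2 ≤ 4 * (a.wl - b.wl) * ((b.z - a.z) * 1677721600)))

/-- the check for a list -/
def okL : List Knot → Bool
  | [] => true
  | a :: l => match l with
    | [] => true
    | b :: _ => ok a b && okL l

theorem OM_low {z : ℝ} (h0 : 0 < z) (h : z ≤ 5 / 2) : OM z = (5 - z) / 4 := by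
  unfold OM WZ
  rw [if_pos h]
  field_simp

theorem OM_high {z : ℝ} (h : 5 / 2 ≤ z) : OM z = 25 / (16 * z) := by
  have h0 : 0 < z := by linarith
  rcases eq_or_lt_of_le h with h1 | h1
  · rw [OM_low h0 h1.symm.le, ← h1]
    norm_num
  · unfold OM WZ
    rw [if_neg (not_le.2 h1), div_div]

theorem ok_sound (a b : Knot) (h0 : 0 < a.z) (h : ok a b = true) : GW a b := by
  unfold ok at h
  rw [Bool.and_eq_true, decide_eq_true_eq] at h
  obtain ⟨hz, h⟩ := h
  refine ⟨hz, ?_⟩
  intro z hz1 hz2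
  have hz' : (a.z : ℝ) < b.z := by exact_mod_cast hz
  have ha0 : (0 : ℝ) < a.z := by exact_mod_cast h0
  have hz0 : 0 < z := by linarith
  by_cases hb : b.z ≤ 2560
  · rw [if_pos hb] at h
    simp only [Bool.and_eq_true, decide_eq_true_eq] at h
    obtain ⟨⟨⟨h1, h2⟩, h3⟩, h4⟩ := h
    have h1' : (a.wl : ℝ) + 256 * a.z ≤ 1310720 := by exact_mod_cast h1
    have h2' : (b.wl : ℝ) + 256 * b.z ≤ 1310720 := by exact_mod_cast h2
    have h3' : (1310720 : ℝ) ≤ a.wu + 256 * a.z := by exact_mod_cast h3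
    have h4' : (1310720 : ℝ) ≤ b.wu + 256 * b.z := by exact_mod_cast h4
    have hb' : (b.z : ℝ) ≤ 2560 := by exact_mod_cast hb
    rw [OM_low hz0 (by linarith)]
    have p1 := mul_nonneg (sub_nonneg.2 h1') (sub_nonneg.2 hz2)
    have p2 := mul_nonneg (sub_nonneg.2 h2') (sub_nonneg.2 hz1)
    have p3 := mul_nonneg (sub_nonneg.2 h3') (sub_nonneg.2 hz2)
    have p4 := mul_nonneg (sub_nonneg.2 h4') (sub_nonneg.2 hz1)
    constructor <;> linarith
  · rw [if_neg hb] at h
    simp only [Bool.and_eq_true, decide_eq_true_eq] at h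
    obtain ⟨⟨⟨⟨⟨h1, h2⟩, h3⟩, h4⟩, h5⟩, h6⟩ := h
    have h1' : (2560 : ℝ) ≤ a.z := by exact_mod_cast h1
    have h2' : (1677721600 : ℝ) ≤ a.wu * a.z := by exact_mod_cast h2
    have h3' : (1677721600 : ℝ) ≤ b.wu * b.z := by exact_mod_cast h3
    have h4' : (b.wl : ℝ) < a.wl := by exact_mod_cast h4
    have h6' : ((a.wl : ℝ) * b.z - b.wl * a.z) ^ 2 ≤ 4 * ((a.wl : ℝ) - b.wl) * (((b.z : ℝ) - a.z) * 1677721600) := by
      have := (Nat.cast_le (α := ℝ)).2 h6
      rw [Nat.cast_pow, Nat.cast_sub h5, Nat.cast_mul, Nat.cast_mul, Nat.cast_mul, Nat.cast_mul,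
        Nat.cast_sub h4.le, Nat.cast_mul, Nat.cast_sub hz.le] at this
      exact_mod_cast this
    rw [OM_high (by linarith)]
    set y := 1024 * z with hy
    have hy0 : 0 < y := by linarith
    have hb0 : (0 : ℝ) < b.z := by linarith
    have e : 1048576 * ((b.z : ℝ) - a.z) * (25 / (16 * z)) = ((b.z : ℝ) - a.z) * 1677721600 / y := by
      rw [hy]
      field_simp
      ring
    rw [e]
    constructor
    · rw [le_div_iff₀ hy0]
      have hq : 0 < (a.wl : ℝ) - b.wl := by linarith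
      have key : 0 ≤ 4 * ((a.wl : ℝ) - b.wl) * (((b.z : ℝ) - a.z) * 1677721600 -
          (a.wl * (b.z - y) + b.wl * (y - a.z)) * y) := by
        have := sq_nonneg (2 * ((a.wl : ℝ) - b.wl) * y - (a.wl * b.z - b.wl * a.z))
        linarith
      have := nonneg_of_mul_nonneg_right key (by linarith)
      linarith
    · rw [div_le_iff₀ hy0]
      have hd : 0 ≤ ((b.z : ℝ) - a.z) * (((b.z : ℝ) - y) * (y - a.z)) :=
        mul_nonneg (by linarith) (mul_nonneg (by linarith) (by linarith))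
      have k1 : (1677721600 : ℝ) / a.z ≤ a.wu := (div_le_iff₀ ha0).2 h2'
      have k2 : (1677721600 : ℝ) / b.z ≤ b.wu := (div_le_iff₀ hb0).2 h3'
      have e2 : (1677721600 / (a.z : ℝ) * (b.z - y) + 1677721600 / (b.z : ℝ) * (y - a.z)) * y -
          ((b.z : ℝ) - a.z) * 1677721600 =
          1677721600 * (((b.z : ℝ) - a.z) * (((b.z : ℝ) - y) * (y - a.z))) / (a.z * b.z) := by
        field_simp
        ring
      have e3 : 0 ≤ 1677721600 * (((b.z : ℝ) - a.z) * (((b.z : ℝ) - y) * (y - a.z))) / (a.z * b.z) := by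
        positivity
      have k3 : 1677721600 / (a.z : ℝ) * (b.z - y) ≤ a.wu * (b.z - y) :=
        mul_le_mul_of_nonneg_right k1 (by linarith)
      have k4 : 1677721600 / (b.z : ℝ) * (y - a.z) ≤ b.wu * (y - a.z) :=
        mul_le_mul_of_nonneg_right k2 (by linarith)
      have k5 := mul_le_mul_of_nonneg_right (add_le_add k3 k4) hy0.le
      linarith

theorem okL_sound : ∀ (l : List Knot), (∀ a ∈ l, 0 < a.z) → okL l = true → Ch GW l
  | [], _, _ => trivial
  | [_], _, _ => trivial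
  | a :: b :: l, h0, h => by
    rw [okL, Bool.and_eq_true] at h
    exact ⟨ok_sound a b (h0 a (by simp)) h.1, okL_sound (b :: l) (fun x hx => h0 x (List.mem_cons_of_mem _ hx)) h.2⟩

theorem pos_knots : knots.all (fun a => decide (0 < a.z)) = true := by decide +kernel

theorem ok_knots : okL knots = true := by decide +kernel

end OMLM

open OMLM in
/-- the table of `Ω` -/
theorem specOML : SpecOML := by
  refine okL_sound knots ?_ ok_knots
  intro a ha
  have := List.all_eq_true.1 pos_knots a ha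
  exact of_decide_eq_true this

end Pool.Agent.Lib.MP_084b88_gt.CT
end
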