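import Pool.Agent.Lib.MP_084b88_gt.CT.Spec

/-!
# MP_084b88_gt, project CT, module SCT: one sector (from PCS)
-/

set_option autoImplicit false

namespace Pool.Agent.Lib.MP_084b88_gt.CT

namespace SCTM

theorem fN_eq {α : Type} (a : ℕ) (k : ℕ → α) : fN a k = k a := by
  cases a <;> rfl

theorem ifle_pos {α : Type} {a b : ℕ} (h : a ≤ b) (x y : α) : ifle a b x y = x := by
  have h1 : Nat.ble a b = true := Nat.ble_eq_true_of_le h
  unfold ifle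
  rw [h1]

theorem ifle_neg {α : Type} {a b : ℕ} (h : ¬ a ≤ b) (x y : α) : ifle a b x y = y := by
  have h1 : Nat.ble a b = false := by
    cases hb : Nat.ble a b
    · rfl
    · exact absurd (Nat.le_of_ble_eq_true hb) h
  unfold ifle
  rw [h1]

theorem ifle_false {m : ℕ} {b : Bool} (h : ifle 1 m b false = true) : 0 < m ∧ b = true := by
  by_cases h1 : 1 ≤ m
  · rw [ifle_pos h1] at h
    exact ⟨h1, h⟩
  · rw [ifle_neg h1] at h
    exact absurd h (by simp)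

/-- The contribution at one corner. -/
theorem contr_real (dk e0 e1 yl yu ml mu s : ℕ) (η : ℝ) (hy : yl < yu) (h0 : (e0 : ℝ) ≤ η) (h1 : η ≤ e1)
    (hl : (yl : ℝ) * dk ≤ η) (hu : η ≤ (yu : ℝ) * dk) :
    ((contr dk e0 e1 yl yu ml mu s : ℕ) : ℝ) - s ≤
      ((ml : ℝ) * ((yu : ℝ) * dk - η) + (mu : ℝ) * (η - (yl : ℝ) * dk)) / ((yu : ℝ) - yl) := by
  have hyr : (0 : ℝ) < (yu : ℝ) - yl := by
    have : (yl : ℝ) < yu := by exact_mod_cast hy
    linarith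
  have hml : (0 : ℝ) ≤ ml := Nat.cast_nonneg _
  have hmu : (0 : ℝ) ≤ mu := Nat.cast_nonneg _
  have hR : 0 ≤ (ml : ℝ) * ((yu : ℝ) * dk - η) + (mu : ℝ) * (η - (yl : ℝ) * dk) :=
    add_nonneg (mul_nonneg hml (by linarith)) (mul_nonneg hmu (by linarith))
  -- truncated numerator
  have key : ∀ X : ℕ, (X : ℝ) ≤ (ml : ℝ) * ((yu : ℝ) * dk - η) + (mu : ℝ) * (η - (yl : ℝ) * dk) →
      (((s + X / (yu - yl) : ℕ)) : ℝ) - s ≤
        ((ml : ℝ) * ((yu : ℝ) * dk - η) + (mu : ℝ) * (η - (yl : ℝ) * dk)) / ((yu : ℝ) - yl) := by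
    intro X hX
    push_cast
    have e1 : ((X / (yu - yl) : ℕ) : ℝ) ≤ (X : ℝ) / ((yu - yl : ℕ) : ℝ) := Nat.cast_div_le
    have e2 : ((yu - yl : ℕ) : ℝ) = (yu : ℝ) - yl := by
      rw [Nat.cast_sub hy.le]
    rw [e2] at e1
    have e3 : (X : ℝ) / ((yu : ℝ) - yl) ≤
        ((ml : ℝ) * ((yu : ℝ) * dk - η) + (mu : ℝ) * (η - (yl : ℝ) * dk)) / ((yu : ℝ) - yl) :=
      div_le_div_of_nonneg_right hX hyr.le
    linarith
  unfold contr
  rw [fN_eq]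
  by_cases h : ml ≤ mu
  · rw [ifle_pos h]
    refine key _ ?_
    have hmr : (ml : ℝ) ≤ mu := by exact_mod_cast h
    have e4 : (0 : ℝ) ≤ ((mu : ℝ) - ml) * (η - e0) := mul_nonneg (by linarith) (by linarith)
    change (((yu * dk * ml + e0 * (mu - ml)) - yl * dk * mu : ℕ) : ℝ) ≤ _
    rcases le_total (yl * dk * mu) (yu * dk * ml + e0 * (mu - ml)) with h2 | h2
    · rw [Nat.cast_sub h2]
      push_cast [Nat.cast_sub h]
      nlinarith
    · rw [Nat.sub_eq_zero_of_le h2]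
      simpa using hR
  · rw [ifle_neg h]
    refine key _ ?_
    have h' : mu ≤ ml := (not_le.1 h).le
    have hmr : (mu : ℝ) ≤ ml := by exact_mod_cast h'
    have e4 : (0 : ℝ) ≤ ((ml : ℝ) - mu) * (e1 - η) := mul_nonneg (by linarith) (by linarith)
    change ((yu * dk * ml - (e1 * (ml - mu) + yl * dk * mu) : ℕ) : ℝ) ≤ _
    rcases le_total (e1 * (ml - mu) + yl * dk * mu) (yu * dk * ml) with h2 | h2
    · rw [Nat.cast_sub h2]
      push_cast [Nat.cast_sub h']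
      nlinarith
    · rw [Nat.sub_eq_zero_of_le h2]
      simpa using hR

/-- Monotonicity of `wt`. -/
theorem wt_mono (A1 A2 B1 B2 : ℕ) (A B d1 d2 d3 d4 e1 e2 e3 e4 : ℝ) (hA : A1 < A2) (hB : B1 < B2)
    (hA1 : (A1 : ℝ) ≤ 64 * A) (hA2 : 64 * A ≤ (A2 : ℝ)) (hB1 : (B1 : ℝ) ≤ 64 * B) (hB2 : 64 * B ≤ (B2 : ℝ))
    (h1 : d1 ≤ e1) (h2 : d2 ≤ e2) (h3 : d3 ≤ e3) (h4 : d4 ≤ e4) :
    wt A1 A2 B1 B2 A B d1 d2 d3 d4 ≤ wt A1 A2 B1 B2 A B e1 e2 e3 e4 := by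
  have hAr : (0 : ℝ) < (A2 : ℝ) - A1 := by
    have : (A1 : ℝ) < A2 := by exact_mod_cast hA
    linarith
  have hBr : (0 : ℝ) < (B2 : ℝ) - B1 := by
    have : (B1 : ℝ) < B2 := by exact_mod_cast hB
    linarith
  unfold wt
  refine div_le_div_of_nonneg_right ?_ (mul_pos hAr hBr).le
  have a1 : 0 ≤ (A2 : ℝ) - 64 * A := by linarith
  have a2 : 0 ≤ 64 * A - (A1 : ℝ) := by linarith
  have b1 : 0 ≤ (B2 : ℝ) - 64 * B := by linarith
  have b2 : 0 ≤ 64 * B - (B1 : ℝ) := by linarith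
  have c1 := mul_le_mul_of_nonneg_left h1 b1
  have c2 := mul_le_mul_of_nonneg_left h2 b2
  have c3 := mul_le_mul_of_nonneg_left h3 b1
  have c4 := mul_le_mul_of_nonneg_left h4 b2
  exact add_le_add (mul_le_mul_of_nonneg_left (add_le_add c1 c2) a1) (mul_le_mul_of_nonneg_left (add_le_add c3 c4) a2)

/-- An affine function of `(A, B)` is `wt` of its corner values. -/
theorem wt_aff (A1 A2 B1 B2 : ℕ) (A B p q r : ℝ) (hA : A1 < A2) (hB : B1 < B2) :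
    wt A1 A2 B1 B2 A B (p + q * A1 + r * B1) (p + q * A1 + r * B2) (p + q * A2 + r * B1) (p + q * A2 + r * B2) =
      p + q * (64 * A) + r * (64 * B) := by
  have hAr : (A2 : ℝ) - A1 ≠ 0 := by
    have : (A1 : ℝ) < A2 := by exact_mod_cast hA
    linarith
  have hBr : (B2 : ℝ) - B1 ≠ 0 := by
    have : (B1 : ℝ) < B2 := by exact_mod_cast hB
    linarith
  unfold wt
  field_simp
  ring

/-- Values at the two mixed corners. -/
theorem mixed (A1 A2 B1 B2 y m1 m2 : ℕ) (hA : A1 < A2) (hB : B1 < B2) (hy : y ≤ 1048576) (F0 F1 F2 : ℝ)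
    (h1 : (m1 : ℝ) - BI ≤ F0 + F1 * (((A1 * (1048576 - y) + B1 * y : ℕ) : ℝ) / 2 ^ 26) + F2 * ((y : ℝ) / 2 ^ 20))
    (h2 : (m2 : ℝ) - BI ≤ F0 + F1 * (((A2 * (1048576 - y) + B2 * y : ℕ) : ℝ) / 2 ^ 26) + F2 * ((y : ℝ) / 2 ^ 20)) :
    (((((((A2 * (1048576 - y) + B2 * y) - (A1 * (1048576 - y) + B1 * y)) - (B2 - B1) * y) * m1 + (B2 - B1) * y * m2) /
        ((A2 * (1048576 - y) + B2 * y) - (A1 * (1048576 - y) + B1 * y)) : ℕ)) : ℝ) - BI ≤
      F0 + F2 * ((y : ℝ) / 2 ^ 20) + F1 / 2 ^ 26 * (1048576 - y) * A1 + F1 / 2 ^ 26 * y * B2 ∧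
    (((((B2 - B1) * y * m1 + (((A2 * (1048576 - y) + B2 * y) - (A1 * (1048576 - y) + B1 * y)) - (B2 - B1) * y) * m2) /
        ((A2 * (1048576 - y) + B2 * y) - (A1 * (1048576 - y) + B1 * y)) : ℕ)) : ℝ) - BI ≤
      F0 + F2 * ((y : ℝ) / 2 ^ 20) + F1 / 2 ^ 26 * (1048576 - y) * A2 + F1 / 2 ^ 26 * y * B1 := by
  obtain ⟨dA, rfl⟩ := Nat.exists_eq_add_of_lt hA
  obtain ⟨dB, rfl⟩ := Nat.exists_eq_add_of_lt hB
  obtain ⟨z, hz⟩ := Nat.exists_eq_add_of_le hy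
  have hz' : 1048576 - y = z := by omega
  have hzr : (z : ℝ) = 1048576 - y := by
    have : ((1048576 : ℕ) : ℝ) = y + z := by exact_mod_cast hz
    push_cast at this
    linarith
  rw [hz'] at h1 h2 ⊢
  have eB : B1 + dB + 1 - B1 = dB + 1 := by omega
  have eD : ((A1 + dA + 1) * z + (B1 + dB + 1) * y) - (A1 * z + B1 * y) = (dA + 1) * z + (dB + 1) * y := by
    have : (A1 + dA + 1) * z + (B1 + dB + 1) * y = (A1 * z + B1 * y) + ((dA + 1) * z + (dB + 1) * y) := by ring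
    rw [this, Nat.add_sub_cancel_left]
  have eT : (dA + 1) * z + (dB + 1) * y - (dB + 1) * y = (dA + 1) * z := by omega
  rw [eB, eD, eT]
  set D : ℕ := (dA + 1) * z + (dB + 1) * y with hD
  have hDp : 0 < D := by
    rcases Nat.eq_zero_or_pos z with h | h
    · have : 0 < y := by omega
      rw [hD]; positivity
    · rw [hD]; positivity
  have hDr : (0 : ℝ) < D := by exact_mod_cast hDp
  have hDe : (D : ℝ) = (dA + 1) * z + (dB + 1) * y := by rw [hD]; push_cast; ring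
  have hzn : (0 : ℝ) ≤ z := Nat.cast_nonneg _
  have hyn : (0 : ℝ) ≤ y := Nat.cast_nonneg _
  have hdA : (0 : ℝ) ≤ dA := Nat.cast_nonneg _
  have hdB : (0 : ℝ) ≤ dB := Nat.cast_nonneg _
  have wA : (0 : ℝ) ≤ (dA + 1) * z := by positivity
  have wB : (0 : ℝ) ≤ (dB + 1) * y := by positivity
  push_cast at h1 h2
  have g1 := mul_le_mul_of_nonneg_left h1 wA
  have g2 := mul_le_mul_of_nonneg_left h2 wB
  have g3 := mul_le_mul_of_nonneg_left h1 wB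
  have g4 := mul_le_mul_of_nonneg_left h2 wA
  constructor
  · have e1 : (((((dA + 1) * z) * m1 + (dB + 1) * y * m2) / D : ℕ) : ℝ) ≤
        ((((dA + 1) * z) * m1 + (dB + 1) * y * m2 : ℕ) : ℝ) / (D : ℝ) := Nat.cast_div_le
    refine (sub_le_sub_right e1 _).trans ?_
    rw [sub_le_iff_le_add, div_le_iff₀ hDr, hDe]
    push_cast
    rw [← hzr]
    nlinarith [g1, g2]
  · have e1 : ((((dB + 1) * y * m1 + ((dA + 1) * z) * m2) / D : ℕ) : ℝ) ≤
        (((dB + 1) * y * m1 + ((dA + 1) * z) * m2 : ℕ) : ℝ) / (D : ℝ) := Nat.cast_div_le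
    refine (sub_le_sub_right e1 _).trans ?_
    rw [sub_le_iff_le_add, div_le_iff₀ hDr, hDe]
    push_cast
    rw [← hzr]
    nlinarith [g3, g4]

end SCTM

open SCTM in
theorem specSCT (hPCS : SpecPCS) : SpecSCT := by
  intro A1 A2 B1 B2 u w x x' s1 s2 s3 s4 k K0 K hKN hK0 hA hB hyy hyu hkk hs
  set yl := x.yl with hyl
  set yu := x'.yu with hyu'
  set n1 : ℕ := A1 * (1048576 - yl) + B1 * yl with hn1
  set n2 : ℕ := A2 * (1048576 - yl) + B2 * yl with hn2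
  set n3 : ℕ := A1 * (1048576 - yu) + B1 * yu with hn3
  set n4 : ℕ := A2 * (1048576 - yu) + B2 * yu with hn4
  set dk : ℕ := x'.k - x.k with hdk
  set e0 : ℕ := (dk * 524288 + x.sg) - (x'.sg + 1) with he0
  set e1 : ℕ := (dk * 524288 + (x.sg + 1)) - x'.sg with he1
  set T : ℕ := 81129638414606681695789005144064 with hT
  obtain ⟨m1, m2, m3, m4, hpc, hPF⟩ := hPCS (ifle n1 n3 n1 n3) (ifle n2 n4 n4 n2) u w ⟨n1, n2, n3, n4, yl, yu⟩ K0 K
    T T T T hKN hK0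
  set tl : ℕ := (B2 - B1) * yl with htl
  set tu : ℕ := (B2 - B1) * yu with htu
  have hs' : ifle 1 m1 (ifle 1 m2 (ifle 1 m3 (ifle 1 m4
      (k (contr dk e0 e1 yl yu m1 m3 s1)
        (contr dk e0 e1 yl yu (((n2 - n1 - tl) * m1 + tl * m2) / (n2 - n1)) (((n4 - n3 - tu) * m3 + tu * m4) / (n4 - n3)) s2)
        (contr dk e0 e1 yl yu ((tl * m1 + (n2 - n1 - tl) * m2) / (n2 - n1)) ((tu * m3 + (n4 - n3 - tu) * m4) / (n4 - n3)) s3)
        (contr dk e0 e1 yl yu m2 m4 s4)) false) false) false) false = true := by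
    rw [← hs]
    unfold sector
    simp only [fN_eq]
    exact (hpc Bool (fun m1 m2 m3 m4 => ifle 1 m1 (ifle 1 m2 (ifle 1 m3 (ifle 1 m4
      (k (contr dk e0 e1 yl yu m1 m3 s1)
        (contr dk e0 e1 yl yu (((n2 - n1 - tl) * m1 + tl * m2) / (n2 - n1)) (((n4 - n3 - tu) * m3 + tu * m4) / (n4 - n3)) s2)
        (contr dk e0 e1 yl yu ((tl * m1 + (n2 - n1 - tl) * m2) / (n2 - n1)) ((tu * m3 + (n4 - n3 - tu) * m4) / (n4 - n3)) s3)
        (contr dk e0 e1 yl yu m2 m4 s4)) false) false) false) false)).symm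
  obtain ⟨hm1, h2⟩ := ifle_false hs'
  obtain ⟨hm2, h3⟩ := ifle_false h2
  obtain ⟨hm3, h4⟩ := ifle_false h3
  obtain ⟨hm4, h5⟩ := ifle_false h4
  have hPF' := hPF hm1 hm2 hm3 hm4
  clear hPF hs' h2 h3 h4 hpc hs
  refine ⟨_, _, _, _, h5, ?_⟩
  intro A B hA1 hA2 hB1 hB2
  -- real facts
  have hyr : (0 : ℝ) < (yu : ℝ) - yl := by
    have : (yl : ℝ) < yu := by exact_mod_cast hyy
    linarith
  have hyl0 : (0 : ℝ) ≤ yl := Nat.cast_nonneg _
  have hyu1 : (yu : ℝ) ≤ 1048576 := by exact_mod_cast hyu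
  have hyl1 : yl ≤ 1048576 := by omega
  have hdkr : ((dk : ℕ) : ℝ) = (x'.k : ℝ) - x.k := by rw [hdk, Nat.cast_sub hkk.le]
  set L2 : ℕ := ((n2 - n1 - tl) * m1 + tl * m2) / (n2 - n1) with hL2
  set L3 : ℕ := (tl * m1 + (n2 - n1 - tl) * m2) / (n2 - n1) with hL3
  set U2 : ℕ := ((n4 - n3 - tu) * m3 + tu * m4) / (n4 - n3) with hU2
  set U3 : ℕ := (tu * m3 + (n4 - n3 - tu) * m4) / (n4 - n3) with hU3
  have n1r : (n1 : ℝ) = A1 * (1048576 - yl) + B1 * yl := by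
    rw [hn1]; push_cast [Nat.cast_sub hyl1]; ring
  have n2r : (n2 : ℝ) = A2 * (1048576 - yl) + B2 * yl := by
    rw [hn2]; push_cast [Nat.cast_sub hyl1]; ring
  have n3r : (n3 : ℝ) = A1 * (1048576 - yu) + B1 * yu := by
    rw [hn3]; push_cast [Nat.cast_sub hyu]; ring
  have n4r : (n4 : ℝ) = A2 * (1048576 - yu) + B2 * yu := by
    rw [hn4]; push_cast [Nat.cast_sub hyu]; ring
  refine ⟨wt A1 A2 B1 B2 A B ((m1 : ℝ) - BI) ((L2 : ℝ) - BI) ((L3 : ℝ) - BI) ((m2 : ℝ) - BI) / ((yu : ℝ) - yl),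
    wt A1 A2 B1 B2 A B ((m3 : ℝ) - BI) ((U2 : ℝ) - BI) ((U3 : ℝ) - BI) ((m4 : ℝ) - BI) / ((yu : ℝ) - yl), ?_, ?_⟩
  · intro Y v r hY1 hY2 hadv
    -- the range of n
    have hlo : ∀ a b : ℝ, (a ≤ (n1 : ℝ) ∧ a ≤ (n3 : ℝ)) → b = 2 ^ 26 * (A * (1 - Y) + B * Y) → a ≤ b := by
      intro a b ⟨ha1, ha3⟩ hb
      have q1 : (A1 : ℝ) * (1048576 - 1048576 * Y) + B1 * (1048576 * Y) ≤ b := by
        rw [hb]
        have w1 : 0 ≤ 1048576 - 1048576 * Y := by linarith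
        have w2 : 0 ≤ 1048576 * Y := by linarith
        have := mul_le_mul_of_nonneg_right hA1 w1
        have := mul_le_mul_of_nonneg_right hB1 w2
        nlinarith
      have q2 : a * ((yu : ℝ) - yl) ≤ ((A1 : ℝ) * (1048576 - 1048576 * Y) + B1 * (1048576 * Y)) * ((yu : ℝ) - yl) := by
        have w1 : 0 ≤ (yu : ℝ) - 1048576 * Y := by linarith
        have w2 : 0 ≤ 1048576 * Y - (yl : ℝ) := by linarith
        have r1 := mul_le_mul_of_nonneg_right ha1 w1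
        have r2 := mul_le_mul_of_nonneg_right ha3 w2
        rw [n1r] at r1
        rw [n3r] at r2
        nlinarith
      exact (le_of_mul_le_mul_right q2 hyr).trans q1
    have hhi : ∀ a b : ℝ, ((n2 : ℝ) ≤ a ∧ (n4 : ℝ) ≤ a) → b = 2 ^ 26 * (A * (1 - Y) + B * Y) → b ≤ a := by
      intro a b ⟨ha1, ha3⟩ hb
      have q1 : b ≤ (A2 : ℝ) * (1048576 - 1048576 * Y) + B2 * (1048576 * Y) := by
        rw [hb]
        have w1 : 0 ≤ 1048576 - 1048576 * Y := by linarith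
        have w2 : 0 ≤ 1048576 * Y := by linarith
        have := mul_le_mul_of_nonneg_right hA2 w1
        have := mul_le_mul_of_nonneg_right hB2 w2
        nlinarith
      have q2 : ((A2 : ℝ) * (1048576 - 1048576 * Y) + B2 * (1048576 * Y)) * ((yu : ℝ) - yl) ≤ a * ((yu : ℝ) - yl) := by
        have w1 : 0 ≤ (yu : ℝ) - 1048576 * Y := by linarith
        have w2 : 0 ≤ 1048576 * Y - (yl : ℝ) := by linarith
        have r1 := mul_le_mul_of_nonneg_right ha1 w1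
        have r2 := mul_le_mul_of_nonneg_right ha3 w2
        rw [n2r] at r1
        rw [n4r] at r2
        nlinarith
      exact q1.trans (le_of_mul_le_mul_right q2 hyr)
    have hnmin : ((ifle n1 n3 n1 n3 : ℕ) : ℝ) ≤ 2 ^ 26 * (A * (1 - Y) + B * Y) := by
      refine hlo _ _ ?_ rfl
      by_cases h : n1 ≤ n3
      · rw [ifle_pos h]; exact ⟨le_rfl, by exact_mod_cast h⟩
      · rw [ifle_neg h]; exact ⟨by exact_mod_cast (not_le.1 h).le, le_rfl⟩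
    have hnmax : 2 ^ 26 * (A * (1 - Y) + B * Y) ≤ ((ifle n2 n4 n4 n2 : ℕ) : ℝ) := by
      refine hhi _ _ ?_ rfl
      by_cases h : n2 ≤ n4
      · rw [ifle_pos h]; exact ⟨by exact_mod_cast h, le_rfl⟩
      · rw [ifle_neg h]; exact ⟨le_rfl, by exact_mod_cast (not_le.1 h).le⟩
    obtain ⟨F0, F1, F2, hF, f1, f2, f3, f4⟩ := hPF' (A * (1 - Y) + B * Y) Y v r hnmin hnmax hadv
    refine le_trans ?_ hF
    simp only at f1 f2 f3 f4
    obtain ⟨fl2, fl3⟩ := mixed A1 A2 B1 B2 yl m1 m2 hA hB hyl1 F0 F1 F2 f1 f2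
    obtain ⟨fu2, fu3⟩ := mixed A1 A2 B1 B2 yu m3 m4 hA hB hyu F0 F1 F2 f3 f4
    have hl : wt A1 A2 B1 B2 A B ((m1 : ℝ) - BI) ((L2 : ℝ) - BI) ((L3 : ℝ) - BI) ((m2 : ℝ) - BI) ≤
        (F0 + F2 * ((yl : ℝ) / 2 ^ 20)) + F1 / 2 ^ 26 * (1048576 - yl) * (64 * A) + F1 / 2 ^ 26 * yl * (64 * B) := by
      rw [← wt_aff A1 A2 B1 B2 A B (F0 + F2 * ((yl : ℝ) / 2 ^ 20)) (F1 / 2 ^ 26 * (1048576 - yl)) (F1 / 2 ^ 26 * yl) hA hB]
      refine wt_mono A1 A2 B1 B2 A B _ _ _ _ _ _ _ _ hA hB hA1 hA2 hB1 hB2 ?_ fl2 fl3 ?_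
      · refine f1.trans (le_of_eq ?_); rw [n1r]; ring
      · refine f2.trans (le_of_eq ?_); rw [n2r]; ring
    have hu : wt A1 A2 B1 B2 A B ((m3 : ℝ) - BI) ((U2 : ℝ) - BI) ((U3 : ℝ) - BI) ((m4 : ℝ) - BI) ≤
        (F0 + F2 * ((yu : ℝ) / 2 ^ 20)) + F1 / 2 ^ 26 * (1048576 - yu) * (64 * A) + F1 / 2 ^ 26 * yu * (64 * B) := by
      rw [← wt_aff A1 A2 B1 B2 A B (F0 + F2 * ((yu : ℝ) / 2 ^ 20)) (F1 / 2 ^ 26 * (1048576 - yu)) (F1 / 2 ^ 26 * yu) hA hB]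
      refine wt_mono A1 A2 B1 B2 A B _ _ _ _ _ _ _ _ hA hB hA1 hA2 hB1 hB2 ?_ fu2 fu3 ?_
      · refine f3.trans (le_of_eq ?_); rw [n3r]; ring
      · refine f4.trans (le_of_eq ?_); rw [n4r]; ring
    rw [div_mul_eq_mul_div, div_mul_eq_mul_div, ← add_div, div_le_iff₀ hyr]
    have w1 : 0 ≤ (yu : ℝ) - 1048576 * Y := by linarith
    have w2 : 0 ≤ 1048576 * Y - (yl : ℝ) := by linarith
    have r1 := mul_le_mul_of_nonneg_right hl w1
    have r2 := mul_le_mul_of_nonneg_right hu w2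
    refine (add_le_add r1 r2).trans (le_of_eq ?_)
    ring
  · intro η h1 h2 h3 h4
    have hdk0 : (0 : ℝ) ≤ dk := Nat.cast_nonneg _
    rw [← hdkr] at h1 h2 h3 h4 ⊢
    have hη0 : 0 ≤ η := le_trans (mul_nonneg hyl0 hdk0) h3
    have g0 : (e0 : ℝ) ≤ η := by
      rcases le_total (x'.sg + 1) (dk * 524288 + x.sg) with h | h
      · rw [he0, Nat.cast_sub h]; push_cast; linarith
      · rw [he0, Nat.sub_eq_zero_of_le h]; simpa using hη0
    have g1 : η ≤ (e1 : ℝ) := by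
      have : ((dk * 524288 + (x.sg + 1) : ℕ) : ℝ) ≤ (e1 : ℝ) + x'.sg := by
        have : dk * 524288 + (x.sg + 1) ≤ e1 + x'.sg := by omega
        exact_mod_cast this
      push_cast at this
      linarith
    have c1 := contr_real dk e0 e1 yl yu m1 m3 s1 η hyy g0 g1 h3 h4
    have c2 := contr_real dk e0 e1 yl yu L2 U2 s2 η hyy g0 g1 h3 h4
    have c3 := contr_real dk e0 e1 yl yu L3 U3 s3 η hyy g0 g1 h3 h4
    have c4 := contr_real dk e0 e1 yl yu m2 m4 s4 η hyy g0 g1 h3 h4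
    refine (wt_mono A1 A2 B1 B2 A B _ _ _ _ _ _ _ _ hA hB hA1 hA2 hB1 hB2 c1 c2 c3 c4).trans (le_of_eq ?_)
    have hAr : (A2 : ℝ) - A1 ≠ 0 := by
      have : (A1 : ℝ) < A2 := by exact_mod_cast hA
      linarith
    have hBr : (B2 : ℝ) - B1 ≠ 0 := by
      have : (B1 : ℝ) < B2 := by exact_mod_cast hB
      linarith
    have hyr' := hyr.ne'
    unfold wt
    field_simp
    ring

end Pool.Agent.Lib.MP_084b88_gt.CT
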