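import Pool.Agent.Lib.MP_084b88_gt.CT.Defs

/-!
# MP_084b88_gt, project CT: `SpecCERT (7/100)` (project LG)

`CT/Defs.lean` is the checker `chk` (natural numbers). Modules: the four numerical modules KGL, OML, TRG, BLN (facts on the
tables `knots`, `nodT`, `pcs`, `cutT` of `CT/Defs.lean`), soundness of the checker BRN, SCN, PCS, SCT, CEL, FIN, data and cover
(helper30; 145 cells, every `chk c = true` holds in Lean with `decide +kernel`, about 1.5 s each).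

Rules: file `CT/XXX.lean`, `import Pool.Agent.Lib.MP_084b88_gt.CT.Spec`, namespace
`Pool.Agent.Lib.MP_084b88_gt.CT`, `theorem specXXX (hYYY : SpecYYY) .. : SpecXXX` (`LG.SpecWGC` may be a hypothesis; all Specs of
LG, SY, CW except `LG.SpecCERT` are proved), own lemmas in the namespace `..CT.XXXM`.
-/

set_option autoImplicit false

open MeasureTheory Set Real

namespace Pool.Agent.Lib.MP_084b88_gt.CT

open Pool.Agent.Lib.MP_084b88_gt.CW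
open Pool.Agent.Lib.MP_084b88_gt.SY
open Pool.Agent.Lib.MP_084b88_gt.LG

/-- `R` holds for all pairs of consecutive entries. -/
def Ch (R : Knot → Knot → Prop) : List Knot → Prop
  | [] => True
  | a :: l => match l with
    | [] => True
    | b :: _ => R a b ∧ Ch R l

/-- `K_Γ(z) = κ (G(z) - 1)/z`. -/
noncomputable def KG (z : ℝ) : ℝ := kap * (GZ z - 1) / z

/-- `Ω(z) = W(z)/z`. -/
noncomputable def OM (z : ℝ) : ℝ := WZ z / z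

/-- The chord of the table `γ = (g - 16)/2^20` is below `K_Γ` between the knots `a`, `b` (`ζ = z/1024`). -/
def GG (a b : Knot) : Prop :=
  a.z < b.z ∧ ∀ z : ℝ, (a.z : ℝ) ≤ 1024 * z → 1024 * z ≤ (b.z : ℝ) →
    ((a.g : ℝ) - 16) * ((b.z : ℝ) - 1024 * z) + ((b.g : ℝ) - 16) * (1024 * z - (a.z : ℝ)) ≤
      1048576 * ((b.z : ℝ) - (a.z : ℝ)) * KG z

/-- The chords of the tables `ω₋ = wl/2^20`, `ω₊ = wu/2^20` are below and above `Ω` between the knots `a`, `b`. -/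
def GW (a b : Knot) : Prop :=
  a.z < b.z ∧ ∀ z : ℝ, (a.z : ℝ) ≤ 1024 * z → 1024 * z ≤ (b.z : ℝ) →
    (a.wl : ℝ) * ((b.z : ℝ) - 1024 * z) + (b.wl : ℝ) * (1024 * z - (a.z : ℝ)) ≤
      1048576 * ((b.z : ℝ) - (a.z : ℝ)) * OM z ∧
    1048576 * ((b.z : ℝ) - (a.z : ℝ)) * OM z ≤
      (a.wu : ℝ) * ((b.z : ℝ) - 1024 * z) + (b.wu : ℝ) * (1024 * z - (a.z : ℝ))

/-- **KGL** (from LG WGC). The chord of `γ` is below `K_Γ` on the 134 intervals. For `L(z)` the chord, `δ = z L(z)/κ`: by WGC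
(`g² + τ (g - W)² ≤ ω² → g ≤ G`) with `g = 1 + δ` it is enough that `(1+δ)² + τ (1+δ-W)² ≤ ω(z)²`, i.e. with `q = √z`
`P(q) = (1+q)² - 4 q ((1+δ)² + τ (1+δ-W)²) ≥ 0`, `δ = r q² (p0 + p1 q²)`, `r = 1/κ = 3π/8`, `W = (5q² - q⁴)/4` for
`z ≤ 5/2` (intervals 0..56) and `25/16` for `z ≥ 5/2`. `τ ≤ 0.0807592923`; for `z` fixed the left side is convex in `r`,
so `r ∈ {1.17809724509, 1.17809724510}` (rational). `P` has degree 9 (or less) in `q`. All Bernstein coefficients of `P`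
on `[a, b]` are positive (`≥ 2e-6`), `a ≤ √ζ_i`, `√ζ_{i+1} ≤ b` rational (denominator `2^22`), for the intervals
0, 1, 3, 5, 6, 7, 8, 9, 10, 11, 13 after one bisection of `[a, b]`, for all others directly: one kernel computation
(integers) over the table. -/
def SpecKGL : Prop := Ch GG knots

/-- **OML** (60 lines). `Ω = (5 - z)/4` for `z ≤ 5/2`, `wu` exact there, `wl` exact for `z < 5/2`; `Ω = 25/(16 z)` for `z ≥ 5/2`: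
upper chord by convexity (`wu ≥ 2^20 · 25/(16 ζ)` at the knots), lower chord `p + q z ≤ 25/(16 z)` as `p² ≤ (25/4)(-q)` for
every interval. -/
def SpecOML : Prop := Ch GW knots

/-- **TRG** (100 lines). The table of the nodes (margin of every inequality at least `1e-4`, exact where `yl = yu`).
`π` with `Real.pi_gt_d20`, `pi_lt_d20`; e.g. `cos (k π/64)`, `sin (k π/64)` from `k = 1` by the addition formulas with rational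
enclosures (width `2^-60`), `sin² x = (1 - cos 2x)/2`. -/
def SpecTRG : Prop :=
  (∀ x ∈ nodT, (x.yl : ℝ) ≤ 1048576 * sin ((x.k : ℝ) * π / 128) ^ 2 ∧
    1048576 * sin ((x.k : ℝ) * π / 128) ^ 2 ≤ (x.yu : ℝ) ∧
    (x.sg : ℝ) ≤ 1048576 * (32 / π) * sin ((x.k : ℝ) * π / 64) ∧
    1048576 * (32 / π) * sin ((x.k : ℝ) * π / 64) ≤ (x.sg : ℝ) + 1)

/-- **BLN** (60 lines). The dyadic lines: consequences of `Lg.lo`, `Lg.hi`, `Lg.pair` for `1/2 ≤ x ≤ 1` (the pieces `a = 8, .., 15`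
use the lines 0, 1, 1, 2, 2, 3, 3, 4 of `bandQ`; `cutT` is `pairQ`). -/
def SpecBLN : Prop :=
  ∀ x R : ℝ → ℝ, Lg x R →
    (∀ s, 51416 - 74235 * x s ≤ 1048576 * R s) ∧
    (∀ p ∈ pcs, ∀ s, (p.a : ℝ) ≤ 16 * x s → 16 * x s ≤ (p.a : ℝ) + 1 →
      1048576 * R s ≤ (p.rh0 : ℝ) - (p.rh1 : ℝ) * x s) ∧
    (∀ q ∈ cutT, ∀ s, (q.m : ℝ) * x s + (q.kp : ℝ) - (q.kn : ℝ) ≤ 1048576 * x (s + π / 2))

/-! ## Soundness of the checker -/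

/-- Scale of the sector values. -/
noncomputable def SC : ℝ := 24 * 12288 * 2 ^ 76

/-- Bias of the sector values. -/
noncomputable def BI : ℝ := 2 ^ 104

/-- The integrand with multipliers and pair terms, `y = sin² s`, `v = x(s)`, `r = R(s)`. -/
noncomputable def Ph (u : Mul) (w : Par) (n y v r : ℝ) : ℝ :=
  ((w.Kp : ℝ) - BI - (w.Kn : ℝ)) / SC + v * (KG (n * v) + OM (n * v) * (1 / 8 - v / 6 + r)) -
    ((u.c1 : ℝ) / 2 ^ 20 * v - (u.e1 : ℝ) / 2 ^ 20 * y * v ^ 2) * (1 / 8 - v / 6) -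
    ((u.c : ℝ) / 2 ^ 20 * v - (u.e : ℝ) / 2 ^ 20 * y * v ^ 2) * r +
    (w.M : ℝ) / 2 ^ 40 * v - (w.l : ℝ) / 2 ^ 20 * v

/-- The same with the lines `g0 + g1 z`, `o0 - o1 z`, `r0 - r1 v` for `K_Γ`, `Ω`, `R`; affine in `(n, y)`. -/
noncomputable def FB (g0 g1 o0 o1 r0 r1 : ℝ) (u : Mul) (w : Par) (n y v : ℝ) : ℝ :=
  ((w.Kp : ℝ) - BI - (w.Kn : ℝ)) / SC +
    v * (g0 + g1 * (n * v) + (o0 - o1 * (n * v)) * (1 / 8 - v / 6 + (r0 - r1 * v))) -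
    ((u.c1 : ℝ) / 2 ^ 20 * v - (u.e1 : ℝ) / 2 ^ 20 * y * v ^ 2) * (1 / 8 - v / 6) -
    ((u.c : ℝ) / 2 ^ 20 * v - (u.e : ℝ) / 2 ^ 20 * y * v ^ 2) * (r0 - r1 * v) +
    (w.M : ℝ) / 2 ^ 40 * v - (w.l : ℝ) / 2 ^ 20 * v

/-- `FB` for the integer data of the checker. -/
noncomputable def FBn (g0 gp gn o0 o1 r0 r1 : ℕ) (u : Mul) (w : Par) (n y v : ℝ) : ℝ :=
  FB (((g0 : ℝ) - 2 ^ 50 - 16384) / 2 ^ 30) (((gp : ℝ) - (gn : ℝ)) / 2 ^ 20) ((o0 : ℝ) / 2 ^ 30) ((o1 : ℝ) / 2 ^ 20)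
    ((r0 : ℝ) / 2 ^ 20) ((r1 : ℝ) / 2 ^ 20) u w n y v

/-- **BRN** (200 lines). One branch. `fN a k = k a`, `ifle a b x y = if a ≤ b then x else y`; the four calls of `bc` give the
Bernstein coefficients (degree 3 on `[a/16, (a+1)/16]`, `t1j, t2j, t3j` those of `12288 v, v², v³`; check the table `pcs`
entry by entry) of the cubic `v ↦ SC · FBn .. n y v + BI` at the four vertices, `n = V.n/2^26`, `y = V.y/2^20`; the results are minima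
with `m1, .., m4`. Truncated subtraction: a positive result is exact. -/
def SpecBRN : Prop :=
  ∀ p ∈ pcs, ∀ (g0 gp gn o0 o1 r0 r1 : ℕ) (u : Mul) (w : Par) (V : Vx) (m1 m2 m3 m4 : ℕ),
    ∃ k1 k2 k3 k4 : ℕ, (∀ (α : Type) (k : ℕ → ℕ → ℕ → ℕ → α),
      brn p g0 gp gn o0 o1 r0 r1 u w V m1 m2 m3 m4 k = k k1 k2 k3 k4) ∧
      k1 ≤ m1 ∧ k2 ≤ m2 ∧ k3 ≤ m3 ∧ k4 ≤ m4 ∧
      ∀ v : ℝ, (p.a : ℝ) ≤ 16 * v → 16 * v ≤ (p.a : ℝ) + 1 →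
        (0 < k1 → (k1 : ℝ) - BI ≤ SC * FBn g0 gp gn o0 o1 r0 r1 u w ((V.n1 : ℝ) / 2 ^ 26) ((V.yl : ℝ) / 2 ^ 20) v) ∧
        (0 < k2 → (k2 : ℝ) - BI ≤ SC * FBn g0 gp gn o0 o1 r0 r1 u w ((V.n2 : ℝ) / 2 ^ 26) ((V.yl : ℝ) / 2 ^ 20) v) ∧
        (0 < k3 → (k3 : ℝ) - BI ≤ SC * FBn g0 gp gn o0 o1 r0 r1 u w ((V.n3 : ℝ) / 2 ^ 26) ((V.yu : ℝ) / 2 ^ 20) v) ∧
        (0 < k4 → (k4 : ℝ) - BI ≤ SC * FBn g0 gp gn o0 o1 r0 r1 u w ((V.n4 : ℝ) / 2 ^ 26) ((V.yu : ℝ) / 2 ^ 20) v)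

/-- The last knot is `205`. -/
def Lst : List Knot → Prop
  | [] => False
  | a :: l => match l with
    | [] => a.z = 209920
    | _ :: _ => Lst l

/-- A final piece of the table of knots. -/
def KN (l : List Knot) : Prop := Ch GG l ∧ Ch GW l ∧ Lst l

/-- The three lines at `z`. -/
def LN (g0 gp gn w0 u0 o1 : ℕ) (z : ℝ) : Prop :=
  ((g0 : ℝ) - 2 ^ 50 - 16384) / 2 ^ 30 + ((gp : ℝ) - (gn : ℝ)) / 2 ^ 20 * z ≤ KG z ∧
  (w0 : ℝ) / 2 ^ 30 - (o1 : ℝ) / 2 ^ 20 * z ≤ OM z ∧ OM z ≤ (u0 : ℝ) / 2 ^ 30 - (o1 : ℝ) / 2 ^ 20 * z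

/-- **SCN** (150 lines). The lines of a piece. Any line which is `≤ γ` at the knots of a range is `≤ K_Γ` on the range (induction over the
list: `Ch GG`), likewise for `ω₋` and `ω₊`; slopes are arbitrary. `fst` returns the first knot with `zb ≤ 2^20 z` or the last one
(`Lst`), `scan` runs up to this knot. Truncated subtraction: a positive `g0` is exact. -/
def SpecSCN : Prop :=
  ∀ (zb : ℕ) (p : Pc) (u : Mul) (w : Par) (V : Vx) (k0 k1 : Knot) (l : List Knot) (m1 m2 m3 m4 : ℕ),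
    KN (k0 :: k1 :: l) → k0.z * 1048576 ≤ zb →
    ∃ g0 gp gn w0 u0 o1 : ℕ, (∀ (α : Type) (k : ℕ → ℕ → ℕ → ℕ → α),
      piece zb p u w V k0 (k1 :: l) m1 m2 m3 m4 k =
        ifle 1 g0 (br4 p g0 gp gn w0 u0 o1 u w V m1 m2 m3 m4 k) (k 0 0 0 0)) ∧
      (0 < g0 → ∀ z : ℝ, (k0.z : ℝ) ≤ 1024 * z → 2 ^ 30 * z ≤ (zb : ℝ) → 1024 * z ≤ 209920 →
        LN g0 gp gn w0 u0 o1 z)

/-- An affine function of `(n, y)` below `SC · Φ` at `(n, y)` and above `m - BI` at the four vertices. -/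
def PF (u : Mul) (w : Par) (V : Vx) (m1 m2 m3 m4 : ℕ) (n y v r : ℝ) : Prop :=
  ∃ F0 F1 F2 : ℝ, F0 + F1 * n + F2 * y ≤ SC * Ph u w n y v r ∧
    (m1 : ℝ) - BI ≤ F0 + F1 * ((V.n1 : ℝ) / 2 ^ 26) + F2 * ((V.yl : ℝ) / 2 ^ 20) ∧
    (m2 : ℝ) - BI ≤ F0 + F1 * ((V.n2 : ℝ) / 2 ^ 26) + F2 * ((V.yl : ℝ) / 2 ^ 20) ∧
    (m3 : ℝ) - BI ≤ F0 + F1 * ((V.n3 : ℝ) / 2 ^ 26) + F2 * ((V.yu : ℝ) / 2 ^ 20) ∧
    (m4 : ℝ) - BI ≤ F0 + F1 * ((V.n4 : ℝ) / 2 ^ 26) + F2 * ((V.yu : ℝ) / 2 ^ 20)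

/-- Admissible values: `v = x(s)`, `r = R(s)`, `z = n v`. -/
def Adv (n v r : ℝ) : Prop :=
  1 / 2 ≤ v ∧ v ≤ 1 ∧ 1 / 4 ≤ n * v ∧ n * v < 205 ∧ 51416 - 74235 * v ≤ 1048576 * r ∧
  ∀ p ∈ pcs, (p.a : ℝ) ≤ 16 * v → 16 * v ≤ (p.a : ℝ) + 1 → 1048576 * r ≤ (p.rh0 : ℝ) - (p.rh1 : ℝ) * v

/-- **PCS** (200 lines, from BRN, SCN). All pieces. For `v` in the piece `p` and `z = n v` in the range: `SC · Φ` is affine in `Ω(z)` and
in `r`; for `br = 0` (`a ≤ 10`) `1/8 - v/6 + r ≥ 0` (from `r ≥ (51416 - 74235 v)/2^20`, `v ≤ 11/16`): lower line of `Ω`; for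
`br = 2` (`a ≥ 13`) `≤ 0`: upper line; for `br = 1` by sign; then `r` is replaced by one of the lines `(51416, 74235)`,
`(rh0, rh1)`. `F0 + F1 n + F2 y = SC · FBn .. n y v`. -/
def SpecPCS : Prop :=
  ∀ (nmin nmax : ℕ) (u : Mul) (w : Par) (V : Vx) (k0 : Knot) (l : List Knot) (m1 m2 m3 m4 : ℕ),
    KN (k0 :: l) → k0.z ≤ 256 →
    ∃ k1 k2 k3 k4 : ℕ, (∀ (α : Type) (k : ℕ → ℕ → ℕ → ℕ → α),
      pieces nmin nmax u w V k pcs k0 l m1 m2 m3 m4 = k k1 k2 k3 k4) ∧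
      (0 < k1 → 0 < k2 → 0 < k3 → 0 < k4 → ∀ n y v r : ℝ, (nmin : ℝ) ≤ 2 ^ 26 * n → 2 ^ 26 * n ≤ (nmax : ℝ) →
        Adv n v r → PF u w V k1 k2 k3 k4 n y v r)

/-- `Σ_ij w_ij d_ij` for the product weights of `(A, B)` in the cell. -/
noncomputable def wt (A1 A2 B1 B2 : ℕ) (A B d1 d2 d3 d4 : ℝ) : ℝ :=
  (((A2 : ℝ) - 64 * A) * (((B2 : ℝ) - 64 * B) * d1 + (64 * B - (B1 : ℝ)) * d2) +
    (64 * A - (A1 : ℝ)) * (((B2 : ℝ) - 64 * B) * d3 + (64 * B - (B1 : ℝ)) * d4)) /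
    (((A2 : ℝ) - (A1 : ℝ)) * ((B2 : ℝ) - (B1 : ℝ)))

/-- **SCT** (250 lines, from PCS). One sector. `k1, .., k4 > 0` from PCS at the vertices `(n1, yl), (n2, yl), (n3, yu), (n4, yu)`,
`n = A(1-Y) + B Y` (scaled). `F0 + F1 n + F2 y` (PF) at `(A, B, Y)` is the interpolation in `Y` of its values at `yl`, `yu`, and these
are the weighted means (`wt`) of the values at the corners `(A_i, B_j)`; those of the corners `(A1, B2)`, `(A2, B1)` are by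
interpolation in `n` between `n1, n2` (`n3, n4`) at least `(..)/Dl - BI` of the checker. So `a`, `b` are `wt` of `(m_ij - BI)/(yu - yl)`
and the second claim is the definition of `contr` (affine in `η`, `N α + N' β` with `α, β ≥ 0`). -/
def SpecSCT : Prop :=
  ∀ (A1 A2 B1 B2 : ℕ) (u : Mul) (w : Par) (x x' : Nod) (s1 s2 s3 s4 : ℕ) (k : ℕ → ℕ → ℕ → ℕ → Bool)
    (K0 : Knot) (K : List Knot), KN (K0 :: K) → K0.z ≤ 256 → A1 < A2 → B1 < B2 → x.yl < x'.yu →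
    x'.yu ≤ 1048576 → x.k < x'.k → sector K0 K A1 A2 B1 B2 u w x x' s1 s2 s3 s4 k = true →
    ∃ t1 t2 t3 t4 : ℕ, k t1 t2 t3 t4 = true ∧
      ∀ A B : ℝ, (A1 : ℝ) ≤ 64 * A → 64 * A ≤ (A2 : ℝ) → (B1 : ℝ) ≤ 64 * B → 64 * B ≤ (B2 : ℝ) →
      ∃ a b : ℝ,
        (∀ Y v r : ℝ, (x.yl : ℝ) ≤ 1048576 * Y → 1048576 * Y ≤ (x'.yu : ℝ) → Adv (A * (1 - Y) + B * Y) v r →
          a * ((x'.yu : ℝ) - 1048576 * Y) + b * (1048576 * Y - (x.yl : ℝ)) ≤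
            SC * Ph u w (A * (1 - Y) + B * Y) Y v r) ∧
        (∀ η : ℝ, ((x'.k : ℝ) - (x.k : ℝ)) * 524288 - ((x'.sg : ℝ) - (x.sg : ℝ)) - 1 ≤ η →
          η ≤ ((x'.k : ℝ) - (x.k : ℝ)) * 524288 - ((x'.sg : ℝ) - (x.sg : ℝ)) + 1 →
          (x.yl : ℝ) * ((x'.k : ℝ) - (x.k : ℝ)) ≤ η → η ≤ (x'.yu : ℝ) * ((x'.k : ℝ) - (x.k : ℝ)) →
          wt A1 A2 B1 B2 A B ((t1 : ℝ) - (s1 : ℝ)) ((t2 : ℝ) - (s2 : ℝ)) ((t3 : ℝ) - (s3 : ℝ)) ((t4 : ℝ) - (s4 : ℝ)) ≤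
            a * ((x'.yu : ℝ) * ((x'.k : ℝ) - (x.k : ℝ)) - η) + b * (η - (x.yl : ℝ) * ((x'.k : ℝ) - (x.k : ℝ))) +
              BI * ((x'.k : ℝ) - (x.k : ℝ)))

/-- The pair terms of the block `i`. -/
noncomputable def wp (c : Cell) (i : ℕ) : Par :=
  ifle i 7 (parL (getL [] c.lam i) 0 0 0) (parM (getL [] c.lam (Nat.sub 15 i)) 0)

/-- `(A, B)` in the cell. -/
def InC (c : Cell) (A B : ℝ) : Prop :=
  (c.A1 : ℝ) ≤ 64 * A ∧ 64 * A ≤ (c.A2 : ℝ) ∧ (c.B1 : ℝ) ≤ 64 * B ∧ 64 * B ≤ (c.B2 : ℝ)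

/-- **CEL** (250 lines, from SCT, KGL, OML, TRG, BLN). Sum over the sectors: `∫` over `[kπ/128, k'π/128]` of the minorant of SCT,
`η = (128/π) ∫ 2^20 sin²`. -/
def SpecCEL : Prop :=
  ∀ c : Cell, chk c = true → ∀ x R : ℝ → ℝ, Lg x R → ∀ A B : ℝ, InC c A B →
    (∀ s, 1 / 4 ≤ nn A B s * x s ∧ nn A B s * x s < 205) →
    0 ≤ ∑ i ∈ Finset.range 16, ∫ s in ((i : ℝ) * π / 32)..(((i : ℝ) + 1) * π / 32),
      Ph c.u (wp c i) (nn A B s) (sin s ^ 2) (x s) (R s)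

/-- **FIN** (250 lines, from CEL, BLN). The planar inequality on a cell. CEL for `(x, R)` and for `(x(-·), R(-·))` (again `Lg`);
`∫_0^{2π} F(y, x, R) = 2 ∫_0^{π/2} [F(y, x, R)(s) + F(y, x, R)(-s)] ds` (`y = sin²`, period `π`); multipliers: `twoS` with
`r1 = 0, r2 = e1/c1`, `twoR` with `r2 = e/c`; pairs: for `s ∈ [iπ/32, (i+1)π/32]`, `i < 8`: `Σ λ (m x(s) + k) ≤ (Σ λ) x(s + π/2)`, and
`x(s + π/2) = x(-(π/2 - s))`, where `π/2 - s` is in the block `15 - i`. -/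
def SpecFIN : Prop :=
  ∀ c : Cell, chk c = true → ∀ x R : ℝ → ℝ, Lg x R → ∀ A B : ℝ, InC c A B → 0 < A → 0 < B →
    (∀ s, 1 / 4 ≤ nn A B s * x s ∧ nn A B s * x s < 205) →
    0 ≤ ∫ s in (0 : ℝ)..(2 * π), Jn (nn A B s) (x s) (R s)

/-- The `i`-th group of the data, a Boolean computation: see `CT/DAT`. -/
def AllC (l : List Cell) : Prop := ∀ c ∈ l, chk c = true

end Pool.Agent.Lib.MP_084b88_gt.CT
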