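import Pool.Agent.Lib.MP_084b88_gt.CT.Spec

section
/-!
# MP_084b88_gt, project CT: module PCS (all pieces of a sector)
-/
set_option autoImplicit false

open MeasureTheory Set Real

namespace Pool.Agent.Lib.MP_084b88_gt.CT.PCSM

open Pool.Agent.Lib.MP_084b88_gt.CT

theorem fN_eq {α : Type} (a : ℕ) (k : ℕ → α) : fN a k = k a := by
  cases a <;> rfl

theorem ifle_eq {α : Type} (a b : ℕ) (x y : α) : ifle a b x y = if a ≤ b then x else y := by
  unfold ifle
  by_cases h : a ≤ b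
  · rw [if_pos h, show Nat.ble a b = true from Nat.ble_eq_true_of_le h]
  · rw [if_neg h]
    have h2 : Nat.ble a b = false := by
      cases h3 : Nat.ble a b
      · rfl
      · exact absurd (Nat.le_of_ble_eq_true h3) h
    rw [h2]

theorem KN_tail {a b : Knot} {l : List Knot} (h : KN (a :: b :: l)) : KN (b :: l) :=
  ⟨h.1.2, h.2.1.2, h.2.2⟩

/-- `drp` stops at a final piece of the table. -/
theorem drp_ex (za : ℕ) (l : List Knot) : ∀ k0 : Knot, KN (k0 :: l) → ∃ (k0' : Knot) (l' : List Knot),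
    KN (k0' :: l') ∧ (k0'.z * 1048576 ≤ k0.z * 1048576 ∨ k0'.z * 1048576 ≤ za) ∧
    ∀ (α : Type) (cont : Knot → List Knot → α), drp za cont l k0 = cont k0' l' := by
  induction l with
  | nil =>
    intro k0 h
    exact ⟨k0, [], h, Or.inl le_rfl, fun α cont => rfl⟩
  | cons k1 r ih =>
    intro k0 h
    by_cases h1 : k1.z * 1048576 ≤ za
    · obtain ⟨k0', l', h2, h3, h4⟩ := ih k1 (KN_tail h)
      refine ⟨k0', l', h2, ?_, fun α cont => ?_⟩
      · rcases h3 with h3 | h3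
        · exact Or.inr (h3.trans h1)
        · exact Or.inr h3
      · have h5 : drp za cont (k1 :: r) k0 = ifle (Nat.mul k1.z 1048576) za (drp za cont r k1) (cont k0 (k1 :: r)) := rfl
        rw [h5, ifle_eq, if_pos (show Nat.mul k1.z 1048576 ≤ za from h1), h4]
    · refine ⟨k0, k1 :: r, h, Or.inl le_rfl, fun α cont => ?_⟩
      have h5 : drp za cont (k1 :: r) k0 = ifle (Nat.mul k1.z 1048576) za (drp za cont r k1) (cont k0 (k1 :: r)) := rfl
      rw [h5, ifle_eq, if_neg (show ¬ Nat.mul k1.z 1048576 ≤ za from h1)]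

/-- `FB` is affine in `(n, y)`. -/
theorem FB_aff (g0 g1 o0 o1 r0 r1 : ℝ) (u : Mul) (w : Par) (v : ℝ) : ∃ F0 F1 F2 : ℝ, ∀ n y : ℝ,
    F0 + F1 * n + F2 * y = SC * FB g0 g1 o0 o1 r0 r1 u w n y v := by
  refine ⟨SC * FB g0 g1 o0 o1 r0 r1 u w 0 0 v,
    SC * FB g0 g1 o0 o1 r0 r1 u w 1 0 v - SC * FB g0 g1 o0 o1 r0 r1 u w 0 0 v,
    SC * FB g0 g1 o0 o1 r0 r1 u w 0 1 v - SC * FB g0 g1 o0 o1 r0 r1 u w 0 0 v, fun n y => ?_⟩
  unfold FB
  ring

theorem SC_pos : 0 < SC := by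
  unfold SC
  positivity

/-- The estimate of `Ph` by `FB` for given lines. -/
theorem Ph_ge (g0 g1 o0 o1 r0 r1 : ℝ) (u : Mul) (w : Par) (n y v r : ℝ) (hv : 0 ≤ v)
    (hG : g0 + g1 * (n * v) ≤ KG (n * v))
    (hO : (o0 - o1 * (n * v)) * (1 / 8 - v / 6 + r) ≤ OM (n * v) * (1 / 8 - v / 6 + r))
    (hR : 0 ≤ (v * (o0 - o1 * (n * v)) - ((u.c : ℝ) / 2 ^ 20 * v - (u.e : ℝ) / 2 ^ 20 * y * v ^ 2)) *
      (r - (r0 - r1 * v))) :
    FB g0 g1 o0 o1 r0 r1 u w n y v ≤ Ph u w n y v r := by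
  unfold FB Ph
  have h1 := mul_le_mul_of_nonneg_left hG hv
  have h2 := mul_le_mul_of_nonneg_left hO hv
  nlinarith [h1, h2, hR]

theorem PF_mono (u : Mul) (w : Par) (V : Vx) (m1 m2 m3 m4 k1 k2 k3 k4 : ℕ) (n y v r : ℝ)
    (h1 : k1 ≤ m1) (h2 : k2 ≤ m2) (h3 : k3 ≤ m3) (h4 : k4 ≤ m4) (h : PF u w V m1 m2 m3 m4 n y v r) :
    PF u w V k1 k2 k3 k4 n y v r := by
  obtain ⟨F0, F1, F2, a, b, c, d, e⟩ := h
  have h1' : (k1 : ℝ) ≤ m1 := by exact_mod_cast h1
  have h2' : (k2 : ℝ) ≤ m2 := by exact_mod_cast h2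
  have h3' : (k3 : ℝ) ≤ m3 := by exact_mod_cast h3
  have h4' : (k4 : ℝ) ≤ m4 := by exact_mod_cast h4
  exact ⟨F0, F1, F2, a, by linarith, by linarith, by linarith, by linarith⟩

/-- The two branches in `R`. -/
theorem br2_ex (hBRN : SpecBRN) (p : Pc) (hp : p ∈ pcs) (g0 gp gn o0 o1 : ℕ) (u : Mul) (w : Par) (V : Vx)
    (m1 m2 m3 m4 : ℕ) : ∃ k1 k2 k3 k4 : ℕ, (∀ (α : Type) (k : ℕ → ℕ → ℕ → ℕ → α),
      br2 p g0 gp gn o0 o1 u w V m1 m2 m3 m4 k = k k1 k2 k3 k4) ∧
      k1 ≤ m1 ∧ k2 ≤ m2 ∧ k3 ≤ m3 ∧ k4 ≤ m4 ∧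
      (0 < k1 → 0 < k2 → 0 < k3 → 0 < k4 → ∀ n y v r : ℝ, 0 ≤ v → (p.a : ℝ) ≤ 16 * v → 16 * v ≤ (p.a : ℝ) + 1 →
        ((g0 : ℝ) - 2 ^ 50 - 16384) / 2 ^ 30 + ((gp : ℝ) - (gn : ℝ)) / 2 ^ 20 * (n * v) ≤ KG (n * v) →
        ((o0 : ℝ) / 2 ^ 30 - (o1 : ℝ) / 2 ^ 20 * (n * v)) * (1 / 8 - v / 6 + r) ≤ OM (n * v) * (1 / 8 - v / 6 + r) →
        51416 - 74235 * v ≤ 1048576 * r → 1048576 * r ≤ (p.rh0 : ℝ) - (p.rh1 : ℝ) * v →
        PF u w V k1 k2 k3 k4 n y v r) := by
  obtain ⟨a1, a2, a3, a4, ha, ha1, ha2, ha3, ha4, hav⟩ := hBRN p hp g0 gp gn o0 o1 51416 74235 u w V m1 m2 m3 m4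
  obtain ⟨b1, b2, b3, b4, hb, hb1, hb2, hb3, hb4, hbv⟩ := hBRN p hp g0 gp gn o0 o1 p.rh0 p.rh1 u w V a1 a2 a3 a4
  refine ⟨b1, b2, b3, b4, fun α k => ?_, hb1.trans ha1, hb2.trans ha2, hb3.trans ha3, hb4.trans ha4, ?_⟩
  · unfold br2
    rw [ha, hb]
  intro k1 k2 k3 k4 n y v r hv0 hv1 hv2 hG hO hlo hhi
  rcases le_total 0 (v * ((o0 : ℝ) / 2 ^ 30 - (o1 : ℝ) / 2 ^ 20 * (n * v)) -
      ((u.c : ℝ) / 2 ^ 20 * v - (u.e : ℝ) / 2 ^ 20 * y * v ^ 2)) with hs | hs
  · refine PF_mono u w V a1 a2 a3 a4 b1 b2 b3 b4 n y v r hb1 hb2 hb3 hb4 ?_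
    obtain ⟨c1, c2, c3, c4⟩ := hav v hv1 hv2
    obtain ⟨F0, F1, F2, hF⟩ := FB_aff (((g0 : ℝ) - 2 ^ 50 - 16384) / 2 ^ 30) (((gp : ℝ) - (gn : ℝ)) / 2 ^ 20)
      ((o0 : ℝ) / 2 ^ 30) ((o1 : ℝ) / 2 ^ 20) (((51416 : ℕ) : ℝ) / 2 ^ 20) (((74235 : ℕ) : ℝ) / 2 ^ 20) u w v
    refine ⟨F0, F1, F2, ?_, ?_, ?_, ?_, ?_⟩
    · rw [hF]
      refine mul_le_mul_of_nonneg_left (Ph_ge _ _ _ _ _ _ u w n y v r hv0 hG hO (mul_nonneg hs ?_)) SC_pos.le
      push_cast
      linarith
    · rw [hF]; exact c1 (k1.trans_le hb1)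
    · rw [hF]; exact c2 (k2.trans_le hb2)
    · rw [hF]; exact c3 (k3.trans_le hb3)
    · rw [hF]; exact c4 (k4.trans_le hb4)
  · obtain ⟨c1, c2, c3, c4⟩ := hbv v hv1 hv2
    obtain ⟨F0, F1, F2, hF⟩ := FB_aff (((g0 : ℝ) - 2 ^ 50 - 16384) / 2 ^ 30) (((gp : ℝ) - (gn : ℝ)) / 2 ^ 20)
      ((o0 : ℝ) / 2 ^ 30) ((o1 : ℝ) / 2 ^ 20) ((p.rh0 : ℝ) / 2 ^ 20) ((p.rh1 : ℝ) / 2 ^ 20) u w v
    refine ⟨F0, F1, F2, ?_, ?_, ?_, ?_, ?_⟩
    · rw [hF]
      refine mul_le_mul_of_nonneg_left (Ph_ge _ _ _ _ _ _ u w n y v r hv0 hG hO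
        (mul_nonneg_of_nonpos_of_nonpos hs ?_)) SC_pos.le
      linarith
    · rw [hF]; exact c1 k1
    · rw [hF]; exact c2 k2
    · rw [hF]; exact c3 k3
    · rw [hF]; exact c4 k4

/-- The sign of `1/8 - v/6 + r` on the pieces. -/
theorem sgn (p : Pc) (hp : p ∈ pcs) : (p.br = 0 ∧ ∀ v r : ℝ, 16 * v ≤ (p.a : ℝ) + 1 →
      51416 - 74235 * v ≤ 1048576 * r → 0 ≤ 1 / 8 - v / 6 + r) ∨ p.br = 1 ∨
    (p.br = 2 ∧ ∀ v r : ℝ, (p.a : ℝ) ≤ 16 * v → 1048576 * r ≤ (p.rh0 : ℝ) - (p.rh1 : ℝ) * v →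
      1 / 8 - v / 6 + r ≤ 0) := by
  simp only [pcs, List.mem_cons, List.not_mem_nil, or_false] at hp
  rcases hp with rfl | rfl | rfl | rfl | rfl | rfl | rfl | rfl
  · refine Or.inl ⟨rfl, fun v r h1 h2 => ?_⟩
    norm_num at h1 h2 ⊢
    linarith
  · refine Or.inl ⟨rfl, fun v r h1 h2 => ?_⟩
    norm_num at h1 h2 ⊢
    linarith
  · refine Or.inl ⟨rfl, fun v r h1 h2 => ?_⟩
    norm_num at h1 h2 ⊢
    linarith
  · exact Or.inr (Or.inl rfl)
  · exact Or.inr (Or.inl rfl)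
  · refine Or.inr (Or.inr ⟨rfl, fun v r h1 h2 => ?_⟩)
    norm_num at h1 h2 ⊢
    linarith
  · refine Or.inr (Or.inr ⟨rfl, fun v r h1 h2 => ?_⟩)
    norm_num at h1 h2 ⊢
    linarith
  · refine Or.inr (Or.inr ⟨rfl, fun v r h1 h2 => ?_⟩)
    norm_num at h1 h2 ⊢
    linarith

/-- The branches in `ω`. -/
theorem br4_ex (hBRN : SpecBRN) (p : Pc) (hp : p ∈ pcs) (g0 gp gn w0 u0 o1 : ℕ) (u : Mul) (w : Par) (V : Vx)
    (m1 m2 m3 m4 : ℕ) : ∃ k1 k2 k3 k4 : ℕ, (∀ (α : Type) (k : ℕ → ℕ → ℕ → ℕ → α),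
      br4 p g0 gp gn w0 u0 o1 u w V m1 m2 m3 m4 k = k k1 k2 k3 k4) ∧
      k1 ≤ m1 ∧ k2 ≤ m2 ∧ k3 ≤ m3 ∧ k4 ≤ m4 ∧
      (0 < k1 → 0 < k2 → 0 < k3 → 0 < k4 → ∀ n y v r : ℝ, 0 ≤ v → (p.a : ℝ) ≤ 16 * v → 16 * v ≤ (p.a : ℝ) + 1 →
        LN g0 gp gn w0 u0 o1 (n * v) →
        51416 - 74235 * v ≤ 1048576 * r → 1048576 * r ≤ (p.rh0 : ℝ) - (p.rh1 : ℝ) * v →
        PF u w V k1 k2 k3 k4 n y v r) := by
  rcases sgn p hp with ⟨hb, hS⟩ | hb | ⟨hb, hS⟩
  · obtain ⟨a1, a2, a3, a4, ha, ha1, ha2, ha3, ha4, hav⟩ := br2_ex hBRN p hp g0 gp gn w0 o1 u w V m1 m2 m3 m4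
    refine ⟨a1, a2, a3, a4, fun α k => ?_, ha1, ha2, ha3, ha4, ?_⟩
    · unfold br4
      rw [hb]
      exact ha α k
    · intro k1 k2 k3 k4 n y v r hv0 hv1 hv2 hL hlo hhi
      exact hav k1 k2 k3 k4 n y v r hv0 hv1 hv2 hL.1
        (mul_le_mul_of_nonneg_right hL.2.1 (hS v r hv2 hlo)) hlo hhi
  · obtain ⟨a1, a2, a3, a4, ha, ha1, ha2, ha3, ha4, hav⟩ := br2_ex hBRN p hp g0 gp gn w0 o1 u w V m1 m2 m3 m4
    obtain ⟨b1, b2, b3, b4, hb', hb1, hb2, hb3, hb4, hbv⟩ := br2_ex hBRN p hp g0 gp gn u0 o1 u w V a1 a2 a3 a4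
    refine ⟨b1, b2, b3, b4, fun α k => ?_, hb1.trans ha1, hb2.trans ha2, hb3.trans ha3, hb4.trans ha4, ?_⟩
    · unfold br4
      rw [hb]
      exact (ha α _).trans (hb' α k)
    · intro k1 k2 k3 k4 n y v r hv0 hv1 hv2 hL hlo hhi
      rcases le_total 0 (1 / 8 - v / 6 + r) with hS | hS
      · exact PF_mono u w V a1 a2 a3 a4 b1 b2 b3 b4 n y v r hb1 hb2 hb3 hb4
          (hav (k1.trans_le hb1) (k2.trans_le hb2) (k3.trans_le hb3) (k4.trans_le hb4) n y v r hv0 hv1 hv2 hL.1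
            (mul_le_mul_of_nonneg_right hL.2.1 hS) hlo hhi)
      · exact hbv k1 k2 k3 k4 n y v r hv0 hv1 hv2 hL.1
          (mul_le_mul_of_nonpos_right hL.2.2 hS) hlo hhi
  · obtain ⟨a1, a2, a3, a4, ha, ha1, ha2, ha3, ha4, hav⟩ := br2_ex hBRN p hp g0 gp gn u0 o1 u w V m1 m2 m3 m4
    refine ⟨a1, a2, a3, a4, fun α k => ?_, ha1, ha2, ha3, ha4, ?_⟩
    · unfold br4
      rw [hb]
      exact ha α k
    · intro k1 k2 k3 k4 n y v r hv0 hv1 hv2 hL hlo hhi
      exact hav k1 k2 k3 k4 n y v r hv0 hv1 hv2 hL.1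
        (mul_le_mul_of_nonpos_right hL.2.2 (hS v r hv1 hhi)) hlo hhi

/-- One piece. -/
theorem piece_ex (hBRN : SpecBRN) (hSCN : SpecSCN) (zb : ℕ) (p : Pc) (hp : p ∈ pcs) (u : Mul) (w : Par) (V : Vx)
    (k0 : Knot) (l : List Knot) (hK : KN (k0 :: l)) (m1 m2 m3 m4 : ℕ) :
    ∃ k1 k2 k3 k4 : ℕ, (∀ (α : Type) (k : ℕ → ℕ → ℕ → ℕ → α),
      piece zb p u w V k0 l m1 m2 m3 m4 k = k k1 k2 k3 k4) ∧
      k1 ≤ m1 ∧ k2 ≤ m2 ∧ k3 ≤ m3 ∧ k4 ≤ m4 ∧
      (0 < k1 → 0 < k2 → 0 < k3 → 0 < k4 → ∀ n y v r : ℝ, Adv n v r → (p.a : ℝ) ≤ 16 * v → 16 * v ≤ (p.a : ℝ) + 1 →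
        (k0.z : ℝ) ≤ 1024 * (n * v) → 2 ^ 30 * (n * v) ≤ (zb : ℝ) → PF u w V k1 k2 k3 k4 n y v r) := by
  by_cases h : k0.z * 1048576 ≤ zb
  · cases l with
    | nil =>
      refine ⟨m1, m2, m3, m4, fun α k => ?_, le_rfl, le_rfl, le_rfl, le_rfl, ?_⟩
      · unfold piece
        rw [ifle_eq, if_pos (show Nat.mul k0.z 1048576 ≤ zb from h)]
      · intro _ _ _ _ n y v r hA _ _ hz _
        have h1 : k0.z = 209920 := hK.2.2
        rw [h1] at hz
        have h2 := hA.2.2.2.1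
        push_cast at hz
        linarith
    | cons k1 l =>
      obtain ⟨g0, gp, gn, w0, u0, o1, h1, h2⟩ := hSCN zb p u w V k0 k1 l m1 m2 m3 m4 hK h
      by_cases hg : 0 < g0
      · obtain ⟨a1, a2, a3, a4, ha, ha1, ha2, ha3, ha4, hav⟩ := br4_ex hBRN p hp g0 gp gn w0 u0 o1 u w V m1 m2 m3 m4
        refine ⟨a1, a2, a3, a4, fun α k => ?_, ha1, ha2, ha3, ha4, ?_⟩
        · rw [h1, ifle_eq, if_pos (show 1 ≤ g0 from hg), ha]
        · intro q1 q2 q3 q4 n y v r hA hv1 hv2 hz1 hz2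
          obtain ⟨c1, c2, c3, c4, c5, c6⟩ := hA
          exact hav q1 q2 q3 q4 n y v r (by linarith) hv1 hv2 (h2 hg (n * v) hz1 hz2 (by linarith)) c5 (c6 p hp hv1 hv2)
      · refine ⟨0, 0, 0, 0, fun α k => ?_, Nat.zero_le _, Nat.zero_le _, Nat.zero_le _, Nat.zero_le _, ?_⟩
        · rw [h1, ifle_eq, if_neg (show ¬ 1 ≤ g0 from hg)]
        · intro q1
          exact absurd q1 (lt_irrefl 0)
  · refine ⟨m1, m2, m3, m4, fun α k => ?_, le_rfl, le_rfl, le_rfl, le_rfl, ?_⟩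
    · unfold piece
      rw [ifle_eq, if_neg (show ¬ Nat.mul k0.z 1048576 ≤ zb from h)]
    · intro _ _ _ _ n y v r hA _ _ hz1 hz2
      have h1 : (zb : ℝ) < k0.z * 1048576 := by exact_mod_cast not_le.1 h
      linarith

/-- All pieces of a list. -/
theorem pieces_ex (hBRN : SpecBRN) (hSCN : SpecSCN) (nmin nmax : ℕ) (u : Mul) (w : Par) (V : Vx) (ps : List Pc) :
    (∀ p ∈ ps, p ∈ pcs) → ps.Pairwise (fun p q => p.a ≤ q.a) → ∀ (k0 : Knot) (l : List Knot) (m1 m2 m3 m4 : ℕ),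
    KN (k0 :: l) → (∀ p ∈ ps, k0.z * 1048576 ≤ 2 ^ 28 ∨ k0.z * 1048576 ≤ nmin * p.a) →
    ∃ k1 k2 k3 k4 : ℕ, (∀ (α : Type) (k : ℕ → ℕ → ℕ → ℕ → α),
      pieces nmin nmax u w V k ps k0 l m1 m2 m3 m4 = k k1 k2 k3 k4) ∧
      k1 ≤ m1 ∧ k2 ≤ m2 ∧ k3 ≤ m3 ∧ k4 ≤ m4 ∧
      (0 < k1 → 0 < k2 → 0 < k3 → 0 < k4 → ∀ n y v r : ℝ, (nmin : ℝ) ≤ 2 ^ 26 * n → 2 ^ 26 * n ≤ (nmax : ℝ) →
        Adv n v r → (∃ p ∈ ps, (p.a : ℝ) ≤ 16 * v ∧ 16 * v ≤ (p.a : ℝ) + 1) → PF u w V k1 k2 k3 k4 n y v r) := by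
  induction ps with
  | nil =>
    intro _ _ k0 l m1 m2 m3 m4 _ _
    refine ⟨m1, m2, m3, m4, fun α k => rfl, le_rfl, le_rfl, le_rfl, le_rfl, ?_⟩
    intro _ _ _ _ n y v r _ _ _ h
    obtain ⟨p, hp, _⟩ := h
    simp at hp
  | cons p ps ih =>
    intro hsub hpw k0 l m1 m2 m3 m4 hK hz
    obtain ⟨k0', l', hK', hd, hdrp⟩ := drp_ex (nmin * p.a) l k0 hK
    have hz' : k0'.z * 1048576 ≤ 2 ^ 28 ∨ k0'.z * 1048576 ≤ nmin * p.a := by
      rcases hd with hd | hd
      · rcases hz p (by simp) with h | h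
        · exact Or.inl (hd.trans h)
        · exact Or.inr (hd.trans h)
      · exact Or.inr hd
    rw [List.pairwise_cons] at hpw
    obtain ⟨a1, a2, a3, a4, ha, ha1, ha2, ha3, ha4, hav⟩ :=
      piece_ex hBRN hSCN (nmax * (p.a + 1)) p (hsub p (by simp)) u w V k0' l' hK' m1 m2 m3 m4
    obtain ⟨b1, b2, b3, b4, hb, hb1, hb2, hb3, hb4, hbv⟩ :=
      ih (fun q hq => hsub q (by simp [hq])) hpw.2 k0' l' a1 a2 a3 a4 hK' (fun q hq => by
        rcases hz' with h | h
        · exact Or.inl h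
        · exact Or.inr (h.trans (Nat.mul_le_mul_left _ (hpw.1 q hq))))
    refine ⟨b1, b2, b3, b4, fun α k => ?_, hb1.trans ha1, hb2.trans ha2, hb3.trans ha3, hb4.trans ha4, ?_⟩
    · have h1 : pieces nmin nmax u w V k (p :: ps) k0 l m1 m2 m3 m4 =
          fN (Nat.mul nmin p.a) fun za => fN (Nat.mul nmax (Nat.succ p.a)) fun zb =>
          drp za (fun k0 l => piece zb p u w V k0 l m1 m2 m3 m4 fun m1 m2 m3 m4 =>
            pieces nmin nmax u w V k ps k0 l m1 m2 m3 m4) l k0 := rfl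
      rw [h1, fN_eq, fN_eq]
      exact (hdrp α _).trans ((ha α _).trans (hb α k))
    · intro q1 q2 q3 q4 n y v r hn1 hn2 hA hex
      obtain ⟨p', hp', hv1, hv2⟩ := hex
      rw [List.mem_cons] at hp'
      rcases hp' with rfl | hp'
      · refine PF_mono u w V a1 a2 a3 a4 b1 b2 b3 b4 n y v r hb1 hb2 hb3 hb4
          (hav (q1.trans_le hb1) (q2.trans_le hb2) (q3.trans_le hb3) (q4.trans_le hb4) n y v r hA hv1 hv2 ?_ ?_)
        · have hv0 : 0 ≤ v := by linarith [hA.1]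
          have hzq := hA.2.2.1
          rcases hz' with h | h
          · have h' : (k0'.z : ℝ) * 1048576 ≤ 2 ^ 28 := by exact_mod_cast h
            linarith
          · have h' : (k0'.z : ℝ) * 1048576 ≤ nmin * p'.a := by exact_mod_cast h
            have h3 : (nmin : ℝ) * p'.a ≤ (2 ^ 26 * n) * (16 * v) :=
              mul_le_mul hn1 hv1 (Nat.cast_nonneg _) (le_trans (Nat.cast_nonneg _) hn1)
            nlinarith
        · have hv0 : 0 ≤ v := by linarith [hA.1]
          have h3 : (2 ^ 26 * n) * (16 * v) ≤ (nmax : ℝ) * ((p'.a : ℝ) + 1) :=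
            mul_le_mul hn2 hv2 (by positivity) (Nat.cast_nonneg _)
          push_cast
          nlinarith
      · exact hbv q1 q2 q3 q4 n y v r hn1 hn2 hA ⟨p', hp', hv1, hv2⟩

/-- Every `v` in `[1/2, 1]` is in a piece. -/
theorem cover (v : ℝ) (h1 : 1 / 2 ≤ v) (h2 : v ≤ 1) : ∃ p ∈ pcs, (p.a : ℝ) ≤ 16 * v ∧ 16 * v ≤ (p.a : ℝ) + 1 := by
  have hm : ∀ q : ℕ, 8 ≤ q → q ≤ 15 → ∃ p ∈ pcs, p.a = q := by
    intro q h1 h2
    interval_cases q
    all_goals simp [pcs]
  rcases eq_or_lt_of_le h2 with h | h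
  · obtain ⟨p, hp, hq⟩ := hm 15 (by norm_num) le_rfl
    refine ⟨p, hp, ?_, ?_⟩ <;> rw [hq, h] <;> norm_num
  · have h3 : (0 : ℝ) ≤ 16 * v := by linarith
    have h4 : 8 ≤ ⌊16 * v⌋₊ := Nat.le_floor (by norm_num; linarith)
    have h5 : ⌊16 * v⌋₊ < 16 := (Nat.floor_lt h3).2 (by norm_num; linarith)
    obtain ⟨p, hp, hq⟩ := hm ⌊16 * v⌋₊ h4 (by omega)
    refine ⟨p, hp, ?_, ?_⟩
    · rw [hq]; exact Nat.floor_le h3
    · rw [hq]; exact (Nat.lt_floor_add_one _).le

end Pool.Agent.Lib.MP_084b88_gt.CT.PCSM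

namespace Pool.Agent.Lib.MP_084b88_gt.CT

/-- Module PCS. -/
theorem specPCS (hBRN : SpecBRN) (hSCN : SpecSCN) : SpecPCS := by
  intro nmin nmax u w V k0 l m1 m2 m3 m4 hK hk
  obtain ⟨a1, a2, a3, a4, ha, -, -, -, -, hav⟩ := PCSM.pieces_ex hBRN hSCN nmin nmax u w V pcs (fun p hp => hp)
    (by simp [pcs]) k0 l m1 m2 m3 m4 hK (fun p _ => Or.inl (by omega))
  exact ⟨a1, a2, a3, a4, ha, fun q1 q2 q3 q4 n y v r hn1 hn2 hA =>
    hav q1 q2 q3 q4 n y v r hn1 hn2 hA (PCSM.cover v hA.1 hA.2.1)⟩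

end Pool.Agent.Lib.MP_084b88_gt.CT
end

section
/-!
# MP_084b88_gt, project CT, module SCN: the lines of a piece
-/
set_option autoImplicit false

open MeasureTheory Set Real

namespace Pool.Agent.Lib.MP_084b88_gt.CT

namespace SCNM

theorem fN_eq {α : Type} (a : ℕ) (k : ℕ → α) : fN a k = k a := by
  cases a <;> rfl

theorem ifle_eq {α : Type} (a b : ℕ) (x y : α) : ifle a b x y = if a ≤ b then x else y := by
  unfold ifle
  split_ifs with h
  · rw [Nat.ble_eq_true_of_le h]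
  · have : Nat.ble a b = false := by
      cases hb : Nat.ble a b
      · rfl
      · exact absurd (Nat.le_of_ble_eq_true hb) h
    rw [this]

/-- the knot found by `fst` -/
def fstK (zb : ℕ) : List Knot → Knot → Knot
  | [], k0 => k0
  | x :: r, _ => if zb ≤ x.z * 1048576 then x else fstK zb r x

theorem fst_eq {α : Type} (zb : ℕ) (cont : Knot → α) : ∀ (l : List Knot) (k0 : Knot),
    fst zb cont l k0 = cont (fstK zb l k0) := by
  intro l
  induction l with
  | nil => intro k0; rfl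
  | cons x r ih =>
    intro k0
    change ifle zb (x.z * 1048576) (cont x) (fst zb cont r x) = _
    rw [ifle_eq, ih]
    simp only [fstK]
    split_ifs <;> rfl

theorem fst_ge (zb : ℕ) : ∀ (l : List Knot) (k0 : Knot), Lst (k0 :: l) →
    zb ≤ (fstK zb l k0).z * 1048576 ∨ (fstK zb l k0).z = 209920 := by
  intro l
  induction l with
  | nil => intro k0 h; right; exact h
  | cons x r ih =>
    intro k0 h
    simp only [fstK]
    split_ifs with hz
    · exact Or.inl hz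
    · exact ih x h

/-- the value of the line of `γ` -/
def gv (gp gn : ℕ) (x : Knot) : ℕ := 1125899906842624 + x.g * 1024 + gn * x.z - gp * x.z

/-- the values of `scan` -/
def scA (zl gp gn : ℕ) : List Knot → ℕ → ℕ
  | [], a => a
  | x :: r, a => if zl ≤ x.z then min a (gv gp gn x) else scA zl gp gn r (min a (gv gp gn x))

/-- the values of `scan` -/
def scB (zl w : ℕ) : List Knot → ℕ → ℕ
  | [], b => b
  | x :: r, b => if zl ≤ x.z then min b (x.wl * 1024 + w * x.z) else scB zl w r (min b (x.wl * 1024 + w * x.z))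

/-- the values of `scan` -/
def scC (zl w : ℕ) : List Knot → ℕ → ℕ
  | [], c => c
  | x :: r, c => if zl ≤ x.z then max c (x.wu * 1024 + w * x.z) else scC zl w r (max c (x.wu * 1024 + w * x.z))

theorem ifmin (a b : ℕ) : ifle a b a b = min a b := by
  rw [ifle_eq]; rfl

theorem ifmax (a b : ℕ) : ifle a b b a = max a b := by
  rw [ifle_eq]; rfl

theorem scan_eq {α : Type} (zl gp gn w : ℕ) (cont : ℕ → ℕ → ℕ → α) : ∀ (l : List Knot) (a b c : ℕ),
    scan zl gp gn w cont l a b c = cont (scA zl gp gn l a) (scB zl w l b) (scC zl w l c) := by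
  intro l
  induction l with
  | nil => intro a b c; rfl
  | cons x r ih =>
    intro a b c
    have h : scan zl gp gn w cont (x :: r) a b c =
      fN (Nat.sub (Nat.add (Nat.add 1125899906842624 (Nat.mul x.g 1024)) (Nat.mul gn x.z)) (Nat.mul gp x.z)) fun g =>
      fN (Nat.mul w x.z) fun wz =>
      fN (Nat.add (Nat.mul x.wl 1024) wz) fun wl =>
      fN (Nat.add (Nat.mul x.wu 1024) wz) fun wu =>
      fN (ifle a g a g) fun a => fN (ifle b wl b wl) fun b => fN (ifle c wu wu c) fun c =>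
      ifle zl x.z (cont a b c) (scan zl gp gn w cont r a b c) := rfl
    rw [h]
    simp only [fN_eq, ifmin, ifmax]
    rw [ifle_eq, ih]
    have e1 : Nat.sub (Nat.add (Nat.add 1125899906842624 (Nat.mul x.g 1024)) (Nat.mul gn x.z)) (Nat.mul gp x.z) =
      gv gp gn x := rfl
    have e2 : Nat.add (Nat.mul x.wl 1024) (Nat.mul w x.z) = x.wl * 1024 + w * x.z := rfl
    have e3 : Nat.add (Nat.mul x.wu 1024) (Nat.mul w x.z) = x.wu * 1024 + w * x.z := rfl
    rw [e1, e2, e3]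
    simp only [scA, scB, scC]
    split_ifs <;> rfl

/-- `P` holds for the visited knots. -/
def Vis (zl : ℕ) (P : Knot → Prop) : List Knot → Prop
  | [] => True
  | x :: r => P x ∧ (zl ≤ x.z ∨ Vis zl P r)

theorem vis_mono (zl : ℕ) {P Q : Knot → Prop} (h : ∀ x, P x → Q x) : ∀ l, Vis zl P l → Vis zl Q l := by
  intro l
  induction l with
  | nil => exact fun _ => trivial
  | cons x r ih =>
    rintro ⟨h1, h2⟩
    refine ⟨h x h1, ?_⟩
    rcases h2 with h2 | h2
    · exact Or.inl h2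
    · exact Or.inr (ih h2)

theorem scA_le (zl gp gn : ℕ) : ∀ (l : List Knot) (a : ℕ), scA zl gp gn l a ≤ a ∧
    Vis zl (fun x => scA zl gp gn l a ≤ gv gp gn x) l := by
  intro l
  induction l with
  | nil => intro a; exact ⟨le_refl _, trivial⟩
  | cons x r ih =>
    intro a
    by_cases hz : zl ≤ x.z
    · have e : scA zl gp gn (x :: r) a = min a (gv gp gn x) := by simp only [scA]; rw [if_pos hz]
      rw [e]
      exact ⟨min_le_left _ _, min_le_right _ _, Or.inl hz⟩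
    · have e : scA zl gp gn (x :: r) a = scA zl gp gn r (min a (gv gp gn x)) := by simp only [scA]; rw [if_neg hz]
      rw [e]
      obtain ⟨i1, i2⟩ := ih (min a (gv gp gn x))
      exact ⟨le_trans i1 (min_le_left _ _), le_trans i1 (min_le_right _ _), Or.inr i2⟩

theorem scB_le (zl w : ℕ) : ∀ (l : List Knot) (b : ℕ), scB zl w l b ≤ b ∧
    Vis zl (fun x => scB zl w l b ≤ x.wl * 1024 + w * x.z) l := by
  intro l
  induction l with
  | nil => intro a; exact ⟨le_refl _, trivial⟩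
  | cons x r ih =>
    intro b
    by_cases hz : zl ≤ x.z
    · have e : scB zl w (x :: r) b = min b (x.wl * 1024 + w * x.z) := by simp only [scB]; rw [if_pos hz]
      rw [e]
      exact ⟨min_le_left _ _, min_le_right _ _, Or.inl hz⟩
    · have e : scB zl w (x :: r) b = scB zl w r (min b (x.wl * 1024 + w * x.z)) := by simp only [scB]; rw [if_neg hz]
      rw [e]
      obtain ⟨i1, i2⟩ := ih (min b (x.wl * 1024 + w * x.z))
      exact ⟨le_trans i1 (min_le_left _ _), le_trans i1 (min_le_right _ _), Or.inr i2⟩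

theorem scC_ge (zl w : ℕ) : ∀ (l : List Knot) (c : ℕ), c ≤ scC zl w l c ∧
    Vis zl (fun x => x.wu * 1024 + w * x.z ≤ scC zl w l c) l := by
  intro l
  induction l with
  | nil => intro a; exact ⟨le_refl _, trivial⟩
  | cons x r ih =>
    intro c
    by_cases hz : zl ≤ x.z
    · have e : scC zl w (x :: r) c = max c (x.wu * 1024 + w * x.z) := by simp only [scC]; rw [if_pos hz]
      rw [e]
      exact ⟨le_max_left _ _, le_max_right _ _, Or.inl hz⟩
    · have e : scC zl w (x :: r) c = scC zl w r (max c (x.wu * 1024 + w * x.z)) := by simp only [scC]; rw [if_neg hz]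
      rw [e]
      obtain ⟨i1, i2⟩ := ih (max c (x.wu * 1024 + w * x.z))
      exact ⟨le_trans (le_max_left _ _) i1, le_trans (le_max_right _ _) i1, Or.inr i2⟩

theorem cover {R : Knot → Knot → Prop} {P : Knot → Prop} {F : Prop} {zl : ℕ} {z : ℝ}
    (hR : ∀ a b, R a b → P a → P b → (a.z : ℝ) ≤ 1024 * z → 1024 * z ≤ (b.z : ℝ) → F)
    (hz1 : 1024 * z ≤ (zl : ℝ)) (hz2 : 1024 * z ≤ 209920) :
    ∀ (l : List Knot) (k0 k1 : Knot), Ch R (k0 :: k1 :: l) → Lst (k0 :: k1 :: l) → P k0 → Vis zl P (k1 :: l) →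
      (k0.z : ℝ) ≤ 1024 * z → F := by
  intro l
  induction l with
  | nil =>
    intro k0 k1 hc hl p0 hv hz
    have e : k1.z = 209920 := hl
    refine hR k0 k1 hc.1 p0 hv.1 hz ?_
    rw [e]
    push_cast
    exact hz2
  | cons k2 l ih =>
    intro k0 k1 hc hl p0 hv hz
    rcases le_or_gt (1024 * z) (k1.z : ℝ) with h | h
    · exact hR k0 k1 hc.1 p0 hv.1 hz h
    · rcases hv.2 with h2 | h2
      · exfalso
        have : (zl : ℝ) ≤ k1.z := by exact_mod_cast h2
        linarith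
      · exact ih k1 k2 hc.2 hl hv.1 h2 h.le

theorem chG {g0 gp gn : ℕ} (hg : 0 < g0) {a b : Knot} {z : ℝ} (hR : GG a b) (ha : g0 ≤ gv gp gn a)
    (hb : g0 ≤ gv gp gn b) (h1 : (a.z : ℝ) ≤ 1024 * z) (h2 : 1024 * z ≤ (b.z : ℝ)) :
    ((g0 : ℝ) - 2 ^ 50 - 16384) / 2 ^ 30 + ((gp : ℝ) - (gn : ℝ)) / 2 ^ 20 * z ≤ KG z := by
  have key : ∀ x : Knot, g0 ≤ gv gp gn x →
      (g0 : ℝ) + gp * x.z ≤ 1125899906842624 + x.g * 1024 + gn * x.z := by
    intro x hx
    unfold gv at hx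
    have : g0 + gp * x.z ≤ 1125899906842624 + x.g * 1024 + gn * x.z := by omega
    exact_mod_cast this
  have ka := key a ha
  have kb := key b hb
  obtain ⟨hab, hG⟩ := hR
  have hab' : (a.z : ℝ) < b.z := by exact_mod_cast hab
  have hG' := hG z h1 h2
  have hd : (0 : ℝ) < b.z - a.z := by linarith
  have t1 := mul_le_mul_of_nonneg_right ka (by linarith : (0 : ℝ) ≤ b.z - 1024 * z)
  have t2 := mul_le_mul_of_nonneg_right kb (by linarith : (0 : ℝ) ≤ 1024 * z - a.z)
  have t3 : ((b.z : ℝ) - a.z) * (((g0 : ℝ) - 2 ^ 50 - 16384) / 2 ^ 30 + ((gp : ℝ) - (gn : ℝ)) / 2 ^ 20 * z) ≤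
      ((b.z : ℝ) - a.z) * KG z := by
    have e : ((b.z : ℝ) - a.z) * (((g0 : ℝ) - 2 ^ 50 - 16384) / 2 ^ 30 + ((gp : ℝ) - (gn : ℝ)) / 2 ^ 20 * z) =
      (((g0 : ℝ) + gp * a.z - gn * a.z - 1125899906842624 - 16384) * (b.z - 1024 * z) +
        ((g0 : ℝ) + gp * b.z - gn * b.z - 1125899906842624 - 16384) * (1024 * z - a.z)) / 2 ^ 30 := by
      ring
    rw [e, div_le_iff₀ (by positivity)]
    nlinarith
  exact le_of_mul_le_mul_left t3 hd

theorem chW {w0 u0 o1 : ℕ} {a b : Knot} {z : ℝ} (hR : GW a b)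
    (ha : w0 ≤ a.wl * 1024 + o1 * a.z ∧ a.wu * 1024 + o1 * a.z ≤ u0)
    (hb : w0 ≤ b.wl * 1024 + o1 * b.z ∧ b.wu * 1024 + o1 * b.z ≤ u0)
    (h1 : (a.z : ℝ) ≤ 1024 * z) (h2 : 1024 * z ≤ (b.z : ℝ)) :
    (w0 : ℝ) / 2 ^ 30 - (o1 : ℝ) / 2 ^ 20 * z ≤ OM z ∧ OM z ≤ (u0 : ℝ) / 2 ^ 30 - (o1 : ℝ) / 2 ^ 20 * z := by
  have a1 : (w0 : ℝ) ≤ a.wl * 1024 + o1 * a.z := by exact_mod_cast ha.1
  have a2 : (a.wu : ℝ) * 1024 + o1 * a.z ≤ u0 := by exact_mod_cast ha.2
  have b1 : (w0 : ℝ) ≤ b.wl * 1024 + o1 * b.z := by exact_mod_cast hb.1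
  have b2 : (b.wu : ℝ) * 1024 + o1 * b.z ≤ u0 := by exact_mod_cast hb.2
  obtain ⟨hab, hW⟩ := hR
  have hab' : (a.z : ℝ) < b.z := by exact_mod_cast hab
  obtain ⟨hW1, hW2⟩ := hW z h1 h2
  have hd : (0 : ℝ) < b.z - a.z := by linarith
  have na : (0 : ℝ) ≤ b.z - 1024 * z := by linarith
  have nb : (0 : ℝ) ≤ 1024 * z - a.z := by linarith
  have t1 := mul_le_mul_of_nonneg_right a1 na
  have t2 := mul_le_mul_of_nonneg_right b1 nb
  have t3 := mul_le_mul_of_nonneg_right a2 na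
  have t4 := mul_le_mul_of_nonneg_right b2 nb
  constructor
  · refine le_of_mul_le_mul_left (a := (b.z : ℝ) - a.z) ?_ hd
    have e : ((b.z : ℝ) - a.z) * ((w0 : ℝ) / 2 ^ 30 - (o1 : ℝ) / 2 ^ 20 * z) =
      (((w0 : ℝ) - o1 * a.z) * (b.z - 1024 * z) + ((w0 : ℝ) - o1 * b.z) * (1024 * z - a.z)) / 2 ^ 30 := by
      ring
    rw [e, div_le_iff₀ (by positivity)]
    nlinarith
  · refine le_of_mul_le_mul_left (a := (b.z : ℝ) - a.z) ?_ hd
    have e : ((b.z : ℝ) - a.z) * ((u0 : ℝ) / 2 ^ 30 - (o1 : ℝ) / 2 ^ 20 * z) =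
      (((u0 : ℝ) - o1 * a.z) * (b.z - 1024 * z) + ((u0 : ℝ) - o1 * b.z) * (1024 * z - a.z)) / 2 ^ 30 := by
      ring
    rw [e, le_div_iff₀ (by positivity)]
    nlinarith

end SCNM

open SCNM in
theorem specSCN : SpecSCN := by
  intro zb p u w V k0 k1 l m1 m2 m3 m4 hK hz0
  obtain ⟨cG, cW, hL⟩ := hK
  set kl := fstK zb (k1 :: l) k1 with hkl
  set dz := Nat.sub kl.z k0.z with hdz
  set gp := Nat.div (Nat.mul (Nat.sub kl.g k0.g) 1024) dz with hgp
  set gn := Nat.div (Nat.mul (Nat.sub k0.g kl.g) 1024) dz with hgn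
  set o1 := Nat.div (Nat.mul (Nat.sub k0.wu kl.wu) 1024) dz with ho1
  set g0 := scA kl.z gp gn (k1 :: l) (gv gp gn k0) with hg0
  set w0 := scB kl.z o1 (k1 :: l) (k0.wl * 1024 + o1 * k0.z) with hw0
  set u0 := scC kl.z o1 (k1 :: l) (k0.wu * 1024 + o1 * k0.z) with hu0
  refine ⟨g0, gp, gn, w0, u0, o1, ?_, ?_⟩
  · intro α k
    have e1 : piece zb p u w V k0 (k1 :: l) m1 m2 m3 m4 k =
      ifle (Nat.mul k0.z 1048576) zb (fst zb (fun kl =>
        fN (Nat.sub kl.z k0.z) fun dz =>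
        fN (Nat.div (Nat.mul (Nat.sub kl.g k0.g) 1024) dz) fun gp =>
        fN (Nat.div (Nat.mul (Nat.sub k0.g kl.g) 1024) dz) fun gn =>
        fN (Nat.div (Nat.mul (Nat.sub k0.wu kl.wu) 1024) dz) fun o1 =>
        scan kl.z gp gn o1 (fun a b c => ifle 1 a (br4 p a gp gn b c o1 u w V m1 m2 m3 m4 k) (k 0 0 0 0)) (k1 :: l)
          (Nat.sub (Nat.add (Nat.add 1125899906842624 (Nat.mul k0.g 1024)) (Nat.mul gn k0.z)) (Nat.mul gp k0.z))
          (Nat.add (Nat.mul k0.wl 1024) (Nat.mul o1 k0.z))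
          (Nat.add (Nat.mul k0.wu 1024) (Nat.mul o1 k0.z))) (k1 :: l) k1)
        (k m1 m2 m3 m4) := rfl
    have hz0' : Nat.mul k0.z 1048576 ≤ zb := hz0
    rw [e1, ifle_eq, if_pos hz0', fst_eq]
    simp only [fN_eq]
    rw [scan_eq]
    rfl
  · intro hg z h1 h2 h3
    have hzl : 1024 * z ≤ (kl.z : ℝ) := by
      have hc : zb ≤ kl.z * 1048576 ∨ kl.z = 209920 := by
        by_cases hb : zb ≤ k1.z * 1048576
        · have : kl = k1 := by rw [hkl]; simp only [fstK]; rw [if_pos hb]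
          rw [this]; exact Or.inl hb
        · have : kl = fstK zb l k1 := by rw [hkl]; simp only [fstK]; rw [if_neg hb]
          rw [this]; exact fst_ge zb l k1 hL
      rcases hc with hc | hc
      · have : (zb : ℝ) ≤ kl.z * 1048576 := by exact_mod_cast hc
        norm_num at h2
        linarith
      · rw [hc]; push_cast; exact h3
    obtain ⟨A1, A2⟩ := scA_le kl.z gp gn (k1 :: l) (gv gp gn k0)
    obtain ⟨B1, B2⟩ := scB_le kl.z o1 (k1 :: l) (k0.wl * 1024 + o1 * k0.z)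
    obtain ⟨C1, C2⟩ := scC_ge kl.z o1 (k1 :: l) (k0.wu * 1024 + o1 * k0.z)
    refine ⟨?_, ?_, ?_⟩
    · exact cover (R := GG) (P := fun x => g0 ≤ gv gp gn x)
        (fun a b hR ha hb q1 q2 => chG hg hR ha hb q1 q2) hzl h3 l k0 k1 cG hL A1 A2 h1
    · have hv : Vis kl.z (fun x => w0 ≤ x.wl * 1024 + o1 * x.z ∧ x.wu * 1024 + o1 * x.z ≤ u0) (k1 :: l) := by
        have gen : ∀ l', Vis kl.z (fun x => w0 ≤ x.wl * 1024 + o1 * x.z) l' →
            Vis kl.z (fun x => x.wu * 1024 + o1 * x.z ≤ u0) l' →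
            Vis kl.z (fun x => w0 ≤ x.wl * 1024 + o1 * x.z ∧ x.wu * 1024 + o1 * x.z ≤ u0) l' := by
          intro l'
          induction l' with
          | nil => exact fun _ _ => trivial
          | cons x r ih =>
            rintro ⟨x1, x2⟩ ⟨y1, y2⟩
            refine ⟨⟨x1, y1⟩, ?_⟩
            rcases x2 with x2 | x2
            · exact Or.inl x2
            · rcases y2 with y2 | y2
              · exact Or.inl y2
              · exact Or.inr (ih x2 y2)
        exact gen _ B2 C2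
      exact (cover (R := GW) (P := fun x => w0 ≤ x.wl * 1024 + o1 * x.z ∧ x.wu * 1024 + o1 * x.z ≤ u0)
        (fun a b hR ha hb q1 q2 => chW hR ha hb q1 q2) hzl h3 l k0 k1 cW hL ⟨B1, C1⟩ hv h1).1
    · have hv : Vis kl.z (fun x => w0 ≤ x.wl * 1024 + o1 * x.z ∧ x.wu * 1024 + o1 * x.z ≤ u0) (k1 :: l) := by
        have gen : ∀ l', Vis kl.z (fun x => w0 ≤ x.wl * 1024 + o1 * x.z) l' →
            Vis kl.z (fun x => x.wu * 1024 + o1 * x.z ≤ u0) l' →
            Vis kl.z (fun x => w0 ≤ x.wl * 1024 + o1 * x.z ∧ x.wu * 1024 + o1 * x.z ≤ u0) l' := by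
          intro l'
          induction l' with
          | nil => exact fun _ _ => trivial
          | cons x r ih =>
            rintro ⟨x1, x2⟩ ⟨y1, y2⟩
            refine ⟨⟨x1, y1⟩, ?_⟩
            rcases x2 with x2 | x2
            · exact Or.inl x2
            · rcases y2 with y2 | y2
              · exact Or.inl y2
              · exact Or.inr (ih x2 y2)
        exact gen _ B2 C2
      exact (cover (R := GW) (P := fun x => w0 ≤ x.wl * 1024 + o1 * x.z ∧ x.wu * 1024 + o1 * x.z ≤ u0)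
        (fun a b hR ha hb q1 q2 => chW hR ha hb q1 q2) hzl h3 l k0 k1 cW hL ⟨B1, C1⟩ hv h1).2

end Pool.Agent.Lib.MP_084b88_gt.CT
end

section
/-!
# MP_084b88_gt, project CT, module TRG: the table of the nodes
-/
set_option autoImplicit false

open MeasureTheory Set Real

namespace Pool.Agent.Lib.MP_084b88_gt.CT

namespace TRGM

/-- enclosures of `2^64 cos (k π/64)`, `2^64 sin (k π/64)` -/
structure Ent where
  cl : ℕ
  ch : ℕ
  sl : ℕ
  sh : ℕ

/-- the enclosures for `k = 0` -/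
def e0 : Ent := ⟨18446744073709551616, 18446744073709551616, 0, 0⟩

/-- the table for `k = 1, .., 31` -/
def tab : List Ent := [
  ⟨18424524162600791837, 18424524162600791838, 905138830610008563, 905138830610008564⟩,
  ⟨18357917958986607855, 18357917958986607858, 1808097102496279520, 1808097102496279523⟩,
  ⟨18247085923045520650, 18247085923045520655, 2706699510092035138, 2706699510092035143⟩,
  ⟨18092295058859852115, 18092295058859852123, 3598781241489102185, 3598781241489102192⟩,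
  ⟨17893918271179503951, 17893918271179503961, 4482193193659413850, 4482193193659413859⟩,
  ⟨17652433467061752551, 17652433467061752564, 5354807149832443549, 5354807149832443561⟩,
  ⟨17368422404551288311, 17368422404551288327, 6214520906555814897, 6214520906555814912⟩,
  ⟨17042569291174129982, 17042569291174130001, 7059263338087549758, 7059263338087549776⟩,
  ⟨16675659135621764989, 16675659135621765011, 7886999385919389860, 7886999385919389881⟩,
  ⟨16268575856596452999, 16268575856596453025, 8695734961410993261, 8695734961410993286⟩,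
  ⟨15822300153373650043, 15822300153373650072, 9483521749724130472, 9483521749724130501⟩,
  ⟨15337907143211554828, 15337907143211554861, 10248461903483781974, 10248461903483782007⟩,
  ⟨14816563771299464590, 14816563771299464627, 10988712614858696440, 10988712614858696477⟩,
  ⟨14259525999484601749, 14259525999484601790, 11702490555046867118, 11702490555046867160⟩,
  ⟨13668135780550014684, 13668135780550014730, 12388076170470817025, 12388076170470817071⟩,
  ⟨13043817825332782189, 13043817825332782240, 13043817825332782190, 13043817825332782241⟩,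
  ⟨12388076170470817019, 12388076170470817075, 13668135780550014680, 13668135780550014736⟩,
  ⟨11702490555046867108, 11702490555046867169, 14259525999484601740, 14259525999484601801⟩,
  ⟨10988712614858696425, 10988712614858696491, 14816563771299464577, 14816563771299464643⟩,
  ⟨10248461903483781955, 10248461903483782026, 15337907143211554810, 15337907143211554882⟩,
  ⟨9483521749724130448, 9483521749724130525, 15822300153373650021, 15822300153373650098⟩,
  ⟨8695734961410993232, 8695734961410993315, 16268575856596452973, 16268575856596453056⟩,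
  ⟨7886999385919389826, 7886999385919389915, 16675659135621764958, 16675659135621765048⟩,
  ⟨7059263338087549719, 7059263338087549815, 17042569291174129946, 17042569291174130043⟩,
  ⟨6214520906555814853, 6214520906555814956, 17368422404551288271, 17368422404551288375⟩,
  ⟨5354807149832443500, 5354807149832443610, 17652433467061752506, 17652433467061752618⟩,
  ⟨4482193193659413796, 4482193193659413913, 17893918271179503901, 17893918271179504021⟩,
  ⟨3598781241489102126, 3598781241489102251, 18092295058859852061, 18092295058859852188⟩,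
  ⟨2706699510092035074, 2706699510092035207, 18247085923045520591, 18247085923045520726⟩,
  ⟨1808097102496279450, 1808097102496279592, 18357917958986607791, 18357917958986607935⟩,
  ⟨905138830610008487, 905138830610008638, 18424524162600791768, 18424524162600791921⟩]

/-- one step of the recursion -/
def stp (e e' : Ent) : Bool :=
  decide (e'.cl * 18446744073709551616 + e.sh * 905138830610008564 ≤ e.cl * 18424524162600791837) &&
  decide (e.ch * 18424524162600791838 ≤ e'.ch * 18446744073709551616 + e.sl * 905138830610008563) &&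
  decide (e'.sl * 18446744073709551616 ≤ e.sl * 18424524162600791837 + e.cl * 905138830610008563) &&
  decide (e.sh * 18424524162600791838 + e.ch * 905138830610008564 ≤ e'.sh * 18446744073709551616)

/-- the check of the sine -/
def okS (e : Ent) (x : Nod) : Bool :=
  decide (x.sg * 314159265358979323847 * 18446744073709551616 ≤ 33554432 * e.sl * 100000000000000000000) &&
  decide (33554432 * e.sh * 100000000000000000000 ≤ (x.sg + 1) * 314159265358979323846 * 18446744073709551616)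

/-- a node with the index `k` -/
def okA (e : Ent) (x : Nod) : Bool :=
  okS e x && decide (x.yl * 18446744073709551616 + 524288 * e.ch ≤ 524288 * 18446744073709551616) &&
  decide (524288 * 18446744073709551616 ≤ x.yu * 18446744073709551616 + 524288 * e.cl)

/-- a node with the index `64 - k` -/
def okB (e : Ent) (x : Nod) : Bool :=
  okS e x && decide (x.yl * 18446744073709551616 ≤ 524288 * (18446744073709551616 + e.cl)) &&
  decide (524288 * (18446744073709551616 + e.ch) ≤ x.yu * 18446744073709551616)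

/-- the nodes with index `k` or `64 - k` -/
def okN (k : ℕ) (e : Ent) : Bool :=
  nodT.all fun x => (decide (x.k ≠ k) || okA e x) && (decide (x.k + k ≠ 64) || okB e x)

/-- the whole check -/
def walk : ℕ → Ent → List Ent → Bool
  | k, e, [] => okN k e
  | k, e, e' :: l => okN k e && stp e e' && walk (k + 1) e' l

theorem walk_ok : walk 0 e0 tab = true := by decide +kernel

theorem sqrt_bd {x y l h : ℝ} (_hl : 0 ≤ l) (hh : 0 ≤ h) (h1 : l ^ 2 ≤ x) (h2 : y ≤ h ^ 2) :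
    l ≤ √x ∧ √y ≤ h := by
  refine ⟨Real.le_sqrt_of_sq_le h1, ?_⟩
  rw [Real.sqrt_le_left hh]
  exact h2

theorem base : (18424524162600791837 : ℝ) ≤ 18446744073709551616 * cos (π / 64) ∧
    18446744073709551616 * cos (π / 64) ≤ 18424524162600791838 ∧
    (905138830610008563 : ℝ) ≤ 18446744073709551616 * sin (π / 64) ∧
    18446744073709551616 * sin (π / 64) ≤ 905138830610008564 := by
  have hc := Real.cos_pi_over_two_pow 5
  have hs := Real.sin_pi_over_two_pow_succ 4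
  simp only [sqrtTwoAddSeries] at hc hs
  norm_num only at hc hs
  have h1 : (1709679290002018430137083 / 1208925819614629174706176) ≤ √2 ∧ √2 ≤ (1709679290002018430137084 / 1208925819614629174706176) := by
    exact sqrt_bd (by norm_num) (by norm_num) (by norm_num) (by norm_num)
  have h2 : (2233803642132775565982913 / 1208925819614629174706176) ≤ √(2 + √2) ∧ √(2 + √2) ≤ (2233803642132775565982915 / 1208925819614629174706176) := by
    obtain ⟨p, q⟩ := h1
    refine sqrt_bd (by norm_num) (by norm_num) (le_trans (b := 2 + (1709679290002018430137083 / 1208925819614629174706176)) (by norm_num) (by linarith)) (le_trans (b := 2 + (1709679290002018430137084 / 1208925819614629174706176)) (by linarith) (by norm_num))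
  have h3 : (2371393297954878536827621 / 1208925819614629174706176) ≤ √(2 + √(2 + √2)) ∧ √(2 + √(2 + √2)) ≤ (2371393297954878536827622 / 1208925819614629174706176) := by
    obtain ⟨p, q⟩ := h2
    refine sqrt_bd (by norm_num) (by norm_num) (le_trans (b := 2 + (2233803642132775565982913 / 1208925819614629174706176)) (by norm_num) (by linarith)) (le_trans (b := 2 + (2233803642132775565982915 / 1208925819614629174706176)) (by linarith) (by norm_num))
  have h4 : (2406209022720292664935026 / 1208925819614629174706176) ≤ √(2 + √(2 + √(2 + √2))) ∧ √(2 + √(2 + √(2 + √2))) ≤ (2406209022720292664935027 / 1208925819614629174706176) := by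
    obtain ⟨p, q⟩ := h3
    refine sqrt_bd (by norm_num) (by norm_num) (le_trans (b := 2 + (2371393297954878536827621 / 1208925819614629174706176)) (by norm_num) (by linarith)) (le_trans (b := 2 + (2371393297954878536827622 / 1208925819614629174706176)) (by linarith) (by norm_num))
  have h5 : (2414939231040410987693117 / 1208925819614629174706176) ≤ √(2 + √(2 + √(2 + √(2 + √2)))) ∧ √(2 + √(2 + √(2 + √(2 + √2)))) ≤ (2414939231040410987693118 / 1208925819614629174706176) := by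
    obtain ⟨p, q⟩ := h4
    refine sqrt_bd (by norm_num) (by norm_num) (le_trans (b := 2 + (2406209022720292664935026 / 1208925819614629174706176)) (by norm_num) (by linarith)) (le_trans (b := 2 + (2406209022720292664935027 / 1208925819614629174706176)) (by linarith) (by norm_num))
  have h6 : (118638356805715042430270 / 1208925819614629174706176) ≤ √(2 - √(2 + √(2 + √(2 + √2)))) ∧ √(2 - √(2 + √(2 + √(2 + √2)))) ≤ (118638356805715042430276 / 1208925819614629174706176) := by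
    obtain ⟨p, q⟩ := h4
    refine sqrt_bd (by norm_num) (by norm_num) (le_trans (b := 2 - (2406209022720292664935027 / 1208925819614629174706176)) (by norm_num) (by linarith)) (le_trans (b := 2 - (2406209022720292664935026 / 1208925819614629174706176)) (by linarith) (by norm_num))
  rw [hc, hs]
  obtain ⟨p, q⟩ := h5
  obtain ⟨r, t⟩ := h6
  refine ⟨?_, ?_, ?_, ?_⟩
  · linarith
  · linarith
  · linarith
  · linarith

/-- the invariant -/
def Inv (k : ℕ) (e : Ent) : Prop :=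
  (e.cl : ℝ) ≤ 18446744073709551616 * cos ((k : ℝ) * π / 64) ∧
  18446744073709551616 * cos ((k : ℝ) * π / 64) ≤ (e.ch : ℝ) ∧
  (e.sl : ℝ) ≤ 18446744073709551616 * sin ((k : ℝ) * π / 64) ∧
  18446744073709551616 * sin ((k : ℝ) * π / 64) ≤ (e.sh : ℝ)

/-- the statement for a node -/
def P (x : Nod) : Prop :=
  (x.yl : ℝ) ≤ 1048576 * sin ((x.k : ℝ) * π / 128) ^ 2 ∧
    1048576 * sin ((x.k : ℝ) * π / 128) ^ 2 ≤ (x.yu : ℝ) ∧
    (x.sg : ℝ) ≤ 1048576 * (32 / π) * sin ((x.k : ℝ) * π / 64) ∧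
    1048576 * (32 / π) * sin ((x.k : ℝ) * π / 64) ≤ (x.sg : ℝ) + 1

theorem inv0 : Inv 0 e0 := by
  simp [Inv, e0]

theorem mul_le {a b c d : ℝ} (ha : 0 ≤ a) (hb : 0 ≤ b) (h1 : a ≤ c) (h2 : b ≤ d) : a * b ≤ c * d :=
  mul_le_mul h1 h2 hb (le_trans ha h1)

theorem inv_step {k : ℕ} {e e' : Ent} (h : Inv k e) (hs : stp e e' = true) : Inv (k + 1) e' := by
  obtain ⟨a1, a2, a3, a4⟩ := h
  obtain ⟨b1, b2, b3, b4⟩ := base
  simp only [stp, Bool.and_eq_true, decide_eq_true_eq] at hs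
  obtain ⟨⟨⟨q1, q2⟩, q3⟩, q4⟩ := hs
  have r1 : (e'.cl : ℝ) * 18446744073709551616 + e.sh * 905138830610008564 ≤ e.cl * 18424524162600791837 := by
    exact_mod_cast q1
  have r2 : (e.ch : ℝ) * 18424524162600791838 ≤ e'.ch * 18446744073709551616 + e.sl * 905138830610008563 := by
    exact_mod_cast q2
  have r3 : (e'.sl : ℝ) * 18446744073709551616 ≤ e.sl * 18424524162600791837 + e.cl * 905138830610008563 := by
    exact_mod_cast q3
  have r4 : (e.sh : ℝ) * 18424524162600791838 + e.ch * 905138830610008564 ≤ e'.sh * 18446744073709551616 := by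
    exact_mod_cast q4
  have e1 : ((k + 1 : ℕ) : ℝ) * π / 64 = (k : ℝ) * π / 64 + π / 64 := by push_cast; ring
  set C := 18446744073709551616 * cos ((k : ℝ) * π / 64) with hC
  set N := 18446744073709551616 * sin ((k : ℝ) * π / 64) with hN
  set c := 18446744073709551616 * cos (π / 64) with hc
  set s := 18446744073709551616 * sin (π / 64) with hs
  have ncl : (0 : ℝ) ≤ e.cl := Nat.cast_nonneg _
  have nsl : (0 : ℝ) ≤ e.sl := Nat.cast_nonneg _
  have t1 := mul_le ncl (by norm_num) a1 b1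
  have t2 := mul_le (le_trans ncl a1) (by linarith) a2 b2
  have t3 := mul_le nsl (by norm_num) a3 b3
  have t4 := mul_le (le_trans nsl a3) (by linarith) a4 b4
  have t5 := mul_le nsl (by norm_num) a3 b1
  have t6 := mul_le ncl (by norm_num) a1 b3
  have t7 := mul_le (le_trans nsl a3) (by linarith) a4 b2
  have t8 := mul_le (le_trans ncl a1) (by linarith) a2 b4
  have f1 : 18446744073709551616 * (18446744073709551616 * cos (((k + 1 : ℕ) : ℝ) * π / 64)) = C * c - N * s := by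
    rw [e1, Real.cos_add, hC, hN, hc, hs]; ring
  have f2 : 18446744073709551616 * (18446744073709551616 * sin (((k + 1 : ℕ) : ℝ) * π / 64)) = N * c + C * s := by
    rw [e1, Real.sin_add, hC, hN, hc, hs]; ring
  refine ⟨?_, ?_, ?_, ?_⟩
  · linarith
  · linarith
  · linarith
  · linarith

theorem okS_sound {k : ℕ} {e : Ent} {x : Nod} (h : Inv k e) (hx : okS e x = true)
    (hxs : sin ((x.k : ℝ) * π / 64) = sin ((k : ℝ) * π / 64)) :
    (x.sg : ℝ) ≤ 1048576 * (32 / π) * sin ((x.k : ℝ) * π / 64) ∧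
    1048576 * (32 / π) * sin ((x.k : ℝ) * π / 64) ≤ (x.sg : ℝ) + 1 := by
  obtain ⟨-, -, a3, a4⟩ := h
  simp only [okS, Bool.and_eq_true, decide_eq_true_eq] at hx
  obtain ⟨q1, q2⟩ := hx
  have r1 : (x.sg : ℝ) * 314159265358979323847 * 18446744073709551616 ≤
      33554432 * e.sl * 100000000000000000000 := by exact_mod_cast q1
  have r2 : 33554432 * (e.sh : ℝ) * 100000000000000000000 ≤
      (x.sg + 1) * 314159265358979323846 * 18446744073709551616 := by exact_mod_cast q2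
  have p1 : π ≤ 314159265358979323847 / 100000000000000000000 := by
    have := Real.pi_lt_d20; norm_num at this ⊢; linarith
  have p2 : 314159265358979323846 / 100000000000000000000 ≤ π := by
    have := Real.pi_gt_d20; norm_num at this ⊢; linarith
  have hp := Real.pi_pos
  have nsg : (0 : ℝ) ≤ x.sg := Nat.cast_nonneg _
  rw [hxs]
  have e1 : 1048576 * (32 / π) * sin ((k : ℝ) * π / 64) = 33554432 * sin ((k : ℝ) * π / 64) / π := by
    field_simp; ring
  rw [e1, le_div_iff₀ hp, div_le_iff₀ hp]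
  have t1 := mul_le_mul_of_nonneg_left p1 nsg
  have t2 := mul_le_mul_of_nonneg_left p2 (by linarith : (0 : ℝ) ≤ x.sg + 1)
  constructor
  · linarith
  · linarith

theorem sq_half (x : ℝ) : sin (x / 2) ^ 2 = (1 - cos x) / 2 := by
  have h := Real.cos_sq (x / 2)
  have h2 := Real.sin_sq_add_cos_sq (x / 2)
  have e : 2 * (x / 2) = x := by ring
  rw [e] at h
  linarith

theorem okA_sound {e : Ent} {x : Nod} (h : Inv x.k e) (hx : okA e x = true) : P x := by
  have h' := h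
  obtain ⟨a1, a2, -, -⟩ := h'
  simp only [okA, Bool.and_eq_true, decide_eq_true_eq] at hx
  obtain ⟨⟨q0, q1⟩, q2⟩ := hx
  obtain ⟨s1, s2⟩ := okS_sound h q0 rfl
  have r1 : (x.yl : ℝ) * 18446744073709551616 + 524288 * e.ch ≤ 524288 * 18446744073709551616 := by
    exact_mod_cast q1
  have r2 : 524288 * (18446744073709551616 : ℝ) ≤ x.yu * 18446744073709551616 + 524288 * e.cl := by
    exact_mod_cast q2
  have e1 : (x.k : ℝ) * π / 128 = ((x.k : ℝ) * π / 64) / 2 := by ring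
  refine ⟨?_, ?_, s1, s2⟩
  · rw [e1, sq_half]; linarith
  · rw [e1, sq_half]; linarith

theorem okB_sound {k : ℕ} {e : Ent} {x : Nod} (hk : x.k + k = 64) (h : Inv k e) (hx : okB e x = true) : P x := by
  have h' := h
  obtain ⟨a1, a2, -, -⟩ := h'
  simp only [okB, Bool.and_eq_true, decide_eq_true_eq] at hx
  obtain ⟨⟨q0, q1⟩, q2⟩ := hx
  have ek : (x.k : ℝ) * π / 64 = π - (k : ℝ) * π / 64 := by
    have : (x.k : ℝ) = 64 - k := by
      have : ((x.k + k : ℕ) : ℝ) = 64 := by rw [hk]; norm_num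
      push_cast at this; linarith
    rw [this]; ring
  obtain ⟨s1, s2⟩ := okS_sound h q0 (by rw [ek, Real.sin_pi_sub])
  have r1 : (x.yl : ℝ) * 18446744073709551616 ≤ 524288 * (18446744073709551616 + e.cl) := by
    exact_mod_cast q1
  have r2 : 524288 * (18446744073709551616 + (e.ch : ℝ)) ≤ x.yu * 18446744073709551616 := by
    exact_mod_cast q2
  have e1 : (x.k : ℝ) * π / 128 = ((x.k : ℝ) * π / 64) / 2 := by ring
  refine ⟨?_, ?_, s1, s2⟩
  · rw [e1, sq_half, ek, Real.cos_pi_sub]; linarith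
  · rw [e1, sq_half, ek, Real.cos_pi_sub]; linarith

theorem okN_sound {k : ℕ} {e : Ent} (h : Inv k e) (ho : okN k e = true) :
    ∀ x ∈ nodT, (x.k = k ∨ x.k + k = 64) → P x := by
  intro x hx hk
  have := (List.all_eq_true.mp ho) x hx
  simp only [Bool.and_eq_true, Bool.or_eq_true, decide_eq_true_eq] at this
  obtain ⟨u, v⟩ := this
  rcases hk with hk | hk
  · subst hk
    rcases u with u | u
    · exact absurd rfl u
    · exact okA_sound h u
  · rcases v with v | v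
    · exact absurd hk v
    · exact okB_sound hk h v

theorem walk_sound : ∀ (l : List Ent) (k : ℕ) (e : Ent), Inv k e → walk k e l = true →
    ∀ j, k ≤ j → j ≤ k + l.length → ∀ x ∈ nodT, (x.k = j ∨ x.k + j = 64) → P x := by
  intro l
  induction l with
  | nil =>
    intro k e h hw j h1 h2
    have : j = k := by simp at h2; omega
    subst this
    exact okN_sound h hw
  | cons e' l ih =>
    intro k e h hw j h1 h2
    simp only [walk, Bool.and_eq_true] at hw
    obtain ⟨⟨w1, w2⟩, w3⟩ := hw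
    rcases Nat.lt_or_ge k j with hj | hj
    · exact ih (k + 1) e' (inv_step h w2) w3 j hj (by simp at h2; omega)
    · have : j = k := le_antisymm hj h1
      subst this
      exact okN_sound h w1

theorem nod_k : (nodT.all fun x => decide (x.k ≤ 64) && (decide (x.k ≠ 32) ||
    (decide (x.yl = 524288) && decide (x.yu = 524288) && decide (x.sg = 10680707)))) = true := by decide +kernel

theorem mid {x : Nod} (hk : x.k = 32) (h1 : x.yl = 524288) (h2 : x.yu = 524288) (h3 : x.sg = 10680707) : P x := by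
  have e1 : (x.k : ℝ) * π / 128 = (π / 2) / 2 := by rw [hk]; push_cast; ring
  have e2 : (x.k : ℝ) * π / 64 = π / 2 := by rw [hk]; push_cast; ring
  have hp := Real.pi_pos
  have p1 := Real.pi_lt_d20
  have p2 := Real.pi_gt_d20
  unfold P
  rw [e1, e2, sq_half, Real.cos_pi_div_two, Real.sin_pi_div_two, h1, h2, h3]
  refine ⟨by norm_num, by norm_num, ?_, ?_⟩
  · have : 1048576 * (32 / π) * 1 = 33554432 / π := by ring
    rw [this, le_div_iff₀ hp]
    push_cast
    norm_num at p1 ⊢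
    linarith
  · have : 1048576 * (32 / π) * 1 = 33554432 / π := by ring
    rw [this, div_le_iff₀ hp]
    push_cast
    norm_num at p2 ⊢
    linarith

end TRGM

open TRGM in
theorem specTRG : SpecTRG := by
  intro x hx
  change P x
  have hn := (List.all_eq_true.mp nod_k) x hx
  simp only [Bool.and_eq_true, Bool.or_eq_true, decide_eq_true_eq] at hn
  obtain ⟨n1, n2⟩ := hn
  rcases lt_trichotomy x.k 32 with h | h | h
  · exact walk_sound tab 0 e0 inv0 walk_ok x.k (Nat.zero_le _) (by simp [tab]; omega) x hx (Or.inl rfl)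
  · rcases n2 with n2 | ⟨⟨n3, n4⟩, n5⟩
    · exact absurd h n2
    · exact mid h n3 n4 n5
  · exact walk_sound tab 0 e0 inv0 walk_ok (64 - x.k) (Nat.zero_le _) (by simp [tab]; omega) x hx (Or.inr (by omega))

end Pool.Agent.Lib.MP_084b88_gt.CT
end
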